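import Mathlib

set_option autoImplicit false

/-! Cocycles on HNN extensions, a retraction onto the intersection with the base group, and
homomorphisms which vanish on this intersection. -/

namespace Pool.Agent.helper444_cyc

open HNNExtension

section Perm

/-- A family of permutations of the fibres over a permutation without periodic points has an
invariant section. -/
theorem exists_equivariant {Q K : Type} (k0 : K) (σ : Equiv.Perm Q)
    (hσ : ∀ (k : ℤ) (q : Q), (σ ^ k) q = q → k = 0) (T : Q → Equiv.Perm K) :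
    ∃ m : Q → K, ∀ q, m (σ q) = T q (m q) := by
  classical
  -- the skew product
  let S : Equiv.Perm (Q × K) :=
    { toFun := fun p => (σ p.1, T p.1 p.2)
      invFun := fun p => (σ.symm p.1, (T (σ.symm p.1)).symm p.2)
      left_inv := by intro p; simp
      right_inv := by intro p; simp }
  have hS : ∀ p : Q × K, S p = (σ p.1, T p.1 p.2) := fun p => rfl
  have hS1 : ∀ (k : ℤ) (p : Q × K), ((S ^ k) p).1 = (σ ^ k) p.1 := by
    intro k
    induction k using Int.induction_on with
    | zero => intro p; simp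
    | succ k ih =>
      intro p
      rw [add_comm (k : ℤ) 1, zpow_add, zpow_add, zpow_one, zpow_one, Equiv.Perm.mul_apply,
        Equiv.Perm.mul_apply, hS, ih]
    | pred k ih =>
      intro p
      have h1 : ((S ^ (-(k : ℤ) - 1)) p) = S⁻¹ ((S ^ (-(k : ℤ))) p) := by
        rw [← Equiv.Perm.mul_apply, ← zpow_neg_one, ← zpow_add]; congr 2; ring
      have h2 : ((σ ^ (-(k : ℤ) - 1)) p.1) = σ⁻¹ ((σ ^ (-(k : ℤ))) p.1) := by
        rw [← Equiv.Perm.mul_apply, ← zpow_neg_one, ← zpow_add]; congr 2; ring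
      rw [h1, h2, ← ih]
      rfl
  let r : Q → Q := fun q => (Quotient.mk (Equiv.Perm.SameCycle.setoid σ) q).out
  have hr : ∀ q, ∃ k : ℤ, (σ ^ k) (r q) = q := by
    intro q
    have : Equiv.Perm.SameCycle σ (r q) q := Quotient.mk_out (s := Equiv.Perm.SameCycle.setoid σ) q
    exact this
  have hrσ : ∀ q, r (σ q) = r q := by
    intro q
    have : Quotient.mk (Equiv.Perm.SameCycle.setoid σ) (σ q) =
        Quotient.mk (Equiv.Perm.SameCycle.setoid σ) q := by
      apply Quotient.sound
      exact ⟨-1, by simp⟩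
    change (Quotient.mk (Equiv.Perm.SameCycle.setoid σ) (σ q)).out = _
    rw [this]
  choose κ hκ using hr
  have hκσ : ∀ q, κ (σ q) = κ q + 1 := by
    intro q
    have h1 := hκ (σ q)
    have h2 := hκ q
    rw [hrσ] at h1
    have h3 : (σ ^ (κ q + 1)) (r q) = σ q := by
      rw [add_comm, zpow_add, zpow_one, Equiv.Perm.mul_apply, h2]
    have h4 : (σ ^ (κ (σ q) - (κ q + 1))) (σ q) = σ q := by
      have h5 : (σ ^ (κ (σ q) - (κ q + 1))) ((σ ^ (κ q + 1)) (r q)) = (σ ^ (κ (σ q))) (r q) := by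
        rw [← Equiv.Perm.mul_apply, ← zpow_add, sub_add_cancel]
      rw [h3, h1] at h5
      exact h5
    have := hσ _ _ h4
    omega
  refine ⟨fun q => ((S ^ (κ q)) (r q, k0)).2, fun q => ?_⟩
  have h5 : (S ^ (κ q)) (r q, k0) = (q, ((S ^ (κ q)) (r q, k0)).2) := by
    ext
    · rw [hS1, hκ]
    · rfl
  show ((S ^ (κ (σ q))) (r (σ q), k0)).2 = T q _
  rw [hκσ, hrσ, add_comm, zpow_add, zpow_one, Equiv.Perm.mul_apply]
  conv_lhs => rw [h5]
  rw [hS]

end Perm

section Cocycle

variable {G : Type} [Group G] {A B : Subgroup G} {φ : A ≃* B}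

/-- Extension of a cocycle from the base group to the HNN extension. -/
theorem exists_cocycle {Q K : Type} [Group K] [MulAction (HNNExtension G A B φ) Q]
    (a0 : A) (ha0 : ∀ c : A, c ∈ Subgroup.zpowers a0)
    (D : G → Q → K) (m : Q → K)
    (hD : ∀ g h q, D (g * h) q = D g q * D h ((of g : HNNExtension G A B φ)⁻¹ • q))
    (hm : ∀ q, D (φ a0) q * m ((of (φ a0 : G) : HNNExtension G A B φ)⁻¹ • q) =
      m q * D a0 ((t : HNNExtension G A B φ)⁻¹ • q)) :
    ∃ C : HNNExtension G A B φ → Q → K,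
      (∀ g h q, C (g * h) q = C g q * C h (g⁻¹ • q)) ∧ (∀ g, C (of g) = D g) ∧ C t = m := by
  let θ : HNNExtension G A B φ →* MulAut (Q → K) := mulAutArrow
  have hθ : ∀ g f q, θ g f q = f (g⁻¹ • q) := fun g f q => rfl
  let f : G →* SemidirectProduct (Q → K) (HNNExtension G A B φ) θ :=
    MonoidHom.mk' (fun g => ⟨D g, of g⟩) (by
      intro g h
      ext1
      · funext q
        exact hD g h q
      · exact map_mul _ _ _)
  have hf : ∀ g, f g = ⟨D g, of g⟩ := fun g => rfl
  have key : (⟨m, t⟩ : SemidirectProduct (Q → K) (HNNExtension G A B φ) θ) * f a0 =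
      f (φ a0) * ⟨m, t⟩ := by
    rw [hf, hf]
    ext1
    · funext q
      exact (hm q).symm
    · exact t_mul_of a0
  let F := lift (φ := φ) f (⟨m, t⟩ : SemidirectProduct (Q → K) (HNNExtension G A B φ) θ) (by
    intro a
    obtain ⟨k, rfl⟩ := Subgroup.mem_zpowers_iff.mp (ha0 a)
    have h1 : SemiconjBy (⟨m, t⟩ : SemidirectProduct (Q → K) (HNNExtension G A B φ) θ)
      (f a0) (f (φ a0)) := key
    have h2 := h1.zpow_right k
    rw [← map_zpow, ← map_zpow] at h2
    rw [map_zpow]
    push_cast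
    exact h2)
  have hFr : ∀ x, (F x).right = x := by
    have : SemidirectProduct.rightHom.comp F = MonoidHom.id _ := by
      apply hom_ext
      · ext g
        simp [F, f]
      · simp [F]
    intro x
    exact DFunLike.congr_fun this x
  refine ⟨fun x => (F x).left, ?_, ?_, ?_⟩
  · intro g h q
    show (F (g * h)).left q = _
    rw [map_mul, SemidirectProduct.mul_left, Pi.mul_apply, hFr, hθ]
  · intro g
    show (F (of g)).left = _
    simp [F, f]
  · show (F t).left = _
    simp [F]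

variable (N : Subgroup (HNNExtension G A B φ))

/-- If the conjugates of the associated subgroup meet `N` trivially, then `N` retracts onto its
intersection with the base group. -/
theorem exists_retraction (a0 : A) (ha0 : ∀ c : A, c ∈ Subgroup.zpowers a0)
    (hfree : ∀ (x : HNNExtension G A B φ) (k : ℤ),
      x * (of ((φ a0 : B) : G)) ^ k * x⁻¹ ∈ N → k = 0) :
    ∃ r : N →* N.comap (of : G →* HNNExtension G A B φ),
      ∀ (g : G) (hg : (of g : HNNExtension G A B φ) ∈ N), r ⟨of g, hg⟩ = ⟨g, hg⟩ := by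
  classical
  set L := N.comap (of : G →* HNNExtension G A B φ) with hL
  -- an equivariant map `G → L`
  obtain ⟨Λ, hΛ1, hΛ⟩ : ∃ Λ : G → L, Λ 1 = 1 ∧ ∀ (n : L) (g : G), Λ (n * g) = n * Λ g := by
    let s : G → G := fun g => (Quotient.mk (QuotientGroup.rightRel L) g).out
    have hs : ∀ g, g * (s g)⁻¹ ∈ L := by
      intro g
      have : (QuotientGroup.rightRel L) (s g) g :=
        Quotient.mk_out (s := QuotientGroup.rightRel L) g
      rwa [QuotientGroup.rightRel_apply] at this
    have hs' : ∀ (n : L) (g : G), s (n * g) = s g := by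
      intro n g
      have : Quotient.mk (QuotientGroup.rightRel L) (n * g) =
          Quotient.mk (QuotientGroup.rightRel L) g := by
        apply Quotient.sound
        change (QuotientGroup.rightRel L) _ _
        rw [QuotientGroup.rightRel_apply]
        have : g * (↑n * g)⁻¹ = ((n⁻¹ : L) : G) := by
          push_cast; group
        rw [this]; exact (n⁻¹ : L).2
      change (Quotient.mk (QuotientGroup.rightRel L) (n * g)).out = _
      rw [this]
    refine ⟨fun g => ⟨g * (s g)⁻¹, hs g⟩ * ⟨1 * (s 1)⁻¹, hs 1⟩⁻¹, mul_inv_cancel _, ?_⟩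
    intro n g
    ext
    push_cast
    rw [hs']
    simp only [mul_assoc]
  have hΛn : ∀ (n : G) (hn : n ∈ L) (g : G), Λ (n * g) = ⟨n, hn⟩ * Λ g := fun n hn g => hΛ ⟨n, hn⟩ g
  let Q := HNNExtension G A B φ ⧸ N
  let q0 : Q := ((1 : HNNExtension G A B φ) : HNNExtension G A B φ ⧸ N)
  have hq : ∀ x y : HNNExtension G A B φ, x • q0 = y • q0 ↔ x⁻¹ * y ∈ N := by
    intro x y
    show ((x * 1 : HNNExtension G A B φ) : HNNExtension G A B φ ⧸ N) =
      ((y * 1 : HNNExtension G A B φ) : HNNExtension G A B φ ⧸ N) ↔ _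
    rw [QuotientGroup.eq, mul_one, mul_one]
  let D : G → Q → L := fun h q =>
    if hx : ∃ g : G, q = (of g : HNNExtension G A B φ)⁻¹ • q0 then
      (Λ hx.choose)⁻¹ * Λ (hx.choose * h) else 1
  have hD : ∀ (h g : G), D h ((of g : HNNExtension G A B φ)⁻¹ • q0) = (Λ g)⁻¹ * Λ (g * h) := by
    intro h g
    have hx : ∃ g' : G, (of g : HNNExtension G A B φ)⁻¹ • q0 =
      (of g' : HNNExtension G A B φ)⁻¹ • q0 := ⟨g, rfl⟩
    have h1 : D h ((of g : HNNExtension G A B φ)⁻¹ • q0) =
      (Λ hx.choose)⁻¹ * Λ (hx.choose * h) := dif_pos hx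
    rw [h1]
    have h2 := hx.choose_spec
    rw [hq, inv_inv] at h2
    set g' := hx.choose
    have h3 : g * g'⁻¹ ∈ L := by
      change (of (g * g'⁻¹) : HNNExtension G A B φ) ∈ N
      rw [map_mul, map_inv]; exact h2
    have h4 : Λ g = ⟨g * g'⁻¹, h3⟩ * Λ g' := by
      rw [← hΛn]; congr 1; group
    have h5 : Λ (g * h) = ⟨g * g'⁻¹, h3⟩ * Λ (g' * h) := by
      rw [← hΛn]; congr 1; group
    rw [h4, h5]; group
  have hD' : ∀ (h : G) (q : Q), (¬ ∃ g : G, q = (of g : HNNExtension G A B φ)⁻¹ • q0) →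
      D h q = 1 := fun h q hx => dif_neg hx
  have hcoc : ∀ g h q, D (g * h) q = D g q * D h ((of g : HNNExtension G A B φ)⁻¹ • q) := by
    intro g h q
    by_cases hx : ∃ g' : G, q = (of g' : HNNExtension G A B φ)⁻¹ • q0
    · obtain ⟨g', rfl⟩ := hx
      have h1 : (of g : HNNExtension G A B φ)⁻¹ • (of g' : HNNExtension G A B φ)⁻¹ • q0 =
          (of (g' * g) : HNNExtension G A B φ)⁻¹ • q0 := by
        rw [← mul_smul, map_mul, mul_inv_rev]
      rw [h1, hD, hD, hD, mul_assoc g' g h]; group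
    · rw [hD' _ _ hx, hD' _ _ hx, one_mul, hD']
      rintro ⟨g', h1⟩
      apply hx
      refine ⟨g' * g⁻¹, ?_⟩
      rw [inv_smul_eq_iff] at h1
      rw [h1, ← mul_smul, map_mul, map_inv, mul_inv_rev, inv_inv]
  -- the value at the stable letter
  set b0 : HNNExtension G A B φ := of ((φ a0 : B) : G) with hb0
  have hfree' : ∀ (k : ℤ) (q : Q), (MulAction.toPerm (b0⁻¹) ^ k : Equiv.Perm Q) q = q → k = 0 := by
    intro k q hk
    obtain ⟨x, rfl⟩ : ∃ x : HNNExtension G A B φ, q = x • q0 := by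
      obtain ⟨x, rfl⟩ := QuotientGroup.mk_surjective q
      exact ⟨x, by show _ = ((x * 1 : HNNExtension G A B φ) : HNNExtension G A B φ ⧸ N); rw [mul_one]⟩
    have h1 : (MulAction.toPerm (b0⁻¹) ^ k : Equiv.Perm Q) = MulAction.toPerm ((b0⁻¹) ^ k) := by
      have := map_zpow (MulAction.toPermHom (HNNExtension G A B φ) Q) b0⁻¹ k
      exact this.symm
    rw [h1, MulAction.toPerm_apply, ← mul_smul, hq] at hk
    have h2 := hfree (x⁻¹) k (by
      have : x⁻¹ * b0 ^ k * x⁻¹⁻¹ = (b0⁻¹ ^ k * x)⁻¹ * x := by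
        rw [inv_zpow]; group
      rw [this]; exact hk)
    exact h2
  obtain ⟨m, hm⟩ := exists_equivariant (1 : L) (MulAction.toPerm (b0⁻¹)) hfree'
    (fun q => (Equiv.mulLeft (D ((φ a0 : B) : G) q)⁻¹).trans
      (Equiv.mulRight (D (a0 : G) ((t : HNNExtension G A B φ)⁻¹ • q))))
  obtain ⟨C, hC, hCG, -⟩ := exists_cocycle (φ := φ) (Q := Q) (K := L) a0 ha0 D m hcoc (by
    intro q
    have h1 := hm q
    rw [MulAction.toPerm_apply] at h1
    rw [h1]
    simp [mul_assoc])
  have hfix : ∀ n : N, ((n : HNNExtension G A B φ))⁻¹ • q0 = q0 := by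
    intro n
    have := (hq (n : HNNExtension G A B φ)⁻¹ 1).mpr (by simp)
    rwa [one_smul] at this
  refine ⟨MonoidHom.mk' (fun n => C n q0) (by
    intro n n'
    show C (n * n') q0 = _
    rw [hC, hfix]), ?_⟩
  intro g hg
  show C (of g) q0 = _
  rw [hCG]
  have h1 := hD g 1
  rw [map_one, inv_one, one_smul, hΛ1, inv_one, one_mul, one_mul] at h1
  rw [h1]
  have h2 := hΛn g hg 1
  rw [mul_one, hΛ1, mul_one] at h2
  exact h2

end Cocycle

end Pool.Agent.helper444_cyc
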