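import Mathlib
import Pool.Agent.helper444_cyc.Coc

set_option autoImplicit false

/-! A nontrivial homomorphism to the rationals which vanishes on the base group. -/

namespace Pool.Agent.helper444_cyc

open HNNExtension

variable {G : Type} [Group G] {A B : Subgroup G} {φ : A ≃* B}

/-- If `B` has finitely many orbits on the cosets of `N`, then `N` has a nontrivial homomorphism to
the rationals which vanishes on the intersection with the base group. -/
theorem exists_hom (N : Subgroup (HNNExtension G A B φ)) (a0 : A)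
    (ha0 : ∀ c : A, c ∈ Subgroup.zpowers a0)
    (S : Set (HNNExtension G A B φ ⧸ N)) (hSfin : S.Finite)
    (hS : ∀ q : HNNExtension G A B φ ⧸ N, ∃ c : B, ∃ p ∈ S,
      q = (of (c : G) : HNNExtension G A B φ) • p) :
    ∃ l : N →* Multiplicative ℚ, l ≠ 1 ∧
      ∀ (g : G) (hg : (of g : HNNExtension G A B φ) ∈ N), l ⟨of g, hg⟩ = 1 := by
  classical
  let Q := HNNExtension G A B φ ⧸ N
  let q0 : Q := ((1 : HNNExtension G A B φ) : HNNExtension G A B φ ⧸ N)
  have hq : ∀ x y : HNNExtension G A B φ, x • q0 = y • q0 ↔ x⁻¹ * y ∈ N := by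
    intro x y
    show ((x * 1 : HNNExtension G A B φ) : HNNExtension G A B φ ⧸ N) =
      ((y * 1 : HNNExtension G A B φ) : HNNExtension G A B φ ⧸ N) ↔ _
    rw [QuotientGroup.eq, mul_one, mul_one]
  have hqs : ∀ q : Q, ∃ x : HNNExtension G A B φ, q = x⁻¹ • q0 := by
    intro q
    obtain ⟨x, rfl⟩ := QuotientGroup.mk_surjective q
    refine ⟨x⁻¹, ?_⟩
    show _ = ((x⁻¹⁻¹ * 1 : HNNExtension G A B φ) : HNNExtension G A B φ ⧸ N)
    rw [mul_one, inv_inv]
  let WB : Submodule ℚ (Q → ℚ) :=
    { carrier := {f | ∀ (c : B) (q : Q), f ((of (c : G) : HNNExtension G A B φ) • q) = f q}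
      add_mem' := by
        intro f g hf hg c q
        show f _ + g _ = f _ + g _
        rw [hf, hg]
      zero_mem' := by intro c q; rfl
      smul_mem' := by
        intro r f hf c q
        show r • f _ = r • f _
        rw [hf] }
  let WG : Submodule ℚ (Q → ℚ) :=
    { carrier := {f | ∀ (c : G) (q : Q), f ((of c : HNNExtension G A B φ) • q) = f q}
      add_mem' := by
        intro f g hf hg c q
        show f _ + g _ = f _ + g _
        rw [hf, hg]
      zero_mem' := by intro c q; rfl
      smul_mem' := by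
        intro r f hf c q
        show r • f _ = r • f _
        rw [hf] }
  have hWB : ∀ f : Q → ℚ, f ∈ WB ↔ ∀ (c : B) (q : Q),
    f ((of (c : G) : HNNExtension G A B φ) • q) = f q := fun f => Iff.rfl
  have hWG : ∀ f : Q → ℚ, f ∈ WG ↔ ∀ (c : G) (q : Q),
    f ((of c : HNNExtension G A B φ) • q) = f q := fun f => Iff.rfl
  have hle : WG ≤ WB := fun f hf c q => hf c q
  have : Finite S := hSfin
  have hfB : FiniteDimensional ℚ WB := by
    let R : WB →ₗ[ℚ] (S → ℚ) :=
      { toFun := fun f s => f.1 s.1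
        map_add' := fun f g => rfl
        map_smul' := fun r f => rfl }
    apply Module.Finite.of_injective R
    intro f g hfg
    ext q
    obtain ⟨c, p, hp, rfl⟩ := hS q
    rw [f.2 c p, g.2 c p]
    exact congrFun hfg ⟨p, hp⟩
  have hfG : FiniteDimensional ℚ WG := Submodule.finiteDimensional_of_le hle
  -- the coboundary
  let δ : WG →ₗ[ℚ] WB :=
    { toFun := fun F => ⟨fun q => F.1 ((t : HNNExtension G A B φ)⁻¹ • q) - F.1 q, by
        intro c q
        show F.1 _ - F.1 _ = F.1 _ - F.1 _
        rw [F.2 (c : G) q, ← mul_smul, inv_t_mul_of, mul_smul, F.2]⟩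
      map_add' := by
        intro F F'
        ext q
        show (F.1 _ + F'.1 _) - (F.1 _ + F'.1 _) = (F.1 _ - F.1 _) + (F'.1 _ - F'.1 _)
        ring
      map_smul' := by
        intro r F
        ext q
        show (r * F.1 _) - (r * F.1 _) = r * (F.1 _ - F.1 _)
        ring }
  have hδ : ∀ (F : WG) (q : Q), (δ F).1 q = F.1 ((t : HNNExtension G A B φ)⁻¹ • q) - F.1 q :=
    fun F q => rfl
  have hns : ¬ Function.Surjective δ := by
    intro hs
    have h1 : Module.finrank ℚ WB ≤ Module.finrank ℚ WG :=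
      LinearMap.finrank_le_finrank_of_surjective hs
    have h2 : Module.finrank ℚ WG ≤ Module.finrank ℚ WB := Submodule.finrank_mono hle
    have h3 : Function.Injective δ :=
      (LinearMap.injective_iff_surjective_of_finrank_eq_finrank (le_antisymm h2 h1)).mpr hs
    have h4 : δ ⟨fun _ => 1, fun c q => rfl⟩ = δ 0 := by
      ext q
      rw [hδ, hδ]; simp
    have h5 := congrArg (fun F : WG => F.1 q0) (h3 h4)
    simp at h5
  obtain ⟨f, hf⟩ : ∃ f : WB, ¬ ∃ F : WG, δ F = f := by
    by_contra hcon
    push Not at hcon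
    exact hns hcon
  obtain ⟨C, hC, hCG, hCt⟩ := exists_cocycle (φ := φ) (Q := Q) (K := Multiplicative ℚ) a0 ha0
    (fun _ _ => 1) (fun q => Multiplicative.ofAdd (f.1 q)) (by intro g h q; simp) (by
      intro q
      have h1 := f.2 (φ a0)⁻¹ q
      rw [one_mul, mul_one]
      congr 1)
  have hfix : ∀ n : N, ((n : HNNExtension G A B φ))⁻¹ • q0 = q0 := by
    intro n
    have := (hq (n : HNNExtension G A B φ)⁻¹ 1).mpr (by simp)
    rwa [one_smul] at this
  refine ⟨MonoidHom.mk' (fun n => C n q0) (by
    intro n n'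
    show C (n * n') q0 = _
    rw [hC, hfix]), ?_, ?_⟩
  · intro hl
    have hl' : ∀ n : N, C n q0 = 1 := fun n => DFunLike.congr_fun hl n
    -- the function `F`
    choose x hx using hqs
    have hF : ∀ y : HNNExtension G A B φ, C (x (y⁻¹ • q0)) q0 = C y q0 := by
      intro y
      have h1 := hx (y⁻¹ • q0)
      rw [hq, inv_inv] at h1
      have h2 : y = ((⟨_, h1⟩ : N) : HNNExtension G A B φ) * x (y⁻¹ • q0) := by simp
      conv_rhs => rw [h2, hC, hfix, hl', one_mul]
    apply hf
    refine ⟨⟨fun q => (C (x q) q0).toAdd, ?_⟩, ?_⟩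
    · intro c q
      show (C (x _) q0).toAdd = (C (x _) q0).toAdd
      congr 1
      have h1 : (of c : HNNExtension G A B φ) • q = (x q * of c⁻¹)⁻¹ • q0 := by
        rw [mul_inv_rev, mul_smul, ← hx q]; simp
      rw [h1, hF, hC, hCG, mul_one]
    · ext q
      rw [hδ]
      show (C (x _) q0).toAdd - (C (x _) q0).toAdd = _
      have h1 : (t : HNNExtension G A B φ)⁻¹ • q = (x q * t)⁻¹ • q0 := by
        rw [mul_inv_rev, mul_smul, ← hx q]
      rw [h1, hF, hC, hCt, ← hx q, toAdd_mul, toAdd_ofAdd]
      ring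
  · intro g hg
    show C (of g) q0 = _
    rw [hCG]

end Pool.Agent.helper444_cyc
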