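import Mathlib
import Pool.Agent.Helper270.HNN

set_option autoImplicit false

/-! Finitely generated commensurated subgroups of HNN extensions and the Bass-Serre tree. -/

namespace Pool.Agent.helper444_cyc

open HNNExtension Pool.Agent.Helper270.Tree Pool.Agent.Helper270.HNN

open scoped Pointwise

section Comm

variable {H : Type} [Group H]

theorem comm_pow {N : Subgroup H} (hc : Subgroup.Commensurable.commensurator N = ⊤) (y : H) {n : H}
    (hn : n ∈ N) : ∃ p : ℕ, 0 < p ∧ y * n ^ p * y⁻¹ ∈ N := by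
  have h1 : y⁻¹ ∈ Subgroup.Commensurable.commensurator N := by rw [hc]; trivial
  rw [Subgroup.Commensurable.commensurator_mem_iff] at h1
  obtain ⟨p, hp, -, h2⟩ := Subgroup.exists_pow_mem_of_relIndex_ne_zero h1.1 hn
  refine ⟨p, hp, ?_⟩
  have h3 := (Subgroup.mem_inf.mp h2).1
  rw [Subgroup.mem_pointwise_smul_iff_inv_smul_mem] at h3
  simpa [ConjAct.smul_def] using h3

end Comm

section Tree

variable {G : Type} [Group G] {A B : Subgroup G} {φ : A ≃* B}

/-- The vertex `z` is nearer to the source of the edge `x` than to its target. -/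
def near (x : HNNExtension G A B φ) (z : Vert φ) : Prop :=
  (graph φ).dist z (vt x) < (graph φ).dist z (vt (x * t))

theorem near_smul (g x : HNNExtension G A B φ) (z : Vert φ) :
    near (g * x) (g • z) ↔ near x z := by
  unfold near
  rw [show vt (g * x) = g • vt x from rfl, show vt (g * x * t) = g • vt (x * t) from by
    rw [smul_vt, mul_assoc], treeAct.dist_smul, treeAct.dist_smul]

theorem not_near {x : HNNExtension G A B φ} {z : Vert φ} (h : ¬ near x z) :
    (graph φ).dist z (vt x) = (graph φ).dist z (vt (x * t)) + 1 := by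
  unfold near at h
  rcases (isTree (φ := φ)).dist_eq_dist_add_one_of_adj z (adj_vt x) with h1 | h1
  · exact h1
  · omega

theorem near' {x : HNNExtension G A B φ} {z : Vert φ} (h : near x z) :
    (graph φ).dist z (vt (x * t)) = (graph φ).dist z (vt x) + 1 := by
  unfold near at h
  rcases (isTree (φ := φ)).dist_eq_dist_add_one_of_adj z (adj_vt x) with h1 | h1
  · omega
  · exact h1

/-- Two adjacent vertices which separate `u` and `w` are on the geodesic. -/
theorem sep_geod {V : Type} {T : SimpleGraph V} (hT : T.IsTree) {p q u w : V} (h : T.Adj p q)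
    (hu : T.dist u q = T.dist u p + 1) (hw : T.dist w p = T.dist w q + 1) :
    T.dist u p + T.dist p w = T.dist u w ∧ T.dist u q + T.dist q w = T.dist u w := by
  obtain ⟨s, hs0, hsn, hadj, hd, hnb⟩ := exists_geod hT p w
  have hpos : 1 ≤ T.dist p w := by rw [T.dist_comm]; omega
  have h1 : q = s 1 := by
    have h2 := hadj 0 hpos
    rw [hs0] at h2
    have h3 := (hd 1 hpos).2
    refine parent_unique hT (z := w) h.symm h2.symm hw ?_
    rw [T.dist_comm (u := w) (v := s 1)]
    rw [T.dist_comm (u := w) (v := p)]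
    simp only [zero_add] at *
    omega
  have h4 := nb hT s _ hadj hnb u (fun _ => by rw [hs0, ← h1]; exact hu) _ le_rfl
  rw [hsn, hs0] at h4
  constructor
  · omega
  · rw [T.dist_comm (u := q), hu]
    rw [T.dist_comm (u := p)] at h4
    omega

theorem geo_finite {V : Type} {T : SimpleGraph V} (hT : T.IsTree) (u w : V) :
    {p : V | T.dist u p + T.dist p w = T.dist u w}.Finite := by
  apply Set.Finite.of_finite_image (f := fun p => T.dist u p)
  · apply (Set.finite_Iic (T.dist u w)).subset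
    rintro _ ⟨p, hp, rfl⟩
    simp only [Set.mem_ofPred_eq] at hp
    simp only [Set.mem_Iic]
    omega
  · intro p hp p' hp' h
    exact geod_unique hT hp hp' h

theorem pair_eq {x y : HNNExtension G A B φ} (h1 : vt x = vt y) (h2 : vt (x * t) = vt (y * t)) :
    ∃ c : B, x * of (c : G) = y := by
  obtain ⟨g, hg⟩ := vt_eq_iff.mp h1
  obtain ⟨h, hh⟩ := vt_eq_iff.mp h2
  have h3 : g ∈ B := by
    rw [← conj_t (φ := φ)]
    refine ⟨h, ?_⟩
    rw [← hg] at hh
    rw [mul_assoc, mul_assoc, mul_right_inj] at hh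
    rw [mul_assoc, ← hh]; group
  exact ⟨⟨g, h3⟩, hg⟩

/-- A finitely generated subgroup such that every edge separates two points of the orbit of the
base vertex has finitely many orbits of edges. -/
theorem finite_of_sep (N : Subgroup (HNNExtension G A B φ)) (hfg : N.FG)
    (hsep : ∀ x : HNNExtension G A B φ, ∃ y ∈ N, ¬ (near x (vt 1) ↔ near x (y • vt 1))) :
    ∃ S : Set (HNNExtension G A B φ ⧸ N), S.Finite ∧
      ∀ q : HNNExtension G A B φ ⧸ N, ∃ c : B, ∃ p ∈ S,
        q = (of (c : G) : HNNExtension G A B φ) • p := by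
  classical
  obtain ⟨S, hS⟩ := hfg
  let v0 : Vert φ := vt 1
  -- generators separate
  have h1 : ∀ x : HNNExtension G A B φ, ∃ n ∈ N, ∃ s ∈ S,
      ¬ (near x (n • v0) ↔ near x (n • s • v0)) := by
    intro x
    by_contra hcon
    push Not at hcon
    have h2 : ∀ y ∈ Subgroup.closure (S : Set (HNNExtension G A B φ)), y ∈ N ∧ ∀ n ∈ N,
        (near x (n • v0) ↔ near x (n • y • v0)) := by
      intro y hy
      induction hy using Subgroup.closure_induction with
      | mem s hs => exact ⟨by rw [← hS]; exact Subgroup.subset_closure hs,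
          fun n hn => hcon n hn s hs⟩
      | one => exact ⟨N.one_mem, fun n _ => by rw [one_smul]⟩
      | mul y z _ _ hy hz =>
        refine ⟨N.mul_mem hy.1 hz.1, fun n hn => ?_⟩
        rw [hy.2 n hn, ← mul_smul, hz.2 (n * y) (N.mul_mem hn hy.1), mul_smul, mul_smul]
      | inv y _ hy =>
        refine ⟨N.inv_mem hy.1, fun n hn => ?_⟩
        have h3 := hy.2 (n * y⁻¹) (N.mul_mem hn (N.inv_mem hy.1))
        rw [← mul_smul, inv_mul_cancel_right, mul_smul] at h3
        exact h3.symm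
    obtain ⟨y, hy, h3⟩ := hsep x
    rw [← hS] at hy
    have h4 := (h2 y hy).2 1 N.one_mem
    rw [one_smul, one_smul] at h4
    exact h3 h4
  let F : Set (Vert φ × Vert φ) := ⋃ s ∈ S,
    ({p | (graph φ).dist v0 p + (graph φ).dist p (s • v0) = (graph φ).dist v0 (s • v0)} ×ˢ
     {p | (graph φ).dist v0 p + (graph φ).dist p (s • v0) = (graph φ).dist v0 (s • v0)})
  have hF : F.Finite := by
    apply Set.Finite.biUnion (Finset.finite_toSet S)
    intro s _
    exact (geo_finite isTree _ _).prod (geo_finite isTree _ _)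
  have h2 : ∀ x : HNNExtension G A B φ, ∃ n ∈ N, (vt (n * x), vt (n * x * t)) ∈ F := by
    intro x
    obtain ⟨n, hn, s, hs, h3⟩ := h1 x
    refine ⟨n⁻¹, N.inv_mem hn, ?_⟩
    simp only [F, Set.mem_iUnion]
    refine ⟨s, hs, ?_⟩
    have h4 : ¬ (near (n⁻¹ * x) v0 ↔ near (n⁻¹ * x) (s • v0)) := by
      rw [← near_smul n, ← near_smul n (n⁻¹ * x) (s • v0), mul_inv_cancel_left]
      exact h3
    by_cases h5 : near (n⁻¹ * x) v0
    · have h6 : ¬ near (n⁻¹ * x) (s • v0) := fun h => h4 ⟨fun _ => h, fun _ => h5⟩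
      exact sep_geod isTree (adj_vt _) (near' h5) (not_near h6)
    · have h6 : near (n⁻¹ * x) (s • v0) := by
        by_contra h; exact h4 ⟨fun h' => absurd h' h5, fun h' => absurd h' h⟩
      have h7 := sep_geod isTree (adj_vt (n⁻¹ * x)) (near' h6) (not_near h5)
      rw [(graph φ).dist_comm (u := s • v0) (v := v0),
        (graph φ).dist_comm (u := s • v0), (graph φ).dist_comm (v := v0), 
        (graph φ).dist_comm (u := s • v0), (graph φ).dist_comm (u := vt (n⁻¹ * x * t)) (v := v0)] at h7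
      exact ⟨by simp only [Set.mem_ofPred_eq]; omega, by simp only [Set.mem_ofPred_eq]; omega⟩
  let q0 : HNNExtension G A B φ ⧸ N := ((1 : HNNExtension G A B φ) : HNNExtension G A B φ ⧸ N)
  let ch : Vert φ × Vert φ → HNNExtension G A B φ := fun p =>
    if h : ∃ x : HNNExtension G A B φ, (vt x, vt (x * t)) = p then h.choose else 1
  have hch : ∀ x : HNNExtension G A B φ, ∃ c : B, ch (vt x, vt (x * t)) * of (c : G) = x := by
    intro x
    have h : ∃ y : HNNExtension G A B φ, (vt y, vt (y * t)) = (vt x, vt (x * t)) := ⟨x, rfl⟩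
    have h3 : ch (vt x, vt (x * t)) = h.choose := dif_pos h
    rw [h3]
    have h4 := h.choose_spec
    rw [Prod.ext_iff] at h4
    exact pair_eq h4.1 h4.2
  refine ⟨(fun p => (((ch p)⁻¹ : HNNExtension G A B φ) : HNNExtension G A B φ ⧸ N)) '' F,
    hF.image _, ?_⟩
  intro q
  obtain ⟨x, rfl⟩ := QuotientGroup.mk_surjective q
  obtain ⟨n, hn, h3⟩ := h2 x⁻¹
  obtain ⟨c, hc⟩ := hch (n * x⁻¹)
  refine ⟨c⁻¹, _, ⟨_, h3, rfl⟩, ?_⟩
  show _ = (((of ((c⁻¹ : B) : G)) * (ch _)⁻¹ : HNNExtension G A B φ) : HNNExtension G A B φ ⧸ N)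
  rw [QuotientGroup.eq]
  have h4 : (of ((c⁻¹ : B) : G)) * (ch (vt (n * x⁻¹), vt (n * x⁻¹ * t)))⁻¹ = x * n⁻¹ := by
    rw [show x * n⁻¹ = (n * x⁻¹)⁻¹ from by group]
    conv_rhs => rw [← hc]
    simp
  rw [h4, inv_mul_cancel_left]
  exact N.inv_mem hn

theorem sep_of_hyperbolic (N : Subgroup (HNNExtension G A B φ))
    (hc : Subgroup.Commensurable.commensurator N = ⊤) {n : HNNExtension G A B φ} (hn : n ∈ N)
    (hyp : ∀ v : Vert φ, n • v ≠ v) (x : HNNExtension G A B φ) :
    ∃ y ∈ N, ¬ (near x (vt 1) ↔ near x (y • vt 1)) := by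
  obtain ⟨L, l, hax⟩ := (treeAct (φ := φ)).exists_axis hyp
  -- the element `y` moves the first edge of the axis to the edge `x`
  obtain ⟨y, hy⟩ : ∃ y : HNNExtension G A B φ, (y • L 0 = vt x ∧ y • L 1 = vt (x * t)) ∨
      (y • L 1 = vt x ∧ y • L 0 = vt (x * t)) := by
    obtain ⟨g, ⟨h1, h2⟩ | ⟨h1, h2⟩⟩ := adj_iff.mp (hax.line.adj 0)
    · refine ⟨x * g⁻¹, Or.inl ?_⟩
      rw [zero_add] at h2
      rw [h1, h2, smul_vt, smul_vt]
      constructor
      · rw [inv_mul_cancel_right]
      · congr 1; group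
    · refine ⟨x * g⁻¹, Or.inr ?_⟩
      rw [zero_add] at h1
      rw [h1, h2, smul_vt, smul_vt]
      constructor
      · rw [inv_mul_cancel_right]
      · congr 1; group
  obtain ⟨p, hp, hpN⟩ := comm_pow hc y hn
  obtain ⟨i0, hi0⟩ := hax.line.exists_proj (isTree (φ := φ)) (y⁻¹ • vt 1)
  have hpow : ∀ k : ℤ, (y * n ^ p * y⁻¹) ^ k = y * n ^ ((p : ℤ) * k) * y⁻¹ := by
    intro k
    rw [conj_zpow, zpow_mul, zpow_natCast]
  have hdist : ∀ (k j : ℤ), (graph φ).dist ((y * n ^ p * y⁻¹) ^ k • vt 1) (y • L j) =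
      (graph φ).dist (y⁻¹ • vt 1) (L i0) + (j - (p * k) * l - i0).natAbs := by
    intro k j
    rw [hpow, mul_smul, mul_smul, treeAct.dist_smul, treeAct.dist_smul_left, ← zpow_neg,
      hax.smul_zpow, hi0]
    congr 2; ring
  have hlpos := hax.pos
  -- the two sides
  have hk1 : ∃ k : ℤ, near x ((y * n ^ p * y⁻¹) ^ k • vt 1) := by
    rcases hy with ⟨h0, h1⟩ | ⟨h1, h0⟩
    · refine ⟨-((i0.natAbs : ℤ) + 1), ?_⟩
      unfold near
      rw [← h0, ← h1, hdist, hdist]
      have h2 : (1 : ℤ) ≤ (p : ℤ) * l := by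
        have : 0 < (p : ℤ) * l := by positivity
        omega
      have h3 : (i0.natAbs : ℤ) + 1 ≤ ((p : ℤ) * l) * ((i0.natAbs : ℤ) + 1) := by
        nlinarith
      have h4 : (p : ℤ) * -((i0.natAbs : ℤ) + 1) * l = - (((p : ℤ) * l) * ((i0.natAbs : ℤ) + 1)) := by
        ring
      rw [h4]
      omega
    · refine ⟨((i0.natAbs : ℤ) + 1), ?_⟩
      unfold near
      rw [← h0, ← h1, hdist, hdist]
      have h2 : (1 : ℤ) ≤ (p : ℤ) * l := by
        have : 0 < (p : ℤ) * l := by positivity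
        omega
      have h3 : (i0.natAbs : ℤ) + 1 ≤ ((p : ℤ) * l) * ((i0.natAbs : ℤ) + 1) := by
        nlinarith
      have h4 : (p : ℤ) * ((i0.natAbs : ℤ) + 1) * l = (((p : ℤ) * l) * ((i0.natAbs : ℤ) + 1)) := by
        ring
      rw [h4]
      omega
  have hk2 : ∃ k : ℤ, ¬ near x ((y * n ^ p * y⁻¹) ^ k • vt 1) := by
    rcases hy with ⟨h0, h1⟩ | ⟨h1, h0⟩
    · refine ⟨((i0.natAbs : ℤ) + 1), ?_⟩
      unfold near
      rw [← h0, ← h1, hdist, hdist]
      have h2 : (1 : ℤ) ≤ (p : ℤ) * l := by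
        have : 0 < (p : ℤ) * l := by positivity
        omega
      have h3 : (i0.natAbs : ℤ) + 1 ≤ ((p : ℤ) * l) * ((i0.natAbs : ℤ) + 1) := by
        nlinarith
      have h4 : (p : ℤ) * ((i0.natAbs : ℤ) + 1) * l = (((p : ℤ) * l) * ((i0.natAbs : ℤ) + 1)) := by
        ring
      rw [h4]
      omega
    · refine ⟨-((i0.natAbs : ℤ) + 1), ?_⟩
      unfold near
      rw [← h0, ← h1, hdist, hdist]
      have h2 : (1 : ℤ) ≤ (p : ℤ) * l := by
        have : 0 < (p : ℤ) * l := by positivity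
        omega
      have h3 : (i0.natAbs : ℤ) + 1 ≤ ((p : ℤ) * l) * ((i0.natAbs : ℤ) + 1) := by
        nlinarith
      have h4 : (p : ℤ) * -((i0.natAbs : ℤ) + 1) * l = - (((p : ℤ) * l) * ((i0.natAbs : ℤ) + 1)) := by
        ring
      rw [h4]
      omega
  obtain ⟨k1, hk1⟩ := hk1
  obtain ⟨k2, hk2⟩ := hk2
  by_cases h : near x (vt 1)
  · exact ⟨_, N.zpow_mem hpN k2, fun h' => hk2 (h'.mp h)⟩
  · exact ⟨_, N.zpow_mem hpN k1, fun h' => h (h'.mpr hk1)⟩

/-- A finitely generated subgroup whose elements fix vertices fixes a vertex. -/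
theorem fix_of_elliptic (N : Subgroup (HNNExtension G A B φ)) (hfg : N.FG)
    (hell : ∀ n ∈ N, ∃ v : Vert φ, n • v = v) : ∃ x : HNNExtension G A B φ,
      ∀ n ∈ N, ∃ g : G, n = x * of g * x⁻¹ := by
  have hN : TreeAct N (graph φ) :=
    { isTree := isTree
      adj := fun g v w h => treeAct.adj (g : HNNExtension G A B φ) v w h
      noInv := fun g v w h => treeAct.noInv (g : HNNExtension G A B φ) v w h }
  by_cases h : ∃ v : Vert φ, ∀ n : N, n • v = v
  · obtain ⟨v, hv⟩ := h
    obtain ⟨x, rfl⟩ := exists_vt v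
    refine ⟨x, fun n hn => ?_⟩
    have h1 : n • vt x = vt x := hv ⟨n, hn⟩
    rw [smul_vt, eq_comm, vt_eq_iff] at h1
    obtain ⟨g, hg⟩ := h1
    exact ⟨g, by rw [hg]; group⟩
  · exfalso
    push Not at h
    obtain ⟨g, hg⟩ := hN.exists_hyperbolic ((Group.fg_iff_subgroup_fg N).mpr hfg) h
    obtain ⟨v, hv⟩ := hell g g.2
    exact hg v hv

end Tree

end Pool.Agent.helper444_cyc
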