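import Mathlib
import Pool.Agent.helper444_cyc.Tree

set_option autoImplicit false

/-! Generalities on commensurated subgroups and on homomorphisms to the rationals. -/

namespace Pool.Agent.helper444_cyc

open scoped Pointwise

section Gen

variable {H K : Type} [Group H] [Group K]

/-- An infinite, finitely generated, commensurated subgroup of infinite index. -/
structure Nice (N : Subgroup H) : Prop where
  fg : N.FG
  inf : Infinite N
  idx : N.index = 0
  comm : Subgroup.Commensurable.commensurator N = ⊤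

theorem comm_iff {N : Subgroup H} : Subgroup.Commensurable.commensurator N = ⊤ ↔
    ∀ g : H, (ConjAct.toConjAct g • N).relIndex N ≠ 0 := by
  constructor
  · intro h g
    have h1 : g ∈ Subgroup.Commensurable.commensurator N := by rw [h]; trivial
    exact h1.1
  · intro h
    rw [eq_top_iff]
    rintro g -
    rw [Subgroup.Commensurable.commensurator_mem_iff]
    refine ⟨h g, ?_⟩
    have h1 := h g⁻¹
    have h2 := (Nat.card_congr
      (Subgroup.quotConjEquiv (ConjAct.toConjAct g⁻¹ • N) N (ConjAct.toConjAct g)))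
    rw [show ConjAct.toConjAct g • ConjAct.toConjAct g⁻¹ • N = N from by
      rw [← mul_smul, ← ConjAct.toConjAct_mul, mul_inv_cancel, ConjAct.toConjAct_one,
        one_smul]] at h2
    intro h3
    apply h1
    unfold Subgroup.relIndex Subgroup.index at h3 ⊢
    rw [h2]; exact h3

theorem conj_comap (f : H →* K) (N : Subgroup K) (g : H) :
    ConjAct.toConjAct g • N.comap f = (ConjAct.toConjAct (f g) • N).comap f := by
  ext x
  rw [Subgroup.mem_pointwise_smul_iff_inv_smul_mem, Subgroup.mem_comap, Subgroup.mem_comap,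
    Subgroup.mem_pointwise_smul_iff_inv_smul_mem]
  simp [ConjAct.smul_def]

theorem conj_map (f : H →* K) (N : Subgroup H) (g : H) :
    (ConjAct.toConjAct g • N).map f = ConjAct.toConjAct (f g) • N.map f := by
  ext x
  simp only [Subgroup.mem_map, Subgroup.mem_smul_pointwise_iff_exists]
  constructor
  · rintro ⟨_, ⟨y, hy, rfl⟩, rfl⟩
    exact ⟨f y, ⟨y, hy, rfl⟩, by simp [ConjAct.smul_def]⟩
  · rintro ⟨_, ⟨y, hy, rfl⟩, rfl⟩
    exact ⟨ConjAct.toConjAct g • y, ⟨y, hy, rfl⟩, by simp [ConjAct.smul_def]⟩

theorem comm_comap (f : H →* K) {N : Subgroup K}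
    (h : Subgroup.Commensurable.commensurator N = ⊤) :
    Subgroup.Commensurable.commensurator (N.comap f) = ⊤ := by
  rw [comm_iff] at h ⊢
  intro g
  rw [conj_comap, Subgroup.relIndex_comap]
  intro h1
  exact h (f g) (Subgroup.relIndex_eq_zero_of_le_right (Subgroup.map_comap_le f N) h1)

theorem comm_map_equiv (e : H ≃* K) {N : Subgroup H}
    (h : Subgroup.Commensurable.commensurator N = ⊤) :
    Subgroup.Commensurable.commensurator (N.map (e : H →* K)) = ⊤ := by
  rw [comm_iff] at h ⊢
  intro g
  obtain ⟨g, rfl⟩ := e.surjective g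
  have h1 := conj_map (e : H →* K) N g
  rw [MonoidHom.coe_coe] at h1
  rw [← h1, Subgroup.relIndex_map_map_of_injective _ _ e.injective]
  exact h g

theorem Nice.map (e : H ≃* K) {N : Subgroup H} (h : Nice N) : Nice (N.map (e : H →* K)) where
  fg := by
    have h1 : Group.FG N := (Group.fg_iff_subgroup_fg N).mpr h.fg
    have h2 : Group.FG (N.map (e : H →* K)) :=
      Group.fg_of_surjective (f := (e.subgroupMap N).toMonoidHom) (e.subgroupMap N).surjective
    exact (Group.fg_iff_subgroup_fg _).mp h2
  inf := by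
    have := h.inf
    exact (e.subgroupMap N).toEquiv.infinite_iff.mp this
  idx := by rw [Subgroup.index_map_equiv]; exact h.idx
  comm := comm_map_equiv e h.comm

/-- The dimension of the space of homomorphisms to the rationals. -/
noncomputable def b1 (H : Type) [Group H] : ℕ := Module.finrank ℚ (Additive H →+ ℚ)

theorem finite_hom [hH : Group.FG H] : Module.Finite ℚ (Additive H →+ ℚ) := by
  obtain ⟨S, hS⟩ := Group.fg_def.mp hH
  let R : (Additive H →+ ℚ) →ₗ[ℚ] (S → ℚ) :=
    { toFun := fun f s => f (Additive.ofMul s.1)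
      map_add' := fun f g => rfl
      map_smul' := fun r f => rfl }
  apply Module.Finite.of_injective R
  intro f g hfg
  ext x
  have h1 : AddMonoidHom.toMultiplicativeRight f = AddMonoidHom.toMultiplicativeRight g := by
    apply MonoidHom.eq_of_eqOn_dense hS
    intro s hs
    exact congrFun hfg ⟨s, hs⟩
  exact congrArg Multiplicative.toAdd (DFunLike.congr_fun h1 x)

/-- Pull-back of homomorphisms. -/
def pull (f : H →* K) : (Additive K →+ ℚ) →ₗ[ℚ] (Additive H →+ ℚ) where
  toFun c := c.comp (MonoidHom.toAdditive f)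
  map_add' _ _ := rfl
  map_smul' _ _ := rfl

theorem pull_apply (f : H →* K) (c : Additive K →+ ℚ) (x : H) :
    pull f c (Additive.ofMul x) = c (Additive.ofMul (f x)) := rfl

theorem b1_congr (e : H ≃* K) : b1 H = b1 K := by
  unfold b1
  apply LinearEquiv.finrank_eq
  refine LinearEquiv.ofLinearMap (pull (e.symm : K →* H)) (pull (e : H →* K)) ?_ ?_
  · ext c x
    change c (Additive.ofMul (e (e.symm x))) = _
    rw [MulEquiv.apply_symm_apply]; rfl
  · ext c x
    change c (Additive.ofMul (e.symm (e x))) = _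
    rw [MulEquiv.symm_apply_apply]; rfl

/-- A retract with a complementary homomorphism has a smaller first Betti number. -/
theorem b1_lt [Group.FG H] (r : H →* K) (s : K →* H) (hrs : ∀ x, r (s x) = x)
    (l : H →* Multiplicative ℚ) (hl : l ≠ 1) (hls : ∀ x, l (s x) = 1) : b1 K < b1 H := by
  have hfin := finite_hom (H := H)
  have h1 : Function.Surjective (pull s) := by
    intro c
    refine ⟨pull r c, ?_⟩
    ext x
    change c (Additive.ofMul (r (s x))) = _
    rw [hrs]; rfl
  have h2 := LinearMap.finrank_range_add_finrank_ker (pull s)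
  rw [LinearMap.range_eq_top.mpr h1, finrank_top] at h2
  have h3 : 0 < Module.finrank ℚ (LinearMap.ker (pull s)) := by
    have : Nontrivial (LinearMap.ker (pull s)) := by
      rw [Submodule.nontrivial_iff_ne_bot, Submodule.ne_bot_iff]
      refine ⟨MonoidHom.toAdditiveLeft l, ?_, ?_⟩
      · rw [LinearMap.mem_ker]
        ext x
        exact congrArg Multiplicative.toAdd (hls x)
      · intro h0
        apply hl
        ext x
        exact DFunLike.congr_fun h0 (Additive.ofMul x)
    exact Module.finrank_pos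
  unfold b1
  omega

theorem zpowers_pow_relIndex (b : H) {k : ℤ} (hk : k ≠ 0) :
    (Subgroup.zpowers (b ^ k)).relIndex (Subgroup.zpowers b) ≠ 0 := by
  have h1 : Finite (Subgroup.zpowers b ⧸ (Subgroup.zpowers (b ^ k)).subgroupOf
      (Subgroup.zpowers b)) := by
    let f : Fin k.natAbs → Subgroup.zpowers b ⧸ (Subgroup.zpowers (b ^ k)).subgroupOf
      (Subgroup.zpowers b) := fun i => ((⟨b, Subgroup.mem_zpowers b⟩ ^ (i : ℕ) :
        Subgroup.zpowers b) : _ ⧸ _)
    apply Finite.of_surjective f
    intro q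
    obtain ⟨⟨x, hx⟩, rfl⟩ := QuotientGroup.mk_surjective q
    obtain ⟨i, rfl⟩ := Subgroup.mem_zpowers_iff.mp hx
    have h2 := Int.emod_nonneg i hk
    have h3 := Int.emod_lt_abs i hk
    have h4 : (k.natAbs : ℤ) = |k| := Int.natCast_natAbs k
    refine ⟨⟨(i % k).toNat, by omega⟩, ?_⟩
    simp only [f]
    rw [QuotientGroup.eq, Subgroup.mem_subgroupOf]
    push_cast
    rw [← zpow_natCast, Int.toNat_of_nonneg h2, ← zpow_neg, ← zpow_add]
    rw [Subgroup.mem_zpowers_iff]
    refine ⟨i / k, ?_⟩
    rw [← zpow_mul]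
    congr 1
    have := Int.emod_add_mul_ediv i k
    linarith
  exact Subgroup.index_ne_zero_of_finite

theorem inf_zpowers {N : Subgroup H} (hN : Infinite N) {b : H}
    (hb : (Subgroup.zpowers b).relIndex N ≠ 0) : ∃ k : ℤ, k ≠ 0 ∧ b ^ k ∈ N ∧ b ^ k ≠ 1 := by
  by_contra hcon
  push Not at hcon
  apply hb
  have h1 : (Subgroup.zpowers b) ⊓ N = ⊥ := by
    rw [eq_bot_iff]
    rintro x ⟨hx, hxN⟩
    obtain ⟨k, rfl⟩ := Subgroup.mem_zpowers_iff.mp hx
    by_cases hk : k = 0
    · rw [hk]; simp
    · rw [Subgroup.mem_bot]; exact hcon k hk hxN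
  rw [← Subgroup.inf_relIndex_right, h1, Subgroup.relIndex_bot_left]
  exact Nat.card_eq_zero_of_infinite

/-- In a group with a cyclic subgroup of finite index, infinite subgroups have finite index. -/
theorem index_of_vc {b : H} (hb : (Subgroup.zpowers b).index ≠ 0) {N : Subgroup H}
    (hN : Infinite N) : N.index ≠ 0 := by
  have h1 : (Subgroup.zpowers b).relIndex N ≠ 0 := by
    intro h; exact hb (Subgroup.index_eq_zero_of_relIndex_eq_zero h)
  obtain ⟨k, hk, hkN, -⟩ := inf_zpowers hN h1
  have h2 := zpowers_pow_relIndex b hk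
  have h3 : (Subgroup.zpowers (b ^ k)).relIndex ⊤ ≠ 0 :=
    Subgroup.relIndex_ne_zero_trans h2 (by rwa [Subgroup.relIndex_top_right])
  rw [Subgroup.relIndex_top_right] at h3
  have h4 : Subgroup.zpowers (b ^ k) ≤ N := by rwa [Subgroup.zpowers_le]
  intro h5
  have h6 := Subgroup.relIndex_mul_index h4
  rw [h5, mul_zero] at h6
  exact h3 h6.symm

end Gen

end Pool.Agent.helper444_cyc
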