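import Mathlib
import Pool.Agent.helper444_cyc.Gen
import Pool.Agent.helper444_cyc.Beta

set_option autoImplicit false

/-! The two descent steps. -/

namespace Pool.Agent.helper444_cyc

open HNNExtension Pool.Agent.Helper270.Tree Pool.Agent.Helper270.HNN

open scoped Pointwise

variable {G : Type} [Group G] {A B : Subgroup G} {φ : A ≃* B}

/-- The generator of the second associated subgroup. -/
abbrev bb (φ : A ≃* B) (a0 : A) : G := ((φ a0 : B) : G)

theorem B_eq (a0 : A) (ha0 : ∀ c : A, c ∈ Subgroup.zpowers a0) :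
    B = Subgroup.zpowers (bb φ a0) := by
  ext x
  rw [Subgroup.mem_zpowers_iff]
  constructor
  · intro hx
    obtain ⟨k, hk⟩ := Subgroup.mem_zpowers_iff.mp (ha0 (φ.symm ⟨x, hx⟩))
    refine ⟨k, ?_⟩
    have h1 := congrArg (fun c : A => ((φ c : B) : G)) hk
    simp only [map_zpow, MulEquiv.apply_symm_apply, Subgroup.coe_zpow] at h1
    exact h1
  · rintro ⟨k, rfl⟩
    exact B.zpow_mem (φ a0).2 k

theorem finite_union (N : Subgroup (HNNExtension G A B φ)) (b0 : HNNExtension G A B φ)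
    (S : Set (HNNExtension G A B φ ⧸ N)) (hSfin : S.Finite)
    (hS : ∀ q : HNNExtension G A B φ ⧸ N, ∃ c : ℤ, ∃ p ∈ S, q = b0 ^ c • p)
    (hper : ∀ q : HNNExtension G A B φ ⧸ N, ∃ j : ℤ, j ≠ 0 ∧ b0 ^ j • q = q) : N.index ≠ 0 := by
  choose j hj hjq using hper
  have h1 : (⋃ p ∈ S, (fun i : ℤ => b0 ^ i • p) '' (Set.Icc 0 |j p|)) = Set.univ := by
    rw [Set.eq_univ_iff_forall]
    intro q
    obtain ⟨c, p, hp, rfl⟩ := hS q
    simp only [Set.mem_iUnion]
    refine ⟨p, hp, c % (j p), ⟨Int.emod_nonneg _ (hj p), (Int.emod_lt_abs _ (hj p)).le⟩, ?_⟩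
    have h2 : ∀ m : ℤ, (b0 ^ (j p)) ^ m • p = p := by
      intro m
      have h3 : b0 ^ (j p) ∈ MulAction.stabilizer (HNNExtension G A B φ) p := hjq p
      exact Subgroup.zpow_mem _ h3 m
    conv_rhs => rw [← Int.emod_add_mul_ediv c (j p), zpow_add, mul_smul, zpow_mul, h2]
  have h2 : Finite (HNNExtension G A B φ ⧸ N) := by
    rw [← Set.finite_univ_iff, ← h1]
    apply hSfin.biUnion
    intro p _
    exact (Set.finite_Icc _ _).image _
  exact Subgroup.index_ne_zero_of_finite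

/-- The descent for a subgroup containing a hyperbolic element. -/
theorem caseB (a0 : A) (ha0 : ∀ c : A, c ∈ Subgroup.zpowers a0)
    (N : Subgroup (HNNExtension G A B φ)) (hN : Nice N) {n : HNNExtension G A B φ} (hn : n ∈ N)
    (hyp : ∀ v : Vert φ, n • v ≠ v) : B.index ≠ 0 ∨
      (Nice (N.comap (of : G →* HNNExtension G A B φ)) ∧
        b1 (N.comap (of : G →* HNNExtension G A B φ)) < b1 N) := by
  classical
  obtain ⟨S, hSfin, hS⟩ := finite_of_sep N hN.fg (sep_of_hyperbolic N hN.comm hn hyp)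
  have hB := B_eq (φ := φ) a0 ha0
  have hfree : ∀ (x : HNNExtension G A B φ) (k : ℤ),
      x * (of (bb φ a0)) ^ k * x⁻¹ ∈ N → k = 0 := by
    intro x k hk
    by_contra hk0
    apply finite_union N (of (bb φ a0)) S hSfin ?_ ?_ hN.idx
    · intro q
      obtain ⟨c, p, hp, h1⟩ := hS q
      have h2 := (SetLike.ext_iff.mp hB (c : G)).mp c.2
      obtain ⟨i, hi⟩ := Subgroup.mem_zpowers_iff.mp h2
      exact ⟨i, p, hp, by rw [h1, ← map_zpow, hi]⟩
    · intro q
      obtain ⟨z, rfl⟩ := QuotientGroup.mk_surjective q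
      obtain ⟨p, hp, h1⟩ := comm_pow hN.comm (z⁻¹ * x⁻¹) hk
      refine ⟨k * p, mul_ne_zero hk0 (by exact_mod_cast hp.ne'), ?_⟩
      show ((of (bb φ a0) ^ (k * (p : ℤ)) * z : HNNExtension G A B φ) :
        HNNExtension G A B φ ⧸ N) = _
      rw [eq_comm, QuotientGroup.eq]
      have h2 : z⁻¹ * x⁻¹ * (x * of (bb φ a0) ^ k * x⁻¹) ^ p * (z⁻¹ * x⁻¹)⁻¹ =
          z⁻¹ * (of (bb φ a0) ^ (k * (p : ℤ)) * z) := by
        rw [conj_pow, zpow_mul, zpow_natCast]; group
      rw [h2] at h1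
      exact h1
  obtain ⟨r, hr⟩ := exists_retraction N a0 ha0 hfree
  obtain ⟨l, hl, hls⟩ := exists_hom N a0 ha0 S hSfin hS
  have hNfg : Group.FG N := (Group.fg_iff_subgroup_fg N).mpr hN.fg
  let s : N.comap (of : G →* HNNExtension G A B φ) →* N :=
    { toFun := fun g => ⟨of (g : G), g.2⟩
      map_one' := by ext; simp
      map_mul' := by intro x y; ext; simp }
  have hrs : ∀ x, r (s x) = x := fun x => hr x.1 x.2
  by_cases hfin : Infinite (N.comap (of : G →* HNNExtension G A B φ))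
  · right
    refine ⟨⟨?_, hfin, ?_, comm_comap _ hN.comm⟩, b1_lt r s hrs l hl (fun x => hls x.1 x.2)⟩
    · exact (Group.fg_iff_subgroup_fg _).mp (Group.fg_of_surjective (f := r)
        (fun x => ⟨s x, hrs x⟩))
    · by_contra h0
      obtain ⟨p, hp, -, h1⟩ := Subgroup.exists_pow_mem_of_index_ne_zero h0 (bb φ a0)
      have h2 := hfree 1 p (by
        rw [one_mul, inv_one, mul_one, zpow_natCast, ← map_pow]; exact h1)
      omega
  · left
    rw [not_infinite_iff_finite] at hfin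
    let q0 : HNNExtension G A B φ ⧸ N := ((1 : HNNExtension G A B φ) : HNNExtension G A B φ ⧸ N)
    -- representatives
    let P : (HNNExtension G A B φ ⧸ N) → Prop := fun p => ∃ g : G, ∃ c : B,
      ((of g⁻¹ : HNNExtension G A B φ) : HNNExtension G A B φ ⧸ N) =
        (of (c : G) : HNNExtension G A B φ) • p
    let gp : (HNNExtension G A B φ ⧸ N) → G := fun p => if h : P p then h.choose else 1
    have hgp : ∀ p, P p → ∃ c : B, ((of (gp p)⁻¹ : HNNExtension G A B φ) :
        HNNExtension G A B φ ⧸ N) = (of (c : G) : HNNExtension G A B φ) • p := by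
      intro p hp
      have h1 : gp p = hp.choose := dif_pos hp
      rw [h1]
      exact hp.choose_spec
    have hfinS : Finite S := hSfin
    have h1 : Finite (G ⧸ B) := by
      let f : (N.comap (of : G →* HNNExtension G A B φ)) × S → G ⧸ B :=
        fun x => (((x.1 : G) * gp x.2.1 : G) : G ⧸ B)
      apply Finite.of_surjective f
      intro q
      obtain ⟨g, rfl⟩ := QuotientGroup.mk_surjective q
      obtain ⟨c, p, hp, h2⟩ := hS ((of g⁻¹ : HNNExtension G A B φ) : HNNExtension G A B φ ⧸ N)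
      obtain ⟨c', h3⟩ := hgp p ⟨g, c, h2⟩
      have h4 : ((of g⁻¹ : HNNExtension G A B φ) : HNNExtension G A B φ ⧸ N) =
          ((of ((c : G) * (c' : G)⁻¹ * (gp p)⁻¹) : HNNExtension G A B φ) :
            HNNExtension G A B φ ⧸ N) := by
        rw [h2, map_mul, map_mul, map_inv of (c' : G)]
        show _ = ((of (c : G)) * (of (c' : G))⁻¹ : HNNExtension G A B φ) •
          ((of (gp p)⁻¹ : HNNExtension G A B φ) : HNNExtension G A B φ ⧸ N)
        rw [h3, mul_smul, inv_smul_smul]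
      rw [QuotientGroup.eq, ← map_inv, ← map_mul] at h4
      refine ⟨(⟨_, h4⟩, ⟨p, hp⟩), ?_⟩
      show (((g⁻¹)⁻¹ * ((c : G) * (c' : G)⁻¹ * (gp p)⁻¹) * gp p : G) : G ⧸ B) = _
      rw [QuotientGroup.eq]
      have h5 : ((g⁻¹)⁻¹ * ((c : G) * (c' : G)⁻¹ * (gp p)⁻¹) * gp p)⁻¹ * g =
          (((c' * c⁻¹ : B)) : G) := by
        push_cast; group
      rw [h5]
      exact (c' * c⁻¹ : B).2
    exact Subgroup.index_ne_zero_of_finite

end Pool.Agent.helper444_cyc
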