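import Mathlib
import Pool.Agent.helper444_cyc.Tree

set_option autoImplicit false

/-! Edges which separate the orbit of a vertex. -/

namespace Pool.Agent.helper444_cyc

open HNNExtension Pool.Agent.Helper270.Tree Pool.Agent.Helper270.HNN

open scoped Pointwise

section General

variable {V : Type} {T : SimpleGraph V}

/-- Half-trees are convex. -/
theorem side_convex (hT : T.IsTree) {p q z1 z2 w : V} (h : T.Adj p q)
    (h1 : T.dist z1 q = T.dist z1 p + 1) (h2 : T.dist z2 q = T.dist z2 p + 1)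
    (hw : T.dist z1 w + T.dist w z2 ≤ T.dist z1 z2) : T.dist w q = T.dist w p + 1 := by
  rcases hT.dist_eq_dist_add_one_of_adj w h with h3 | h3
  · exfalso
    have h4 := (sep_geod hT h h1 h3).1
    have h5 := (sep_geod hT h h2 h3).1
    have h6 : T.dist z1 z2 ≤ T.dist z1 p + T.dist p z2 := hT.connected.dist_triangle
    have h7 : T.dist p w = T.dist w p := T.dist_comm
    have h8 : T.dist z2 w = T.dist w z2 := T.dist_comm
    have h9 : T.dist p z2 = T.dist z2 p := T.dist_comm
    omega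
  · exact h3

variable {H : Type} [Group H] [MulAction H V]

theorem IsAxis.zpow {g : H} {L : ℤ → V} {l : ℕ} (hax : IsAxis T g L l) {k : ℕ}
    (hk : 0 < k) : IsAxis T (g ^ k) L (k * l) where
  line := hax.line
  pos := Nat.mul_pos hk hax.pos
  smul i := by
    have := hax.smul_zpow k i
    rw [zpow_natCast] at this
    rw [this]; push_cast; rfl

theorem IsAxis.conj (h : TreeAct H T) {g : H} {L : ℤ → V} {l : ℕ} (hax : IsAxis T g L l) (y : H) :
    IsAxis T (y * g * y⁻¹) (fun i => y • L i) l where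
  line := ⟨fun i => h.adj y _ _ (hax.line.adj i), fun i hi => hax.line.nb i (by
    exact smul_left_cancel y hi)⟩
  pos := hax.pos
  smul i := by
    show (y * g * y⁻¹) • y • L i = y • L (i + l)
    rw [← hax.smul, ← mul_smul, ← mul_smul]; congr 1; group

/-- A vertex on the axis is between the translates of any vertex. -/
theorem axis_between (h : TreeAct H T) {g : H} {L : ℤ → V} {l : ℕ} (hax : IsAxis T g L l) (v : V)
    (i1 : ℤ) : ∃ k : ℤ, T.dist (g ^ (-k) • v) (L i1) + T.dist (L i1) (g ^ k • v) ≤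
      T.dist (g ^ (-k) • v) (g ^ k • v) := by
  obtain ⟨i0, hi0⟩ := hax.line.exists_proj h.isTree v
  have hd : ∀ k j : ℤ, T.dist (g ^ k • v) (L j) = T.dist v (L i0) + (j - k * l - i0).natAbs := by
    intro k j
    rw [h.dist_smul_left, ← zpow_neg, hax.smul_zpow, hi0]
    congr 2; ring
  let k : ℕ := (i1 - i0).natAbs + 1
  have hk : 0 < k := by omega
  have hkl : (k : ℤ) ≤ k * l := by
    have := hax.pos
    nlinarith
  refine ⟨k, ?_⟩
  have h1 := IsAxis.zpow hax (k := 2 * k) (by omega)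
  obtain ⟨i, -, h2⟩ := h.proj_between h1 (g ^ (-(k : ℤ)) • v)
  have h3 : g ^ (2 * k) • g ^ (-(k : ℤ)) • v = g ^ (k : ℤ) • v := by
    rw [← mul_smul, ← zpow_natCast, ← zpow_add]; congr 2; push_cast; ring
  rw [h3] at h2
  rw [h2, hd, T.dist_comm (u := L i1), hd, hd]
  have h4 : ((2 * k * l : ℕ) : ℤ) = 2 * (k * l) := by push_cast; ring
  have h5 : -(k : ℤ) * l = -(k * l) := by ring
  rw [h5]
  omega

end General

variable {G : Type} [Group G] {A B : Subgroup G} {φ : A ≃* B}

/-- The edge `x` separates two points of the orbit of `v`. -/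
def Sep (H : Subgroup (HNNExtension G A B φ)) (v : Vert φ) (x : HNNExtension G A B φ) : Prop :=
  (∃ y ∈ H, near x (y • v)) ∧ (∃ y ∈ H, ¬ near x (y • v))

theorem near_between {x : HNNExtension G A B φ} {z1 z2 w : Vert φ} (h1 : near x z1)
    (h2 : near x z2) (hw : (graph φ).dist z1 w + (graph φ).dist w z2 ≤ (graph φ).dist z1 z2) :
    near x w := by
  have := side_convex (isTree (φ := φ)) (adj_vt x) (near' h1) (near' h2) hw
  unfold near; omega

theorem not_near_between {x : HNNExtension G A B φ} {z1 z2 w : Vert φ} (h1 : ¬ near x z1)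
    (h2 : ¬ near x z2) (hw : (graph φ).dist z1 w + (graph φ).dist w z2 ≤ (graph φ).dist z1 z2) :
    ¬ near x w := by
  have := side_convex (isTree (φ := φ)) (adj_vt x).symm (not_near h1) (not_near h2) hw
  unfold near; omega

theorem sep_move (H : Subgroup (HNNExtension G A B φ)) {h : HNNExtension G A B φ} (hh : h ∈ H)
    {L : ℤ → Vert φ} {l : ℕ} (hax : IsAxis (graph φ) h L l) (v : Vert φ) (i : ℤ)
    {x : HNNExtension G A B φ} (hx : Sep H (L i) x) : Sep H v x := by
  obtain ⟨k, hk⟩ := axis_between treeAct hax v i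
  have key : ∀ y : HNNExtension G A B φ,
      (graph φ).dist ((y * h ^ (-k)) • v) (y • L i) +
        (graph φ).dist (y • L i) ((y * h ^ k) • v) ≤
      (graph φ).dist ((y * h ^ (-k)) • v) ((y * h ^ k) • v) := by
    intro y
    rw [mul_smul, mul_smul, treeAct.dist_smul, treeAct.dist_smul, treeAct.dist_smul]
    exact hk
  by_contra hcon
  unfold Sep at hcon
  rw [not_and_or] at hcon
  rcases hcon with h1 | h1
  · push Not at h1
    obtain ⟨y, hy, h2⟩ := hx.1
    exact not_near_between (h1 _ (H.mul_mem hy (H.zpow_mem hh _)))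
      (h1 _ (H.mul_mem hy (H.zpow_mem hh _))) (key y) h2
  · push Not at h1
    obtain ⟨y, hy, h2⟩ := hx.2
    exact h2 (near_between (h1 _ (H.mul_mem hy (H.zpow_mem hh _)))
      (h1 _ (H.mul_mem hy (H.zpow_mem hh _))) (key y))

theorem sep_smul (H : Subgroup (HNNExtension G A B φ)) (s : HNNExtension G A B φ) {v : Vert φ}
    {x : HNNExtension G A B φ} {y y' : HNNExtension G A B φ} (hy : s * y * s⁻¹ ∈ H)
    (hy' : s * y' * s⁻¹ ∈ H) (h1 : near x (y • v)) (h2 : ¬ near x (y' • v)) :
    Sep H (s • v) (s * x) := by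
  have key : ∀ y : HNNExtension G A B φ, (s * y * s⁻¹) • s • v = s • y • v := by
    intro y
    rw [← mul_smul, ← mul_smul]; congr 1; group
  refine ⟨⟨_, hy, ?_⟩, ⟨_, hy', ?_⟩⟩
  · rw [key, near_smul]; exact h1
  · rw [key, near_smul]; exact h2

/-- The axis of the stable letter. -/
theorem isAxis_t : IsAxis (graph φ) (t : HNNExtension G A B φ)
    (fun i => vt ((t : HNNExtension G A B φ) ^ i)) 1 where
  line := ⟨fun i => by
    have := adj_vt (φ := φ) ((t : HNNExtension G A B φ) ^ i)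
    rwa [← zpow_add_one] at this, fun i hi => by
    have h1 := congrArg lvl hi
    rw [lvl_vt, lvl_vt, map_zpow, map_zpow, expo_t, ← ofAdd_zsmul, ← ofAdd_zsmul] at h1
    have h2 := Multiplicative.ofAdd.injective h1
    simp at h2⟩
  pos := one_pos
  smul i := by
    show (t : HNNExtension G A B φ) • vt _ = _
    rw [smul_vt, ← zpow_one_add, add_comm]; rfl

/-- If `N` contains an element with an axis and is normalised by a subgroup of finite index then
every edge separates the orbit of a vertex on the axis. -/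
theorem sep_all (N K : Subgroup (HNNExtension G A B φ)) (hK : K.index ≠ 0)
    (hNK : ∀ k ∈ K, ∀ n ∈ N, k * n * k⁻¹ ∈ N) {h : HNNExtension G A B φ} (hh : h ∈ N)
    {L : ℤ → Vert φ} {l : ℕ} (hax : IsAxis (graph φ) h L l) (x : HNNExtension G A B φ) :
    Sep N (L 0) x := by
  obtain ⟨n, hn, -, hnK⟩ := Subgroup.exists_pow_mem_of_index_ne_zero hK (x * t * x⁻¹)
  rw [conj_pow] at hnK
  have hnKz : ∀ j : ℤ, x * t ^ ((n : ℤ) * j) * x⁻¹ ∈ K := by
    intro j
    have := K.zpow_mem hnK j
    rwa [conj_zpow, ← zpow_natCast, ← zpow_mul] at this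
  obtain ⟨i0, hi0⟩ := (isAxis_t (φ := φ)).line.exists_proj isTree (x⁻¹ • L 0)
  have hd : ∀ m j : ℤ, (graph φ).dist ((x * t ^ m * x⁻¹) • L 0) (vt (x * t ^ j)) =
      (graph φ).dist (x⁻¹ • L 0) (vt (t ^ i0)) + (j - m - i0).natAbs := by
    intro m j
    rw [← smul_vt, mul_smul, mul_smul, treeAct.dist_smul, treeAct.dist_smul_left, ← zpow_neg,
      (isAxis_t (φ := φ)).smul_zpow, hi0]
    congr 2; push_cast; ring
  have hnear : ∀ m : ℤ, near x ((x * t ^ m * x⁻¹) • L 0) ↔ m + i0 ≤ 0 := by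
    intro m
    unfold near
    have h1 := hd m 0
    have h2 := hd m 1
    rw [zpow_zero, mul_one] at h1
    rw [zpow_one] at h2
    rw [h1, h2]
    omega
  have key : ∀ k ∈ K, (∀ y ∈ N, near x (y • L 0)) → near x (k • L 0) := by
    intro k hk hy
    obtain ⟨m, hm⟩ := axis_between treeAct (IsAxis.conj treeAct hax k) (L 0) 0
    exact near_between (hy _ (N.zpow_mem (hNK k hk h hh) _))
      (hy _ (N.zpow_mem (hNK k hk h hh) _)) hm
  have key' : ∀ k ∈ K, (∀ y ∈ N, ¬ near x (y • L 0)) → ¬ near x (k • L 0) := by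
    intro k hk hy
    obtain ⟨m, hm⟩ := axis_between treeAct (IsAxis.conj treeAct hax k) (L 0) 0
    exact not_near_between (hy _ (N.zpow_mem (hNK k hk h hh) _))
      (hy _ (N.zpow_mem (hNK k hk h hh) _)) hm
  by_contra hcon
  unfold Sep at hcon
  rw [not_and_or] at hcon
  rcases hcon with h1 | h1
  · push Not at h1
    have h2 := key' _ (hnKz (-(i0.natAbs : ℤ) - 1)) h1
    rw [hnear] at h2
    apply h2
    have h3 : (1 : ℤ) ≤ n := by exact_mod_cast hn
    have h4 : (i0.natAbs : ℤ) + 1 ≤ n * ((i0.natAbs : ℤ) + 1) := by nlinarith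
    have h5 : (n : ℤ) * (-(i0.natAbs : ℤ) - 1) = - (n * ((i0.natAbs : ℤ) + 1)) := by ring
    omega
  · push Not at h1
    have h2 := key _ (hnKz ((i0.natAbs : ℤ) + 1)) h1
    rw [hnear] at h2
    have h3 : (1 : ℤ) ≤ n := by exact_mod_cast hn
    have h4 : (i0.natAbs : ℤ) + 1 ≤ n * ((i0.natAbs : ℤ) + 1) := by nlinarith
    omega

/-- A finitely generated subgroup has finitely many orbits of separating edges. -/
theorem sep_finite (N : Subgroup (HNNExtension G A B φ)) (hfg : N.FG) (v0 : Vert φ) :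
    ∃ F : Set (Vert φ × Vert φ), F.Finite ∧ ∀ x : HNNExtension G A B φ, Sep N v0 x →
      ∃ n ∈ N, (vt (n * x), vt (n * x * t)) ∈ F := by
  classical
  obtain ⟨S, hS⟩ := hfg
  -- generators separate
  have h1 : ∀ x : HNNExtension G A B φ, Sep N v0 x → ∃ n ∈ N, ∃ s ∈ S,
      ¬ (near x (n • v0) ↔ near x (n • s • v0)) := by
    intro x hx
    by_contra hcon
    push Not at hcon
    have h2 : ∀ y ∈ Subgroup.closure (S : Set (HNNExtension G A B φ)), y ∈ N ∧ ∀ n ∈ N,
        (near x (n • v0) ↔ near x (n • y • v0)) := by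
      intro y hy
      induction hy using Subgroup.closure_induction with
      | mem s hs => exact ⟨by rw [← hS]; exact Subgroup.subset_closure hs,
          fun n hn => hcon n hn s hs⟩
      | one => exact ⟨N.one_mem, fun n _ => by rw [one_smul]⟩
      | mul y z _ _ hy hz =>
        refine ⟨N.mul_mem hy.1 hz.1, fun n hn => ?_⟩
        rw [hy.2 n hn, ← mul_smul, hz.2 (n * y) (N.mul_mem hn hy.1), mul_smul, mul_smul]
      | inv y _ hy =>
        refine ⟨N.inv_mem hy.1, fun n hn => ?_⟩
        have h3 := hy.2 (n * y⁻¹) (N.mul_mem hn (N.inv_mem hy.1))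
        rw [← mul_smul, inv_mul_cancel_right, mul_smul] at h3
        exact h3.symm
    obtain ⟨⟨y, hy, h3⟩, ⟨y', hy', h3'⟩⟩ := hx
    rw [← hS] at hy hy'
    have h4 := (h2 y hy).2 1 N.one_mem
    have h4' := (h2 y' hy').2 1 N.one_mem
    rw [one_smul, one_smul] at h4 h4'
    exact h3' (h4'.mp (h4.mpr h3))
  let F : Set (Vert φ × Vert φ) := ⋃ s ∈ S,
    ({p | (graph φ).dist v0 p + (graph φ).dist p (s • v0) = (graph φ).dist v0 (s • v0)} ×ˢ
     {p | (graph φ).dist v0 p + (graph φ).dist p (s • v0) = (graph φ).dist v0 (s • v0)})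
  have hF : F.Finite := by
    apply Set.Finite.biUnion (Finset.finite_toSet S)
    intro s _
    exact (geo_finite isTree _ _).prod (geo_finite isTree _ _)
  refine ⟨F, hF, fun x hx => ?_⟩
  obtain ⟨n, hn, s, hs, h3⟩ := h1 x hx
  refine ⟨n⁻¹, N.inv_mem hn, ?_⟩
  simp only [F, Set.mem_iUnion]
  refine ⟨s, hs, ?_⟩
  have h4 : ¬ (near (n⁻¹ * x) v0 ↔ near (n⁻¹ * x) (s • v0)) := by
    rw [← near_smul n, ← near_smul n (n⁻¹ * x) (s • v0), mul_inv_cancel_left]
    exact h3
  by_cases h5 : near (n⁻¹ * x) v0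
  · have h6 : ¬ near (n⁻¹ * x) (s • v0) := fun h => h4 ⟨fun _ => h, fun _ => h5⟩
    exact sep_geod isTree (adj_vt _) (near' h5) (not_near h6)
  · have h6 : near (n⁻¹ * x) (s • v0) := by
      by_contra h; exact h4 ⟨fun h' => absurd h' h5, fun h' => absurd h' h⟩
    have h7 := sep_geod isTree (adj_vt (n⁻¹ * x)) (near' h6) (not_near h5)
    rw [(graph φ).dist_comm (u := s • v0) (v := v0),
      (graph φ).dist_comm (u := s • v0), (graph φ).dist_comm (v := v0),
      (graph φ).dist_comm (u := s • v0), (graph φ).dist_comm (u := vt (n⁻¹ * x * t)) (v := v0)] at h7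
    exact ⟨by simp only [Set.mem_ofPred_eq]; omega, by simp only [Set.mem_ofPred_eq]; omega⟩

end Pool.Agent.helper444_cyc
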