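import Mathlib
import Pool.Agent.helper444_cyc.Sep
import Pool.Agent.helper444_cyc.Descent

set_option autoImplicit false

/-! Groups which have a subgroup of finite index that is an ascending HNN extension of a finitely
generated group. -/

namespace Pool.Agent.helper444_cyc

open HNNExtension Pool.Agent.Helper270.Tree Pool.Agent.Helper270.HNN

open scoped Pointwise

section Data

variable {H H' : Type} [Group H] [Group H']

/-- The kernel of a homomorphism on a subgroup, as a subgroup of the whole group. -/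
def kr {K : Subgroup H} (χ : K →* Multiplicative ℤ) : Subgroup H := χ.ker.map K.subtype

theorem mem_kr {K : Subgroup H} {χ : K →* Multiplicative ℤ} {x : H} :
    x ∈ kr χ ↔ ∃ h : x ∈ K, χ ⟨x, h⟩ = 1 := by
  unfold kr
  rw [Subgroup.mem_map]
  constructor
  · rintro ⟨y, hy, rfl⟩
    exact ⟨y.2, hy⟩
  · rintro ⟨h, hx⟩
    exact ⟨⟨x, h⟩, hx, rfl⟩

theorem kr_le {K : Subgroup H} (χ : K →* Multiplicative ℤ) : kr χ ≤ K := by
  intro x hx
  exact (mem_kr.mp hx).1

theorem kr_normal {K : Subgroup H} (χ : K →* Multiplicative ℤ) :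
    ∀ k ∈ K, ∀ n ∈ kr χ, k * n * k⁻¹ ∈ kr χ := by
  intro k hk n hn
  obtain ⟨h, h1⟩ := mem_kr.mp hn
  refine mem_kr.mpr ⟨K.mul_mem (K.mul_mem hk h) (K.inv_mem hk), ?_⟩
  have : (⟨k * n * k⁻¹, K.mul_mem (K.mul_mem hk h) (K.inv_mem hk)⟩ : K) =
      ⟨k, hk⟩ * ⟨n, h⟩ * ⟨k, hk⟩⁻¹ := rfl
  rw [this, map_mul, map_mul, map_inv, h1, mul_one, mul_inv_cancel]

/-- The subgroup `K` of finite index is the ascending HNN extension of the finitely generated group
`C` with stable letter `s`, up to finite index. -/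
structure Asc (K : Subgroup H) (χ : K →* Multiplicative ℤ) (s : K) (C : Subgroup H) : Prop where
  idx : K.index ≠ 0
  nt : χ s ≠ 1
  fg : C.FG
  le : C ≤ kr χ
  asc : ∀ c ∈ C, (s : H) * c * (s : H)⁻¹ ∈ C
  un : ∀ x ∈ kr χ, ∃ i : ℕ, (s : H) ^ i * x * ((s : H) ^ i)⁻¹ ∈ C

namespace Asc

variable {K : Subgroup H} {χ : K →* Multiplicative ℤ} {s : K} {C : Subgroup H}

theorem up (h : Asc K χ s C) (i : ℕ) {c : H} (hc : c ∈ C) :
    (s : H) ^ i * c * ((s : H) ^ i)⁻¹ ∈ C := by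
  induction i with
  | zero => simpa using hc
  | succ i ih =>
    have := h.asc _ ih
    rw [pow_succ']
    have e : (s : H) * (s : H) ^ i * c * ((s : H) * (s : H) ^ i)⁻¹ =
      (s : H) * ((s : H) ^ i * c * ((s : H) ^ i)⁻¹) * (s : H)⁻¹ := by group
    rw [e]; exact this

theorem up' (h : Asc K χ s C) {i j : ℕ} (hij : i ≤ j) {c : H}
    (hc : (s : H) ^ i * c * ((s : H) ^ i)⁻¹ ∈ C) : (s : H) ^ j * c * ((s : H) ^ j)⁻¹ ∈ C := by
  obtain ⟨k, rfl⟩ := Nat.exists_eq_add_of_le hij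
  have := h.up k hc
  have e : (s : H) ^ (i + k) * c * ((s : H) ^ (i + k))⁻¹ =
      (s : H) ^ k * ((s : H) ^ i * c * ((s : H) ^ i)⁻¹) * ((s : H) ^ k)⁻¹ := by
    rw [add_comm, pow_add]; group
  rw [e]; exact this

/-- The conjugates of the base group. -/
def shift (s : H) (C : Subgroup H) (i : ℕ) : Subgroup H :=
  C.comap (MulAut.conj (s ^ i) : H →* H)

theorem mem_shift {s : H} {C : Subgroup H} {i : ℕ} {x : H} :
    x ∈ shift s C i ↔ s ^ i * x * (s ^ i)⁻¹ ∈ C := Iff.rfl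

/-- A conjugate of the base group is isomorphic to it. -/
def shiftEquiv (s : H) (C : Subgroup H) (i : ℕ) : shift s C i ≃* C where
  toFun x := ⟨s ^ i * x * (s ^ i)⁻¹, x.2⟩
  invFun x := ⟨(s ^ i)⁻¹ * x * (s ^ i), by
    rw [mem_shift]
    have e : s ^ i * ((s ^ i)⁻¹ * x * (s ^ i)) * (s ^ i)⁻¹ = x := by group
    rw [e]; exact x.2⟩
  left_inv x := by ext; simp; group
  right_inv x := by ext; simp; group
  map_mul' x y := by ext; simp

theorem shift_asc (h : Asc K χ s C) (i : ℕ) : Asc K χ s (shift (s : H) C i) where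
  idx := h.idx
  nt := h.nt
  fg := by
    have h1 : Group.FG C := (Group.fg_iff_subgroup_fg C).mpr h.fg
    have h2 : Group.FG (shift (s : H) C i) :=
      Group.fg_of_surjective (f := (shiftEquiv (s : H) C i).symm.toMonoidHom)
        (shiftEquiv (s : H) C i).symm.surjective
    exact (Group.fg_iff_subgroup_fg _).mp h2
  le := by
    intro x hx
    have h1 := h.le (mem_shift.mp hx)
    have h2 := kr_normal χ ((s : H) ^ i)⁻¹ (K.inv_mem (K.pow_mem s.2 i)) _ h1
    have e : ((s : H) ^ i)⁻¹ * ((s : H) ^ i * x * ((s : H) ^ i)⁻¹) * ((s : H) ^ i)⁻¹⁻¹ = x := by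
      group
    rwa [e] at h2
  asc := by
    intro c hc
    rw [mem_shift] at hc ⊢
    have := h.asc _ hc
    have e : (s : H) ^ i * ((s : H) * c * (s : H)⁻¹) * ((s : H) ^ i)⁻¹ =
        (s : H) * ((s : H) ^ i * c * ((s : H) ^ i)⁻¹) * (s : H)⁻¹ := by
      have e2 : (s : H) ^ i * (s : H) = (s : H) * (s : H) ^ i := by rw [← pow_succ, pow_succ']
      calc (s : H) ^ i * ((s : H) * c * (s : H)⁻¹) * ((s : H) ^ i)⁻¹
          = ((s : H) ^ i * (s : H)) * c * ((s : H) ^ i * (s : H))⁻¹ := by group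
        _ = ((s : H) * (s : H) ^ i) * c * ((s : H) * (s : H) ^ i)⁻¹ := by rw [e2]
        _ = _ := by group
    rw [e]; exact this
  un := by
    intro x hx
    obtain ⟨j, hj⟩ := h.un x hx
    exact ⟨j, mem_shift.mpr (by
      have := h.up i hj
      have e : (s : H) ^ i * ((s : H) ^ j * x * ((s : H) ^ j)⁻¹) * ((s : H) ^ i)⁻¹ = 
        (s : H) ^ i * ((s : H) ^ j * x * ((s : H) ^ j)⁻¹) * ((s : H) ^ i)⁻¹ := rfl
      exact this)⟩

/-- Transport along an isomorphism. -/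
theorem map (h : Asc K χ s C) (e : H ≃* H') :
    Asc (K.map (e : H →* H'))
      (χ.comp ((e.subgroupMap K).symm : K.map (e : H →* H') →* K)) (e.subgroupMap K s)
      (C.map (e : H →* H')) where
  idx := by rw [Subgroup.index_map_equiv]; exact h.idx
  nt := by
    show χ ((e.subgroupMap K).symm (e.subgroupMap K s)) ≠ 1
    rw [MulEquiv.symm_apply_apply]; exact h.nt
  fg := by
    have h1 : Group.FG C := (Group.fg_iff_subgroup_fg C).mpr h.fg
    have h2 : Group.FG (C.map (e : H →* H')) :=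
      Group.fg_of_surjective (f := (e.subgroupMap C).toMonoidHom) (e.subgroupMap C).surjective
    exact (Group.fg_iff_subgroup_fg _).mp h2
  le := by
    rintro _ ⟨c, hc, rfl⟩
    obtain ⟨hcK, hc1⟩ := mem_kr.mp (h.le hc)
    refine mem_kr.mpr ⟨⟨c, hcK, rfl⟩, ?_⟩
    have e1 : (⟨(e : H →* H') c, ⟨c, hcK, rfl⟩⟩ : K.map (e : H →* H')) =
        e.subgroupMap K ⟨c, hcK⟩ := rfl
    rw [e1]
    show χ ((e.subgroupMap K).symm (e.subgroupMap K _)) = 1
    rw [MulEquiv.symm_apply_apply]; exact hc1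
  asc := by
    rintro _ ⟨c, hc, rfl⟩
    refine ⟨_, h.asc c hc, ?_⟩
    simp
  un := by
    rintro x hx
    obtain ⟨⟨y, hy, rfl⟩, hx1⟩ := mem_kr.mp hx
    have hy1 : y ∈ kr χ := by
      refine mem_kr.mpr ⟨hy, ?_⟩
      have e1 : (⟨(e : H →* H') y, ⟨y, hy, rfl⟩⟩ : K.map (e : H →* H')) =
        e.subgroupMap K ⟨y, hy⟩ := rfl
      rw [e1] at hx1
      change χ ((e.subgroupMap K).symm (e.subgroupMap K _)) = 1 at hx1
      rwa [MulEquiv.symm_apply_apply] at hx1
    obtain ⟨i, hi⟩ := h.un y hy1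
    refine ⟨i, _, hi, ?_⟩
    simp

end Asc

end Data

end Pool.Agent.helper444_cyc
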