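import Mathlib
import Pool.Agent.helper444_cyc.Asc

set_option autoImplicit false

/-! The descent step for ascending HNN extensions. -/

namespace Pool.Agent.helper444_cyc

open HNNExtension Pool.Agent.Helper270.Tree Pool.Agent.Helper270.HNN

open scoped Pointwise

variable {G : Type} [Group G] {A B : Subgroup G} {φ : A ≃* B}
variable {K : Subgroup (HNNExtension G A B φ)} {χ : K →* Multiplicative ℤ} {s : K}
  {C : Subgroup (HNNExtension G A B φ)}

theorem Asc.orbits (h : Asc K χ s C) {h0 : HNNExtension G A B φ} (hh0 : h0 ∈ C)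
    (hyp : ∀ v : Vert φ, h0 • v ≠ v) :
    ∃ S : Set (HNNExtension G A B φ ⧸ kr χ), S.Finite ∧
      ∀ q : HNNExtension G A B φ ⧸ kr χ, ∃ c : B, ∃ p ∈ S,
        q = (of (c : G) : HNNExtension G A B φ) • p := by
  classical
  obtain ⟨L, l, hax⟩ := (treeAct (φ := φ)).exists_axis hyp
  obtain ⟨F, hF, hFx⟩ := sep_finite C h.fg (L 0)
  have key : ∀ x : HNNExtension G A B φ, ∃ i0 : ℕ, ∀ i ≥ i0, ∃ n ∈ kr χ,
      (vt ((s : HNNExtension G A B φ) ^ i * n * x),
        vt ((s : HNNExtension G A B φ) ^ i * n * x * t)) ∈ F := by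
    intro x
    obtain ⟨⟨y, hy, h1⟩, ⟨y', hy', h1'⟩⟩ := sep_all (kr χ) K h.idx (kr_normal χ) (h.le hh0) hax x
    obtain ⟨i1, hi1⟩ := h.un y hy
    obtain ⟨i2, hi2⟩ := h.un y' hy'
    refine ⟨max i1 i2, fun i hi => ?_⟩
    have h2 := h.up' (le_trans (le_max_left _ _) hi) hi1
    have h3 := h.up' (le_trans (le_max_right _ _) hi) hi2
    have h4 := sep_smul C _ h2 h3 h1 h1'
    have h5 := sep_move C (h.up i hh0) (IsAxis.conj treeAct hax _) (L 0) 0 h4
    obtain ⟨c, hc, h6⟩ := hFx _ h5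
    refine ⟨((s : HNNExtension G A B φ) ^ i)⁻¹ * c * (s : HNNExtension G A B φ) ^ i, ?_, ?_⟩
    · have := kr_normal χ ((s : HNNExtension G A B φ) ^ i)⁻¹ (K.inv_mem (K.pow_mem s.2 i)) _
        (h.le hc)
      rwa [inv_inv] at this
    · have e : (s : HNNExtension G A B φ) ^ i * (((s : HNNExtension G A B φ) ^ i)⁻¹ * c *
        (s : HNNExtension G A B φ) ^ i) * x = c * ((s : HNNExtension G A B φ) ^ i * x) := by group
      rw [e]; exact h6
  let Bo : Subgroup (HNNExtension G A B φ) := B.map of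
  let Z := MulAction.orbitRel.Quotient Bo (HNNExtension G A B φ ⧸ kr χ)
  let mkZ : (HNNExtension G A B φ ⧸ kr χ) → Z :=
    Quotient.mk (MulAction.orbitRel Bo (HNNExtension G A B φ ⧸ kr χ))
  have hfinF : Finite F := hF
  have hZ : Finite Z := by
    by_contra hinf
    rw [not_finite_iff_infinite] at hinf
    let f := Infinite.natEmbedding Z
    let m := Nat.card F
    let qq : Fin (m + 1) → (HNNExtension G A B φ ⧸ kr χ) := fun j => (f j).out
    have hx : ∀ j, ∃ x : HNNExtension G A B φ, qq j =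
      ((x⁻¹ : HNNExtension G A B φ) : HNNExtension G A B φ ⧸ kr χ) := by
      intro j
      obtain ⟨y, hy⟩ := QuotientGroup.mk_surjective (qq j)
      exact ⟨y⁻¹, by rw [inv_inv, hy]⟩
    choose x hx using hx
    choose i0 hi0 using fun j => key (x j)
    let i := Finset.univ.sup i0
    have hi : ∀ j, i0 j ≤ i := fun j => Finset.le_sup (Finset.mem_univ j)
    choose n hn hnF using fun j => hi0 j i (hi j)
    let g : Fin (m + 1) → F := fun j => ⟨_, hnF j⟩
    have hg : Function.Injective g := by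
      intro j k hjk
      have h1 := congrArg Subtype.val hjk
      rw [Prod.ext_iff] at h1
      obtain ⟨c, hc⟩ := pair_eq h1.1 h1.2
      have h2 : n j * x j * of (c : G) = n k * x k := by
        apply mul_left_cancel (a := (s : HNNExtension G A B φ) ^ i)
        rw [← mul_assoc, ← mul_assoc, ← mul_assoc]; exact hc
      have h3 : f j = f k := by
        have h4 : qq j = (⟨of (c : G), ⟨c, c.2, rfl⟩⟩ : Bo) • qq k := by
          rw [hx j, hx k]
          show _ = ((of (c : G) * (x k)⁻¹ : HNNExtension G A B φ) : HNNExtension G A B φ ⧸ kr χ)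
          rw [QuotientGroup.eq, inv_inv]
          have h5 : x j * (of (c : G) * (x k)⁻¹) = (n j)⁻¹ * n k := by
            have h6 : n k = n j * x j * of (c : G) * (x k)⁻¹ := by rw [h2]; group
            rw [h6]; group
          rw [h5]
          exact (kr χ).mul_mem ((kr χ).inv_mem (hn j)) (hn k)
        have h7 : mkZ (qq j) = mkZ (qq k) := by
          apply Quotient.sound
          show MulAction.orbitRel Bo (HNNExtension G A B φ ⧸ kr χ) _ _
          rw [MulAction.orbitRel_apply, h4]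
          exact MulAction.mem_orbit _ _
        have h8 : ∀ j, mkZ (qq j) = f j := fun j => Quotient.out_eq (f j)
        rw [h8, h8] at h7
        exact h7
      have := f.injective h3
      exact Fin.ext this
    have h1 := Nat.card_le_card_of_injective g hg
    rw [Nat.card_eq_fintype_card, Fintype.card_fin] at h1
    omega
  refine ⟨Set.range (fun z : Z => (z.out : HNNExtension G A B φ ⧸ kr χ)), Set.finite_range _, ?_⟩
  intro q
  let z : Z := mkZ q
  have h1 : q ∈ MulAction.orbit Bo (z.out : HNNExtension G A B φ ⧸ kr χ) := by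
    have : mkZ (z.out) = mkZ q := Quotient.out_eq z
    have h2 : MulAction.orbitRel Bo (HNNExtension G A B φ ⧸ kr χ) _ _ := Quotient.exact this.symm
    rwa [MulAction.orbitRel_apply] at h2
  obtain ⟨⟨_, c, hc, rfl⟩, h2⟩ := h1
  exact ⟨⟨c, hc⟩, _, ⟨z, rfl⟩, h2.symm⟩

theorem zpow_ne_one {m : Multiplicative ℤ} (hm : m ≠ 1) {j : ℤ} (h : m ^ j = 1) : j = 0 := by
  have h1 := congrArg Multiplicative.toAdd h
  rw [toAdd_zpow, toAdd_one, smul_eq_mul] at h1
  rcases mul_eq_zero.mp h1 with h2 | h2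
  · exact h2
  · exact absurd (Multiplicative.toAdd.injective h2) hm

theorem mem_kr_zpow (s : K) {j : ℤ} (h : (s : HNNExtension G A B φ) ^ j ∈ kr χ) :
    (χ s) ^ j = 1 := by
  obtain ⟨h1, h2⟩ := mem_kr.mp h
  rw [← map_zpow, ← h2]; rfl

theorem Asc.hfree (h : Asc K χ s C) (a0 : A) (ha0 : ∀ c : A, c ∈ Subgroup.zpowers a0)
    (S : Set (HNNExtension G A B φ ⧸ kr χ)) (hSfin : S.Finite)
    (hS : ∀ q : HNNExtension G A B φ ⧸ kr χ, ∃ c : B, ∃ p ∈ S,
        q = (of (c : G) : HNNExtension G A B φ) • p) (x : HNNExtension G A B φ) (k : ℤ)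
    (hk : x * (of (bb φ a0)) ^ k * x⁻¹ ∈ kr χ) : k = 0 := by
  classical
  by_contra hk0
  have hB := B_eq (φ := φ) a0 ha0
  set b0 : HNNExtension G A B φ := of (bb φ a0) with hb0
  let F : ℤ → (HNNExtension G A B φ ⧸ kr χ) := fun j =>
    ((x⁻¹ * (s : HNNExtension G A B φ) ^ j : HNNExtension G A B φ) : HNNExtension G A B φ ⧸ kr χ)
  have hF : Function.Injective F := by
    intro i j hij
    have h1 := QuotientGroup.eq.mp hij
    have e : (x⁻¹ * (s : HNNExtension G A B φ) ^ i)⁻¹ * (x⁻¹ * (s : HNNExtension G A B φ) ^ j) =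
        (s : HNNExtension G A B φ) ^ (j - i) := by
      rw [zpow_sub]; group
    rw [e] at h1
    have := zpow_ne_one h.nt (mem_kr_zpow s h1)
    omega
  have hfix : ∀ j, b0 ^ k • F j = F j := by
    intro j
    show ((b0 ^ k * (x⁻¹ * (s : HNNExtension G A B φ) ^ j) : HNNExtension G A B φ) :
      HNNExtension G A B φ ⧸ kr χ) = _
    rw [eq_comm, QuotientGroup.eq]
    have h1 := kr_normal χ ((s : HNNExtension G A B φ) ^ (-j)) (K.zpow_mem s.2 _) _ hk
    have e : (x⁻¹ * (s : HNNExtension G A B φ) ^ j)⁻¹ *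
        (b0 ^ k * (x⁻¹ * (s : HNNExtension G A B φ) ^ j)) =
        (s : HNNExtension G A B φ) ^ (-j) * (x * b0 ^ k * x⁻¹) *
          ((s : HNNExtension G A B φ) ^ (-j))⁻¹ := by
      rw [zpow_neg]; group
    rw [e]; exact h1
  have hsub : Set.range F ⊆ ⋃ p ∈ S, (fun i : ℤ => b0 ^ i • p) '' (Set.Icc 0 |k|) := by
    rintro _ ⟨j, rfl⟩
    obtain ⟨c, p, hp, h1⟩ := hS (F j)
    have h2 := (SetLike.ext_iff.mp hB (c : G)).mp c.2
    obtain ⟨m, hm⟩ := Subgroup.mem_zpowers_iff.mp h2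
    have h3 : F j = b0 ^ m • p := by rw [h1, hb0, ← map_zpow, hm]
    have h4 : b0 ^ k • p = p := by
      have h5 := hfix j
      rw [h3, ← mul_smul, ← zpow_add, add_comm, zpow_add, mul_smul] at h5
      exact smul_left_cancel _ h5
    simp only [Set.mem_iUnion]
    refine ⟨p, hp, m % k, ⟨Int.emod_nonneg _ hk0, (Int.emod_lt_abs _ hk0).le⟩, ?_⟩
    have h5 : ∀ i : ℤ, (b0 ^ k) ^ i • p = p := by
      intro i
      have h6 : b0 ^ k ∈ MulAction.stabilizer (HNNExtension G A B φ) p := h4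
      exact Subgroup.zpow_mem _ h6 i
    show b0 ^ (m % k) • p = _
    rw [h3]
    conv_rhs => rw [← Int.emod_add_mul_ediv m k, zpow_add, mul_smul, zpow_mul, h5]
  have hfin : (Set.range F).Finite := by
    refine Set.Finite.subset ?_ hsub
    apply hSfin.biUnion
    intro p _
    exact (Set.finite_Icc _ _).image _
  exact Set.infinite_range_of_injective hF hfin

/-- The descent step. -/
theorem Asc.step (h : Asc K χ s C) (a0 : A) (ha0 : ∀ c : A, c ∈ Subgroup.zpowers a0)
    {h0 : HNNExtension G A B φ} (hh0 : h0 ∈ kr χ) (hyp : ∀ v : Vert φ, h0 • v ≠ v) :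
    ∃ (K' : Subgroup G) (χ' : K' →* Multiplicative ℤ) (s' : K') (C' : Subgroup G),
      Asc K' χ' s' C' ∧ b1 C' < b1 C := by
  classical
  set b0 : HNNExtension G A B φ := of (bb φ a0) with hb0
  -- enlarge the base
  obtain ⟨i0, hi0⟩ := h.un h0 hh0
  have hC0 := h.shift_asc i0
  obtain ⟨S, hSfin, hS⟩ := hC0.orbits (mem_shift.mpr hi0) hyp
  have hfree := h.hfree a0 ha0 S hSfin hS
  obtain ⟨l, hl, hls⟩ := exists_hom (kr χ) a0 ha0 S hSfin hS
  obtain ⟨n1, hn1⟩ : ∃ n : kr χ, l n ≠ 1 := by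
    by_contra hcon
    push Not at hcon
    exact hl (by ext x; simp [hcon x])
  -- the new stable letter
  obtain ⟨r, hr, -, hrK⟩ := Subgroup.exists_pow_mem_of_index_ne_zero h.idx b0
  set β : ℤ := (χ ⟨b0 ^ r, hrK⟩).toAdd with hβ
  set σ : ℤ := (χ s).toAdd with hσ
  have hβ0 : β ≠ 0 := by
    intro h1
    have h2 : b0 ^ r ∈ kr χ := mem_kr.mpr ⟨hrK, Multiplicative.toAdd.injective h1⟩
    have h3 := hfree 1 r (by rw [one_mul, inv_one, mul_one, zpow_natCast]; exact h2)
    omega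
  have hσ0 : σ ≠ 0 := fun h1 => h.nt (Multiplicative.toAdd.injective h1)
  set m : ℕ := β.natAbs ^ 2 with hm
  have hmβ : (m : ℤ) = β * β := by
    rw [hm]; push_cast; rw [sq_abs]; ring
  have hmpos : 0 < m := by
    have : 0 < β.natAbs := Int.natAbs_pos.mpr hβ0
    positivity
  set s1 : HNNExtension G A B φ := (b0 ^ r) ^ (σ * β) with hs1
  have hs1K : s1 ∈ K := K.zpow_mem hrK _
  have hχs1 : χ ⟨s1, hs1K⟩ = Multiplicative.ofAdd (σ * β * β) := by
    have e : (⟨s1, hs1K⟩ : K) = ⟨b0 ^ r, hrK⟩ ^ (σ * β) := rfl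
    rw [e, map_zpow]
    apply Multiplicative.toAdd.injective
    rw [toAdd_zpow, toAdd_ofAdd, ← hβ]; rfl
  set ν : HNNExtension G A B φ := ((s : HNNExtension G A B φ) ^ m)⁻¹ * s1 with hν
  have hνkr : ν ∈ kr χ := by
    refine mem_kr.mpr ⟨K.mul_mem (K.inv_mem (K.pow_mem s.2 m)) hs1K, ?_⟩
    have e : (⟨ν, K.mul_mem (K.inv_mem (K.pow_mem s.2 m)) hs1K⟩ : K) =
      (s ^ m)⁻¹ * ⟨s1, hs1K⟩ := rfl
    rw [e, map_mul, map_inv, map_pow, hχs1]
    apply Multiplicative.toAdd.injective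
    rw [toAdd_mul, toAdd_inv, toAdd_pow, toAdd_ofAdd, toAdd_one, ← hσ, nsmul_eq_mul, hmβ]
    ring
  have hs1ν : s1 = (s : HNNExtension G A B φ) ^ m * ν := by rw [hν]; group
  obtain ⟨i1, hi1⟩ := h.un n1 n1.2
  obtain ⟨i2, hi2⟩ := h.un ν hνkr
  set C1 := shift (s : HNNExtension G A B φ) C (max i1 i2) with hC1
  have hA1 : Asc K χ s C1 := h.shift_asc _
  have hn1C : (n1 : HNNExtension G A B φ) ∈ C1 := mem_shift.mpr (h.up' (le_max_left _ _) hi1)
  have hνC : ν ∈ C1 := mem_shift.mpr (h.up' (le_max_right _ _) hi2)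
  have hb1 : b1 C1 = b1 C := b1_congr (shiftEquiv _ _ _)
  -- the retraction
  obtain ⟨ρ, hρ⟩ := exists_retraction C1 a0 ha0 (fun x k hk => hfree x k (hA1.le hk))
  have hfgC1 : Group.FG C1 := (Group.fg_iff_subgroup_fg C1).mpr hA1.fg
  let ι : C1.comap (of : G →* HNNExtension G A B φ) →* C1 :=
    { toFun := fun g => ⟨of (g : G), g.2⟩
      map_one' := by ext; simp
      map_mul' := by intro x y; ext; simp }
  have hρι : ∀ x, ρ (ι x) = x := fun x => hρ x.1 x.2
  let inc : C1 →* kr χ := Subgroup.inclusion hA1.le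
  have hlt : b1 (C1.comap (of : G →* HNNExtension G A B φ)) < b1 C1 := by
    refine b1_lt ρ ι hρι (l.comp inc) ?_ ?_
    · intro h1
      apply hn1
      exact DFunLike.congr_fun h1 ⟨n1, hn1C⟩
    · intro x
      exact hls x.1 (hA1.le x.2)
  rw [hb1] at hlt
  -- the new data
  let K' : Subgroup G := K.comap of
  let χ' : K' →* Multiplicative ℤ := χ.comp
    { toFun := fun g => ⟨of (g : G), g.2⟩
      map_one' := by ext; simp
      map_mul' := by intro x y; ext; simp }
  have hkr' : ∀ g : G, g ∈ kr χ' ↔ (of g : HNNExtension G A B φ) ∈ kr χ := by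
    intro g
    rw [mem_kr, mem_kr]
    rfl
  set z : G := ((bb φ a0) ^ r) ^ (σ * β) with hz
  have hofz : (of z : HNNExtension G A B φ) = s1 := by
    rw [hz, map_zpow, map_pow]
  have hzK : z ∈ K' := by
    show of z ∈ K
    rw [hofz]; exact hs1K
  refine ⟨K', χ', ⟨z, hzK⟩, C1.comap of, ⟨?_, ?_, ?_, ?_, ?_, ?_⟩, hlt⟩
  · intro h1
    have h2 : K.relIndex (of : G →* HNNExtension G A B φ).range = 0 := by
      rw [← h1]
      exact (Subgroup.index_comap K of).symm
    exact h.idx (Subgroup.index_eq_zero_of_relIndex_eq_zero h2)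
  · show χ ⟨of z, _⟩ ≠ 1
    have e : (⟨of z, hzK⟩ : K) = ⟨s1, hs1K⟩ := Subtype.ext hofz
    rw [e, hχs1]
    intro h1
    have h2 := congrArg Multiplicative.toAdd h1
    rw [toAdd_ofAdd, toAdd_one] at h2
    have : σ * β * β ≠ 0 := mul_ne_zero (mul_ne_zero hσ0 hβ0) hβ0
    exact this h2
  · exact (Group.fg_iff_subgroup_fg _).mp (Group.fg_of_surjective (f := ρ)
      (fun x => ⟨ι x, hρι x⟩))
  · intro g hg
    exact (hkr' g).mpr (hA1.le hg)
  · intro c hc
    show of _ ∈ C1
    rw [map_mul, map_mul, map_inv, hofz, hs1ν]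
    have h1 : ν * of c * ν⁻¹ ∈ C1 := C1.mul_mem (C1.mul_mem hνC hc) (C1.inv_mem hνC)
    have h2 := hA1.up m h1
    have e : (s : HNNExtension G A B φ) ^ m * ν * of c * ((s : HNNExtension G A B φ) ^ m * ν)⁻¹ =
        (s : HNNExtension G A B φ) ^ m * (ν * of c * ν⁻¹) * ((s : HNNExtension G A B φ) ^ m)⁻¹ := by
      group
    rw [e]; exact h2
  · -- exhaustion
    have key : ∀ (i : ℕ) (y : HNNExtension G A B φ),
        (s : HNNExtension G A B φ) ^ i * y * ((s : HNNExtension G A B φ) ^ i)⁻¹ ∈ C1 →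
        s1 ^ i * y * (s1 ^ i)⁻¹ ∈ C1 := by
      intro i
      induction i with
      | zero => intro y hy; simpa using hy
      | succ i ih =>
        intro y hy
        have h1 := hA1.up' (show i + 1 ≤ i + m by omega) hy
        have h2 := hA1.up (i + m) hνC
        have h3 := C1.mul_mem (C1.mul_mem h2 h1) (C1.inv_mem h2)
        have h4 := ih (s1 * y * s1⁻¹) (by
          rw [hs1ν]
          have e : (s : HNNExtension G A B φ) ^ i * ((s : HNNExtension G A B φ) ^ m * ν * y *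
            ((s : HNNExtension G A B φ) ^ m * ν)⁻¹) * ((s : HNNExtension G A B φ) ^ i)⁻¹ =
            ((s : HNNExtension G A B φ) ^ (i + m) * ν * ((s : HNNExtension G A B φ) ^ (i + m))⁻¹) *
            ((s : HNNExtension G A B φ) ^ (i + m) * y * ((s : HNNExtension G A B φ) ^ (i + m))⁻¹) *
            ((s : HNNExtension G A B φ) ^ (i + m) * ν *
              ((s : HNNExtension G A B φ) ^ (i + m))⁻¹)⁻¹ := by
            rw [pow_add]; group
          rw [e]; exact h3)
        have e : s1 ^ (i + 1) * y * (s1 ^ (i + 1))⁻¹ =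
            s1 ^ i * (s1 * y * s1⁻¹) * (s1 ^ i)⁻¹ := by
          rw [pow_succ]; group
        rw [e]; exact h4
    intro x hx
    obtain ⟨i, hi⟩ := hA1.un _ ((hkr' x).mp hx)
    refine ⟨i, ?_⟩
    show of _ ∈ C1
    rw [map_mul, map_mul, map_inv, map_pow, hofz]
    exact key i _ hi

end Pool.Agent.helper444_cyc
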