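import Mathlib
import Pool.Agent.helper444_cyc.Asc2

set_option autoImplicit false

/-! The elliptic case and the conclusion for ascending HNN extensions. -/

namespace Pool.Agent.helper444_cyc

open HNNExtension Pool.Agent.Helper270.Tree Pool.Agent.Helper270.HNN

open scoped Pointwise

section Letter

variable {H : Type} [Group H] {K : Subgroup H} {χ : K →* Multiplicative ℤ} {s : K}
  {C : Subgroup H}

/-- Change of the stable letter. -/
theorem Asc.letter (h : Asc K χ s C) {z : H} (hz : z ∈ K) {m : ℕ} (hm : 0 < m)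
    (hχ : χ ⟨z, hz⟩ = (χ s) ^ m) : ∃ i, Asc K χ ⟨z, hz⟩ (shift (s : H) C i) := by
  set ν : H := ((s : H) ^ m)⁻¹ * z with hν
  have hνkr : ν ∈ kr χ := by
    refine mem_kr.mpr ⟨K.mul_mem (K.inv_mem (K.pow_mem s.2 m)) hz, ?_⟩
    have e : (⟨ν, K.mul_mem (K.inv_mem (K.pow_mem s.2 m)) hz⟩ : K) =
      (s ^ m)⁻¹ * ⟨z, hz⟩ := rfl
    rw [e, map_mul, map_inv, map_pow, hχ, inv_mul_cancel]
  have hzν : z = (s : H) ^ m * ν := by rw [hν]; group
  obtain ⟨i2, hi2⟩ := h.un ν hνkr
  have hA1 : Asc K χ s (shift (s : H) C i2) := h.shift_asc _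
  set C1 := shift (s : H) C i2 with hC1
  have hνC : ν ∈ C1 := mem_shift.mpr hi2
  refine ⟨i2, ⟨h.idx, ?_, hA1.fg, hA1.le, ?_, ?_⟩⟩
  · rw [hχ]
    intro h1
    rw [← zpow_natCast] at h1
    have := zpow_ne_one h.nt h1
    omega
  · intro c hc
    show z * c * z⁻¹ ∈ C1
    rw [hzν]
    have h1 : ν * c * ν⁻¹ ∈ C1 := C1.mul_mem (C1.mul_mem hνC hc) (C1.inv_mem hνC)
    have h2 := hA1.up m h1
    have e : (s : H) ^ m * ν * c * ((s : H) ^ m * ν)⁻¹ =
        (s : H) ^ m * (ν * c * ν⁻¹) * ((s : H) ^ m)⁻¹ := by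
      group
    rw [e]; exact h2
  · have key : ∀ (i : ℕ) (y : H),
        (s : H) ^ i * y * ((s : H) ^ i)⁻¹ ∈ C1 → z ^ i * y * (z ^ i)⁻¹ ∈ C1 := by
      intro i
      induction i with
      | zero => intro y hy; simpa using hy
      | succ i ih =>
        intro y hy
        have h1 := hA1.up' (show i + 1 ≤ i + m by omega) hy
        have h2 := hA1.up (i + m) hνC
        have h3 := C1.mul_mem (C1.mul_mem h2 h1) (C1.inv_mem h2)
        have h4 := ih (z * y * z⁻¹) (by
          rw [hzν]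
          have e : (s : H) ^ i * ((s : H) ^ m * ν * y *
            ((s : H) ^ m * ν)⁻¹) * ((s : H) ^ i)⁻¹ =
            ((s : H) ^ (i + m) * ν * ((s : H) ^ (i + m))⁻¹) *
            ((s : H) ^ (i + m) * y * ((s : H) ^ (i + m))⁻¹) *
            ((s : H) ^ (i + m) * ν *
              ((s : H) ^ (i + m))⁻¹)⁻¹ := by
            rw [pow_add]; group
          rw [e]; exact h3)
        have e : z ^ (i + 1) * y * (z ^ (i + 1))⁻¹ =
            z ^ i * (z * y * z⁻¹) * (z ^ i)⁻¹ := by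
          rw [pow_succ]; group
        rw [e]; exact h4
    intro x hx
    obtain ⟨i, hi⟩ := hA1.un _ hx
    exact ⟨i, key i _ hi⟩

/-- A power of a given element which may serve as a stable letter. -/
theorem Asc.letter' (h : Asc K χ s C) {z : H} {r : ℕ} (hz : z ^ r ∈ K)
    (hz1 : χ ⟨z ^ r, hz⟩ ≠ 1) : ∃ (k : ℤ) (hk : z ^ k ∈ K) (C1 : Subgroup H),
      Asc K χ ⟨z ^ k, hk⟩ C1 := by
  set β : ℤ := (χ ⟨z ^ r, hz⟩).toAdd with hβ
  set σ : ℤ := (χ s).toAdd with hσ
  have hβ0 : β ≠ 0 := fun h1 => hz1 (Multiplicative.toAdd.injective h1)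
  set m : ℕ := β.natAbs ^ 2 with hm
  have hmβ : (m : ℤ) = β * β := by
    rw [hm]; push_cast; rw [sq_abs]; ring
  have hmpos : 0 < m := by
    have : 0 < β.natAbs := Int.natAbs_pos.mpr hβ0
    positivity
  have hk : z ^ ((r : ℤ) * (σ * β)) ∈ K := by
    rw [zpow_mul, zpow_natCast]; exact K.zpow_mem hz _
  obtain ⟨i, hi⟩ := h.letter hk hmpos (by
    have e : (⟨z ^ ((r : ℤ) * (σ * β)), hk⟩ : K) = ⟨z ^ r, hz⟩ ^ (σ * β) := by
      ext
      push_cast
      rw [zpow_mul, zpow_natCast]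
    rw [e, map_zpow]
    apply Multiplicative.toAdd.injective
    rw [toAdd_zpow, toAdd_pow, ← hβ, ← hσ, nsmul_eq_mul, hmβ, smul_eq_mul]
    ring)
  exact ⟨_, hk, _, hi⟩

end Letter

variable {G : Type} [Group G] {A B : Subgroup G} {φ : A ≃* B}
variable {K : Subgroup (HNNExtension G A B φ)} {χ : K →* Multiplicative ℤ} {s : K}
  {C : Subgroup (HNNExtension G A B φ)}

theorem expo_pow_fix {x : HNNExtension G A B φ} {v : Vert φ} (h : x • v = v) : expo φ x = 1 := by
  have h1 := lvl_smul x v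
  rw [h] at h1
  exact (mul_eq_right.mp h1.symm)

theorem isAxis_t_pow {M : ℕ} (hM : 0 < M) : IsAxis (graph φ) ((t : HNNExtension G A B φ) ^ M)
    (fun i => vt ((t : HNNExtension G A B φ) ^ i)) M := by
  have := IsAxis.zpow (isAxis_t (φ := φ)) hM
  rwa [mul_one] at this

theorem Asc.elliptic_aux (δ : ℤ) (hδ : δ = 1 ∨ δ = -1) {ρ : ℕ} (hρ : 0 < ρ)
    (hsρ : (s : HNNExtension G A B φ)⁻¹ = t ^ (δ * ρ))
    (h : Asc K χ s C)
    (hell : ∀ n ∈ kr χ, ∃ v : Vert φ, n • v = v) (g : G) :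
    (of g : HNNExtension G A B φ)⁻¹ • (vt (t ^ δ) : Vert φ) = vt (t ^ δ) := by
  have hδδ : δ * δ = 1 := by rcases hδ with rfl | rfl <;> norm_num
  obtain ⟨x, hx⟩ := fix_of_elliptic C h.fg (fun n hn => hell n (h.le hn))
  have hv : ∀ c ∈ C, c • (vt x : Vert φ) = vt x := by
    intro c hc
    obtain ⟨g, hg⟩ := hx c hc
    rw [smul_vt, hg, inv_mul_cancel_right, vt_mul_of]
  -- the axis
  let Q : ℤ → Vert φ := fun i => vt ((t : HNNExtension G A B φ) ^ (δ * i))
  have hQt : ∀ j i : ℤ, (t : HNNExtension G A B φ) ^ j • Q i = Q (i + δ * j) := by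
    intro j i
    show (t : HNNExtension G A B φ) ^ j • vt _ = vt _
    rw [smul_vt, ← zpow_add]
    congr 2
    rw [mul_add, ← mul_assoc, hδδ]; ring
  have hQline : IsLine (graph φ) Q := by
    rcases hδ with rfl | rfl
    · have := (isAxis_t (φ := φ)).line
      simpa [Q] using this
    · have := (isAxis_t (φ := φ)).line.reverse
      simpa [Q] using this
  have hax : IsAxis (graph φ) (s : HNNExtension G A B φ)⁻¹ Q ρ :=
    ⟨hQline, hρ, fun i => by rw [hsρ, hQt, ← mul_assoc, hδδ, one_mul]⟩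
  have hlvl : ∀ i, lvl (Q i) = Multiplicative.ofAdd (δ * i) := by
    intro i
    show lvl (vt _) = _
    rw [lvl_vt, map_zpow, expo_t, ← ofAdd_zsmul]; simp
  obtain ⟨i0, hi0⟩ := hQline.exists_proj isTree (vt x)
  have hfixC : ∀ c ∈ C, ∀ i1 ≥ i0, c • Q i1 = Q i1 := by
    intro c hc i1 hi1
    set i : ℕ := (i1 - i0).toNat + 1 with hi
    have h1 := IsAxis.zpow hax (k := i) (by omega)
    obtain ⟨i', -, h2⟩ := treeAct.proj_between h1 (vt x)
    have h3 := hi0 i'
    have h4 := hi0 i1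
    have h5 : (graph φ).dist (Q i1) (((s : HNNExtension G A B φ)⁻¹) ^ i • vt x) =
        (graph φ).dist (vt x) (Q i0) + (i1 - i * ρ - i0).natAbs := by
      rw [(graph φ).dist_comm, treeAct.dist_smul_left, ← zpow_natCast, ← zpow_neg, hax.smul_zpow,
        hi0]
      congr 2
    have h6 : ((i * ρ : ℕ) : ℤ) ≥ i := by
      push_cast
      have : (1 : ℤ) ≤ ρ := by exact_mod_cast hρ
      nlinarith
    have h7 : c • ((s : HNNExtension G A B φ)⁻¹) ^ i • (vt x : Vert φ) =
        ((s : HNNExtension G A B φ)⁻¹) ^ i • vt x := by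
      have h8 := hv _ (h.up i hc)
      rw [mul_smul, mul_smul] at h8
      rw [inv_pow]
      rw [smul_eq_iff_eq_inv_smul] at h8
      exact h8
    refine treeAct.convex (hv c hc) h7 ?_
    have h9 : (graph φ).dist (vt x) (((s : HNNExtension G A B φ)⁻¹) ^ i • vt x) ≤
      (graph φ).dist (vt x) (Q i1) +
        (graph φ).dist (Q i1) (((s : HNNExtension G A B φ)⁻¹) ^ i • vt x) :=
      (isTree (φ := φ)).connected.dist_triangle
    have h10 : ((i * ρ : ℕ) : ℤ) = i * ρ := by push_cast; ring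
    omega
  have hfixN : ∀ n ∈ kr χ, ∃ i1 : ℤ, ∀ i ≥ i1, n • Q i = Q i := by
    intro n hn
    obtain ⟨j, hj⟩ := h.un n hn
    refine ⟨i0 + j * ρ, fun i hi => ?_⟩
    have h1 := hfixC _ hj (i - j * ρ) (by omega)
    have h2 := hax.smul_zpow j (i - j * ρ)
    rw [sub_add_cancel, zpow_natCast, inv_pow] at h2
    rw [mul_smul, mul_smul, h2] at h1
    rw [smul_eq_iff_eq_inv_smul, h2] at h1
    exact h1
  -- the conjugate of the stable letter
  set β : ℤ := (χ s).toAdd with hβ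
  have hβ0 : β ≠ 0 := fun h1 => h.nt (Multiplicative.toAdd.injective h1)
  obtain ⟨r, hr, -, hrK⟩ := Subgroup.exists_pow_mem_of_index_ne_zero h.idx
    ((of g : HNNExtension G A B φ) * t * (of g)⁻¹)
  set k : HNNExtension G A B φ := (of g : HNNExtension G A B φ) * t * (of g)⁻¹ with hk
  set κ : ℤ := (χ ⟨k ^ r, hrK⟩).toAdd with hκ
  have hy : (k ^ r) ^ β * ((s : HNNExtension G A B φ) ^ κ)⁻¹ ∈ kr χ := by
    refine mem_kr.mpr ⟨K.mul_mem (K.zpow_mem hrK _) (K.inv_mem (K.zpow_mem s.2 _)), ?_⟩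
    have e : (⟨(k ^ r) ^ β * ((s : HNNExtension G A B φ) ^ κ)⁻¹,
        K.mul_mem (K.zpow_mem hrK _) (K.inv_mem (K.zpow_mem s.2 _))⟩ : K) =
      ⟨k ^ r, hrK⟩ ^ β * (s ^ κ)⁻¹ := rfl
    rw [e, map_mul, map_inv, map_zpow, map_zpow]
    apply Multiplicative.toAdd.injective
    rw [toAdd_mul, toAdd_inv, toAdd_zpow, toAdd_zpow, toAdd_one, ← hβ, ← hκ, smul_eq_mul,
      smul_eq_mul]
    ring
  obtain ⟨i1, hi1⟩ := hfixN _ hy
  set M : ℤ := r * β with hM
  have hM0 : M ≠ 0 := mul_ne_zero (by exact_mod_cast hr.ne') hβ0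
  have hkM : (k ^ r) ^ β = of g * t ^ M * (of g)⁻¹ := by
    rw [hk, conj_pow, conj_zpow, ← zpow_natCast, ← zpow_mul]
  set i : ℤ := max 1 (i1 + ρ * κ) with hi
  have hi1' : 1 ≤ i := le_max_left _ _
  have hi2 : i1 + ρ * κ ≤ i := le_max_right _ _
  have hmove : (k ^ r) ^ β • Q i = Q (i - ρ * κ) := by
    have h1 := hi1 (i - ρ * κ) (by omega)
    have h2 := hax.smul_zpow (-κ) i
    rw [inv_zpow, zpow_neg, inv_inv] at h2
    have h3 : i + -κ * ρ = i - ρ * κ := by ring
    rw [h3] at h2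
    rw [mul_smul, ← h2, inv_smul_smul] at h1
    rw [← h2]; exact h1
  have hMκ : M = - (δ * (ρ * κ)) := by
    have h1 := congrArg lvl hmove
    rw [lvl_smul, hlvl, hlvl, hkM] at h1
    have h2 := congrArg Multiplicative.toAdd h1
    simp only [map_mul, expo_of, map_inv, map_zpow, expo_t, one_mul, inv_one, mul_one, toAdd_mul,
      toAdd_zpow, toAdd_ofAdd, smul_eq_mul] at h2
    linarith
  have hδM : i - ρ * κ = i + δ * M := by
    rw [hMκ]
    have : δ * -(δ * (ρ * κ)) = - ((δ * δ) * (ρ * κ)) := by ring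
    rw [this, hδδ]; ring
  have hu : (t : HNNExtension G A B φ) ^ M • (of g : HNNExtension G A B φ)⁻¹ • Q i =
      (of g : HNNExtension G A B φ)⁻¹ • Q (i + δ * M) := by
    rw [hkM, mul_smul, mul_smul, hδM] at hmove
    rwa [smul_eq_iff_eq_inv_smul] at hmove
  have hdist : (graph φ).dist ((of g : HNNExtension G A B φ)⁻¹ • Q i)
      ((t : HNNExtension G A B φ) ^ M • (of g : HNNExtension G A B φ)⁻¹ • Q i) = M.natAbs := by
    rw [hu, treeAct.dist_smul, hQline.dist isTree]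
    rcases hδ with rfl | rfl <;> omega
  have hmem : ∃ i', (of g : HNNExtension G A B φ)⁻¹ • Q i =
      vt ((t : HNNExtension G A B φ) ^ (i' : ℤ)) := by
    apply treeAct.mem_axis (isAxis_t_pow (φ := φ) (M := M.natAbs) (by omega))
    rw [← zpow_natCast]
    rcases Int.natAbs_eq M with h1 | h1
    · rw [← h1]; exact hdist.le
    · have h2 : (M.natAbs : ℤ) = - M := by omega
      rw [h2, (graph φ).dist_comm, treeAct.dist_smul_left, ← zpow_neg, neg_neg]
      exact hdist.le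
  obtain ⟨i', hi'⟩ := hmem
  have hfix : (of g : HNNExtension G A B φ)⁻¹ • Q i = Q i := by
    rw [hi']
    have h1 := congrArg lvl hi'
    rw [lvl_smul, hlvl, lvl_vt, map_inv, expo_of, inv_one, one_mul, map_zpow, expo_t,
      ← ofAdd_zsmul] at h1
    have h2 := Multiplicative.ofAdd.injective h1
    rw [smul_eq_mul, mul_one] at h2
    rw [← h2]
  have hfix0 : (of g : HNNExtension G A B φ)⁻¹ • Q 0 = Q 0 := by
    show (of g : HNNExtension G A B φ)⁻¹ • vt _ = vt _
    rw [mul_zero, zpow_zero, smul_vt, mul_one, ← map_inv, eq_comm, vt_eq_iff]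
    exact ⟨g⁻¹, one_mul _⟩
  have h1 := treeAct.convex (z := Q 1) hfix0 hfix (by
    rw [hQline.dist isTree, hQline.dist isTree, hQline.dist isTree]; omega)
  have h2 : Q 1 = vt ((t : HNNExtension G A B φ) ^ δ) := by
    show vt _ = vt _
    rw [mul_one]
  rwa [h2] at h1

theorem Asc.elliptic (h : Asc K χ s C) (hell : ∀ n ∈ kr χ, ∃ v : Vert φ, n • v = v) :
    A = ⊤ ∨ B = ⊤ := by
  obtain ⟨r, hr, -, hrK⟩ := Subgroup.exists_pow_mem_of_index_ne_zero h.idx
    (t : HNNExtension G A B φ)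
  have hnt : χ ⟨t ^ r, hrK⟩ ≠ 1 := by
    intro h1
    obtain ⟨v, hv⟩ := hell _ (mem_kr.mpr ⟨hrK, h1⟩)
    have h2 := expo_pow_fix hv
    rw [map_pow, expo_t, ← ofAdd_nsmul] at h2
    have h3 := congrArg Multiplicative.toAdd h2
    simp at h3
    omega
  obtain ⟨k, hk, C1, h1⟩ := h.letter' hrK hnt
  have hk0 : k ≠ 0 := by
    rintro rfl
    apply h1.nt
    have : (⟨t ^ (0 : ℤ), hk⟩ : K) = 1 := by ext; simp
    rw [this, map_one]
  rcases lt_or_gt_of_ne hk0 with hneg | hpos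
  · right
    rw [eq_top_iff]
    intro g _
    have h2 := h1.elliptic_aux 1 (Or.inl rfl) (ρ := k.natAbs) (by omega) (by
      show ((t : HNNExtension G A B φ) ^ k)⁻¹ = _
      rw [← zpow_neg]; congr 1; omega) hell g
    have h3 := (fix_t (φ := φ) 1 g⁻¹).mp (by
      rw [zpow_one] at h2
      rw [map_one, one_mul, map_inv]; exact h2)
    have h4 : g⁻¹ ∈ B := by simpa using h3
    exact (Subgroup.inv_mem_iff _).mp h4
  · left
    rw [eq_top_iff]
    intro g _
    have h2 := h1.elliptic_aux (-1) (Or.inr rfl) (ρ := k.natAbs) (by omega) (by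
      show ((t : HNNExtension G A B φ) ^ k)⁻¹ = _
      rw [← zpow_neg]; congr 1; omega) hell g
    have h3 := (fix_t_inv (φ := φ) 1 g⁻¹).mp (by
      rw [zpow_neg, zpow_one] at h2
      rw [map_one, one_mul, map_inv]; exact h2)
    have h4 : g⁻¹ ∈ A := by simpa using h3
    exact (Subgroup.inv_mem_iff _).mp h4

/-- A cyclic group is not isomorphic to an HNN extension of itself. -/
theorem not_cyclic {c : G} (hc : ∀ x : G, x ∈ Subgroup.zpowers c)
    (e : HNNExtension G A B φ ≃* G) : False := by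
  have h1 : ∀ y : HNNExtension G A B φ, ∃ k : ℤ, (e.symm c) ^ k = y := by
    intro y
    obtain ⟨k, hk⟩ := Subgroup.mem_zpowers_iff.mp (hc (e y))
    exact ⟨k, by rw [← map_zpow, hk, MulEquiv.symm_apply_apply]⟩
  obtain ⟨k, hk⟩ := h1 t
  have h2 : expo φ (e.symm c) ≠ 1 := by
    intro h3
    have h4 := congrArg (expo φ) hk
    rw [map_zpow, h3, one_zpow, expo_t] at h4
    have h5 := congrArg Multiplicative.toAdd h4
    simp at h5
  have h3 : ∀ g : G, g = 1 := by
    intro g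
    obtain ⟨j, hj⟩ := h1 (of g)
    have h4 := congrArg (expo φ) hj
    rw [map_zpow, expo_of] at h4
    have h5 := zpow_ne_one h2 h4
    rw [h5, zpow_zero] at hj
    exact of_injective (φ := φ) (by rw [← hj, map_one])
  apply h2
  have h4 := h3 c
  rw [h4, map_one, map_one]

theorem Asc.false (a0 : A) (ha0 : ∀ c : A, c ∈ Subgroup.zpowers a0)
    (e : HNNExtension G A B φ ≃* G) : ∀ (n : ℕ) (K : Subgroup (HNNExtension G A B φ))
      (χ : K →* Multiplicative ℤ) (s : K) (C : Subgroup (HNNExtension G A B φ)),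
      Asc K χ s C → b1 C = n → False := by
  intro n
  induction n using Nat.strong_induction_on with
  | _ n ih =>
    intro K χ s C h hn
    by_cases hell : ∀ n ∈ kr χ, ∃ v : Vert φ, n • v = v
    · rcases h.elliptic hell with h1 | h1
      · refine not_cyclic (c := (a0 : G)) ?_ e
        intro x
        obtain ⟨k, hk⟩ := Subgroup.mem_zpowers_iff.mp (ha0 ⟨x, by rw [h1]; trivial⟩)
        exact Subgroup.mem_zpowers_iff.mpr ⟨k, by simpa using congrArg (fun c : A => (c : G)) hk⟩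
      · refine not_cyclic (c := bb φ a0) ?_ e
        intro x
        rw [← B_eq a0 ha0, h1]; trivial
    · push Not at hell
      obtain ⟨h0, hh0, hyp⟩ := hell
      obtain ⟨K', χ', s', C', h1, h2⟩ := h.step a0 ha0 hh0 hyp
      have h3 := h1.map e.symm
      rw [hn] at h2
      rw [b1_congr (e.symm.subgroupMap C')] at h2
      exact ih _ h2 _ _ _ _ h3 rfl

end Pool.Agent.helper444_cyc
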