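import Mathlib
import Pool.Agent.helper444_cyc.Asc3

set_option autoImplicit false

/-! Ascending HNN extensions of finitely generated groups, as subgroups of finite index. -/

namespace Pool.Agent.helper444_cyc

open HNNExtension Pool.Agent.Helper270.Tree Pool.Agent.Helper270.HNN

open scoped Pointwise

section NF

variable {D : Type} [Group D] {D' : Subgroup D} (ψ : (⊤ : Subgroup D) ≃* D')

theorem of_up (d : D) (i : ℕ) : ∃ d' : D,
    (t : HNNExtension D ⊤ D' ψ) ^ i * of d = of d' * t ^ i := by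
  induction i generalizing d with
  | zero => exact ⟨d, by simp⟩
  | succ i ih =>
    obtain ⟨d', hd'⟩ := ih (ψ ⟨d, trivial⟩ : D)
    refine ⟨d', ?_⟩
    have h1 : (t : HNNExtension D ⊤ D' ψ) * of d = of ((ψ ⟨d, trivial⟩ : D') : D) * t :=
      t_mul_of (⟨d, trivial⟩ : (⊤ : Subgroup D))
    rw [pow_succ, mul_assoc, h1, ← mul_assoc, hd', mul_assoc]

/-- The normal form of elements of an ascending HNN extension. -/
theorem asc_nf (y : HNNExtension D ⊤ D' ψ) : ∃ i0 : ℤ, ∀ i ≥ i0, ∃ d : D,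
    (t : HNNExtension D ⊤ D' ψ) ^ i * y = of d * t ^ (i + (expo ψ y).toAdd) := by
  induction y using HNNExtension.induction_on with
  | of d =>
    refine ⟨0, fun i hi => ?_⟩
    obtain ⟨d', hd'⟩ := of_up ψ d i.toNat
    refine ⟨d', ?_⟩
    rw [expo_of, toAdd_one, add_zero]
    rw [← zpow_natCast, Int.toNat_of_nonneg hi] at hd'
    exact hd'
  | t =>
    refine ⟨0, fun i _ => ⟨1, ?_⟩⟩
    rw [expo_t, toAdd_ofAdd, map_one, one_mul, zpow_add_one]
  | mul x y hx hy =>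
    obtain ⟨i1, hi1⟩ := hx
    obtain ⟨i2, hi2⟩ := hy
    refine ⟨max i1 (i2 - (expo ψ x).toAdd), fun i hi => ?_⟩
    obtain ⟨d1, h1⟩ := hi1 i (le_trans (le_max_left _ _) hi)
    obtain ⟨d2, h2⟩ := hi2 (i + (expo ψ x).toAdd) (by
      have := le_trans (le_max_right _ _) hi
      omega)
    refine ⟨d1 * d2, ?_⟩
    rw [← mul_assoc, h1, mul_assoc, h2, ← mul_assoc, ← map_mul, map_mul (expo ψ), toAdd_mul,
      add_assoc]
  | inv x hx =>
    obtain ⟨i1, hi1⟩ := hx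
    refine ⟨i1 + (expo ψ x).toAdd, fun i hi => ?_⟩
    obtain ⟨d, h1⟩ := hi1 (i - (expo ψ x).toAdd) (by omega)
    refine ⟨d⁻¹, ?_⟩
    rw [sub_add_cancel] at h1
    rw [map_inv, map_inv, toAdd_inv, ← sub_eq_add_neg, eq_inv_mul_iff_mul_eq, ← mul_assoc, ← h1,
      mul_inv_cancel_right]

theorem asc_nf' (y : HNNExtension D ⊤ D' ψ) (hy : expo ψ y = 1) : ∃ (i : ℕ) (d : D),
    (t : HNNExtension D ⊤ D' ψ) ^ i * y * (t ^ i)⁻¹ = of d := by
  obtain ⟨i0, h0⟩ := asc_nf ψ y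
  obtain ⟨d, hd⟩ := h0 (i0.natAbs : ℤ) (by omega)
  refine ⟨i0.natAbs, d, ?_⟩
  rw [hy, toAdd_one, add_zero, zpow_natCast] at hd
  rw [hd, mul_inv_cancel_right]

end NF

theorem asc_of_equiv {H D : Type} [Group H] [Group D] [Group.FG D] (D' : Subgroup D)
    (ψ : (⊤ : Subgroup D) ≃* D') (K : Subgroup H) (hK : K.index ≠ 0)
    (f : HNNExtension D ⊤ D' ψ ≃* K) :
    ∃ (χ : K →* Multiplicative ℤ) (s : K) (C : Subgroup H), Asc K χ s C := by
  let j : D →* H := (K.subtype.comp (f : HNNExtension D ⊤ D' ψ →* K)).comp of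
  have hj : ∀ d, j d = (f (of d) : H) := fun d => rfl
  refine ⟨(expo ψ).comp (f.symm : K →* HNNExtension D ⊤ D' ψ), f t, j.range, ⟨hK, ?_, ?_, ?_,
    ?_, ?_⟩⟩
  · show expo ψ (f.symm (f t)) ≠ 1
    rw [MulEquiv.symm_apply_apply, expo_t]
    intro h1
    have := congrArg Multiplicative.toAdd h1
    simp at this
  · exact (Group.fg_iff_subgroup_fg _).mp (Group.fg_of_surjective (f := j.rangeRestrict)
      j.rangeRestrict_surjective)
  · rintro _ ⟨d, rfl⟩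
    refine mem_kr.mpr ⟨(f (of d)).2, ?_⟩
    show expo ψ (f.symm (f (of d))) = 1
    rw [MulEquiv.symm_apply_apply, expo_of]
  · rintro _ ⟨d, rfl⟩
    refine ⟨((ψ ⟨d, trivial⟩ : D') : D), ?_⟩
    have h1 : (t : HNNExtension D ⊤ D' ψ) * of d = of ((ψ ⟨d, trivial⟩ : D') : D) * t :=
      t_mul_of (⟨d, trivial⟩ : (⊤ : Subgroup D))
    have h2 : of ((ψ ⟨d, trivial⟩ : D') : D) = (t : HNNExtension D ⊤ D' ψ) * of d * t⁻¹ := by
      rw [h1]; group
    rw [hj, hj, h2, map_mul, map_mul, map_inv]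
    rfl
  · intro x hx
    obtain ⟨hxK, h1⟩ := mem_kr.mp hx
    obtain ⟨i, d, h2⟩ := asc_nf' ψ (f.symm ⟨x, hxK⟩) h1
    refine ⟨i, d, ?_⟩
    rw [hj, ← h2, map_mul, map_mul, map_inv, map_pow, MulEquiv.apply_symm_apply]
    rfl

theorem asc_main {G D : Type} [Group G] [Group D] [Group.FG D] (D' : Subgroup D)
    (ψ : (⊤ : Subgroup D) ≃* D') (K : Subgroup G) (hK : K.index ≠ 0)
    (f : HNNExtension D ⊤ D' ψ ≃* K) (a b : G)
    (φ : Subgroup.zpowers a ≃* Subgroup.zpowers b) :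
    IsEmpty (HNNExtension G (Subgroup.zpowers a) (Subgroup.zpowers b) φ ≃* G) := by
  refine ⟨fun e => ?_⟩
  obtain ⟨χ, s, C, h⟩ := asc_of_equiv D' ψ K hK f
  have h1 := h.map e.symm
  refine Asc.false ⟨a, Subgroup.mem_zpowers a⟩ ?_ e _ _ _ _ _ h1 rfl
  rintro ⟨c, hc⟩
  obtain ⟨k, rfl⟩ := Subgroup.mem_zpowers_iff.mp hc
  exact Subgroup.mem_zpowers_iff.mpr ⟨k, rfl⟩

end Pool.Agent.helper444_cyc
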