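import Mathlib
import Pool.Agent.helper444_cyc.Descent

set_option autoImplicit false

/-! The elliptic case. -/

namespace Pool.Agent.helper444_cyc

open HNNExtension Pool.Agent.Helper270.Tree Pool.Agent.Helper270.HNN

open scoped Pointwise

section Q

variable {H K : Type} [Group H] [Group K]

/-- The homomorphisms to the rationals which vanish at `z`. -/
def X (z : H) : Submodule ℚ (Additive H →+ ℚ) where
  carrier := {c | c (Additive.ofMul z) = 0}
  add_mem' := by
    intro a b ha hb
    show a _ + b _ = 0
    rw [show a (Additive.ofMul z) = 0 from ha, show b (Additive.ofMul z) = 0 from hb, add_zero]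
  zero_mem' := rfl
  smul_mem' := by
    intro r a ha
    show r • a _ = 0
    rw [show a (Additive.ofMul z) = 0 from ha, smul_zero]

theorem mem_X {z : H} {c : Additive H →+ ℚ} : c ∈ X z ↔ c (Additive.ofMul z) = 0 := Iff.rfl

/-- The dimension of the space of homomorphisms to the rationals which vanish at `z`. -/
noncomputable def q (z : H) : ℕ := Module.finrank ℚ (X z)

theorem hom_zpow (c : Additive H →+ ℚ) (x : H) (k : ℤ) :
    c (Additive.ofMul (x ^ k)) = k * c (Additive.ofMul x) := by
  rw [ofMul_zpow, map_zsmul, zsmul_eq_mul]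

theorem hom_pow (c : Additive H →+ ℚ) (x : H) (k : ℕ) :
    c (Additive.ofMul (x ^ k)) = k * c (Additive.ofMul x) := by
  rw [ofMul_pow, map_nsmul, nsmul_eq_mul]

theorem hom_conj (c : Additive H →+ ℚ) (x y : H) :
    c (Additive.ofMul (x * y * x⁻¹)) = c (Additive.ofMul y) := by
  rw [ofMul_mul, ofMul_mul, ofMul_inv, map_add, map_add, map_neg]; ring

theorem X_conj (x y : H) : X (x * y * x⁻¹) = X y := by
  ext c
  rw [mem_X, mem_X, hom_conj]

theorem q_congr (e : H ≃* K) (z : H) : q z = q (e z) := by
  unfold q
  apply LinearEquiv.finrank_eq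
  refine LinearEquiv.ofLinearMap
    (LinearMap.restrict (p := X z) (q := X (e z)) (pull (e.symm : K →* H)) ?_)
    (LinearMap.restrict (p := X (e z)) (q := X z) (pull (e : H →* K)) ?_) ?_ ?_
  · intro c hc
    rw [mem_X] at hc ⊢
    change c (Additive.ofMul (e.symm (e z))) = 0
    rwa [MulEquiv.symm_apply_apply]
  · intro c hc
    rw [mem_X] at hc ⊢
    exact hc
  · ext c x
    change c.1 (Additive.ofMul (e (e.symm x))) = _
    rw [MulEquiv.apply_symm_apply]; rfl
  · ext c x
    change c.1 (Additive.ofMul (e.symm (e x))) = _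
    rw [MulEquiv.symm_apply_apply]; rfl

theorem finrank_lt {V W : Type} [AddCommGroup V] [AddCommGroup W] [Module ℚ V] [Module ℚ W]
    [Module.Finite ℚ V] (R : V →ₗ[ℚ] W) (hs : Function.Surjective R) (v : V) (hv : v ≠ 0)
    (hRv : R v = 0) : Module.finrank ℚ W < Module.finrank ℚ V := by
  have h2 := LinearMap.finrank_range_add_finrank_ker R
  rw [LinearMap.range_eq_top.mpr hs, finrank_top] at h2
  have h3 : 0 < Module.finrank ℚ (LinearMap.ker R) := by
    have : Nontrivial (LinearMap.ker R) := by
      rw [Submodule.nontrivial_iff_ne_bot, Submodule.ne_bot_iff]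
      exact ⟨v, hRv, hv⟩
    exact Module.finrank_pos
  omega

theorem zpowers_inf {z : H} (h : Infinite (Subgroup.zpowers z)) {k : ℤ} (hk : z ^ k = 1) :
    k = 0 := by
  by_contra hk0
  have h1 : IsOfFinOrder z := isOfFinOrder_iff_zpow_eq_one.mpr ⟨k, hk0, hk⟩
  have h2 : Finite (Subgroup.zpowers z) := h1.finite_zpowers
  exact h2.false

end Q

variable {G : Type} [Group G] {A B : Subgroup G} {φ : A ≃* B}

theorem exists_cyclic (a0 : A) (ha0 : ∀ c : A, c ∈ Subgroup.zpowers a0)
    (N : Subgroup (HNNExtension G A B φ)) (hN : Nice N)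
    (hell : ∀ n ∈ N, ∃ v : Vert φ, n • v = v) :
    ∃ z : HNNExtension G A B φ, Nice (Subgroup.zpowers z) := by
  obtain ⟨x, hx⟩ := fix_of_elliptic N hN.fg hell
  set b0 : HNNExtension G A B φ := of (bb φ a0) with hb0
  have hB := B_eq (φ := φ) a0 ha0
  -- the subgroup `x ⟨b0⟩ x⁻¹` has finite index in `N`
  have h1 : (Subgroup.zpowers (x * b0 * x⁻¹)).relIndex N ≠ 0 := by
    have h2 := (comm_iff.mp hN.comm) (x * t * x⁻¹)
    intro h3
    apply h2
    rw [← Subgroup.inf_relIndex_right] at h3 ⊢
    apply Subgroup.relIndex_eq_zero_of_le_left _ h3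
    refine le_inf ?_ inf_le_right
    intro y hy
    obtain ⟨hy1, hy2⟩ := Subgroup.mem_inf.mp hy
    rw [Subgroup.mem_pointwise_smul_iff_inv_smul_mem] at hy1
    rw [← ConjAct.toConjAct_inv, ConjAct.smul_def, ConjAct.ofConjAct_toConjAct] at hy1
    obtain ⟨g, hg⟩ := hx _ hy1
    obtain ⟨g', hg'⟩ := hx y hy2
    have h4 : (t : HNNExtension G A B φ)⁻¹ * of g' * t = of g := by
      have h5 : (x * t * x⁻¹)⁻¹ * y * (x * t * x⁻¹)⁻¹⁻¹ = x * (t⁻¹ * of g' * t) * x⁻¹ := by
        rw [hg']; group
      rw [h5] at hg
      exact mul_left_cancel (mul_right_cancel hg)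
    have h5 : g' ∈ B := (conj_t (φ := φ) g').mp ⟨g, h4⟩
    rw [hB] at h5
    obtain ⟨k, hk⟩ := Subgroup.mem_zpowers_iff.mp h5
    rw [Subgroup.mem_zpowers_iff]
    refine ⟨k, ?_⟩
    rw [conj_zpow, hb0, ← map_zpow, hk, hg']
  obtain ⟨k, hk, hkN, hk1⟩ := inf_zpowers hN.inf h1
  have h2 : (Subgroup.zpowers ((x * b0 * x⁻¹) ^ k)).relIndex N ≠ 0 :=
    Subgroup.relIndex_ne_zero_trans (zpowers_pow_relIndex _ hk) h1
  have hle : Subgroup.zpowers ((x * b0 * x⁻¹) ^ k) ≤ N := by rwa [Subgroup.zpowers_le]
  have h3 : Subgroup.Commensurable (Subgroup.zpowers ((x * b0 * x⁻¹) ^ k)) N := by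
    refine ⟨h2, ?_⟩
    rw [Subgroup.relIndex_eq_one.mpr hle]
    exact one_ne_zero
  refine ⟨(x * b0 * x⁻¹) ^ k, ⟨⟨{(x * b0 * x⁻¹) ^ k}, by simp [Subgroup.zpowers_eq_closure]⟩,
    ?_, ?_, ?_⟩⟩
  · by_contra hfin
    rw [not_infinite_iff_finite] at hfin
    have h4 : (⊥ : Subgroup (HNNExtension G A B φ)).relIndex N ≠ 0 := by
      refine Subgroup.relIndex_ne_zero_trans ?_ h2
      rw [Subgroup.relIndex_bot_left]
      exact Nat.card_pos.ne'
    rw [Subgroup.relIndex_bot_left] at h4
    have := hN.inf
    exact h4 Nat.card_eq_zero_of_infinite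
  · have h4 := Subgroup.relIndex_mul_index hle
    rw [← h4, hN.idx, mul_zero]
  · rw [Subgroup.Commensurable.eq h3]
    exact hN.comm

/-- The descent for commensurated cyclic subgroups. -/
theorem caseA [hfg : Group.FG (HNNExtension G A B φ)] (a0 : A)
    (ha0 : ∀ c : A, c ∈ Subgroup.zpowers a0)
    (z : HNNExtension G A B φ) (hN : Nice (Subgroup.zpowers z)) : B.index ≠ 0 ∨
      ∃ h : G, Nice (Subgroup.zpowers h) ∧ q h < q z := by
  classical
  have hB := B_eq (φ := φ) a0 ha0
  by_cases hhyp : ∃ n ∈ Subgroup.zpowers z, ∀ v : Vert φ, n • v ≠ v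
  · obtain ⟨n, hn, hnv⟩ := hhyp
    rcases caseB a0 ha0 _ hN hn hnv with h1 | ⟨h1, -⟩
    · exact Or.inl h1
    · exfalso
      obtain ⟨i, rfl⟩ := Subgroup.mem_zpowers_iff.mp hn
      have hi : i ≠ 0 := by
        rintro rfl
        exact hnv (vt 1) (by simp)
      have h2 := h1.inf
      obtain ⟨g, hg⟩ := (Subgroup.nontrivial_iff_exists_ne_one _).mp
        (inferInstance : Nontrivial ((Subgroup.zpowers z).comap
          (of : G →* HNNExtension G A B φ)))
      obtain ⟨j, hj⟩ := Subgroup.mem_zpowers_iff.mp (show (of g : HNNExtension G A B φ) ∈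
        Subgroup.zpowers z from hg.1)
      have hj0 : j ≠ 0 := by
        rintro rfl
        apply hg.2
        apply of_injective (φ := φ)
        rw [← hj, zpow_zero, map_one]
      obtain ⟨L, l, hax⟩ := (treeAct (φ := φ)).exists_axis hnv
      have h3 : ∀ m, (z ^ i) ^ j • L m = L (j * l + m) := by
        intro m
        rw [hax.smul_zpow]; congr 1; ring
      have h4 : (z ^ i) ^ j • (vt 1 : Vert φ) = vt 1 := by
        rw [← zpow_mul, mul_comm i j, zpow_mul, hj, ← map_zpow, stab_one]
        exact ⟨_, rfl⟩
      have h5 := trans_zero treeAct hax.line h3 h4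
      have h6 := hax.pos
      rcases mul_eq_zero.mp h5 with h7 | h7
      · exact hj0 h7
      · omega
  · push Not at hhyp
    obtain ⟨x, hx⟩ := fix_of_elliptic _ hN.fg hhyp
    obtain ⟨h, hh⟩ := hx z (Subgroup.mem_zpowers z)
    have hofh : x⁻¹ * z * x = of h := by rw [hh]; group
    -- elements of `B` and `A`
    have key : ∀ y : HNNExtension G A B φ, ∃ p : ℕ, 0 < p ∧ ∃ j : ℤ,
        y * (of h) ^ p * y⁻¹ = of (h ^ j) := by
      intro y
      obtain ⟨p, hp, h1⟩ := comm_pow hN.comm (x * y * x⁻¹) (Subgroup.mem_zpowers z)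
      obtain ⟨j, hj⟩ := Subgroup.mem_zpowers_iff.mp h1
      refine ⟨p, hp, j, ?_⟩
      have h2 : y * (of h) ^ p * y⁻¹ =
          x⁻¹ * ((x * y * x⁻¹) * z ^ p * (x * y * x⁻¹)⁻¹) * x := by
        rw [hh, conj_pow]; group
      have h3 : (of (h ^ j) : HNNExtension G A B φ) = x⁻¹ * z ^ j * x := by
        rw [hh, conj_zpow, map_zpow]; group
      rw [h2, h3, hj]
    obtain ⟨p, hp, j, h1⟩ := key t⁻¹
    obtain ⟨p', hp', j', h1'⟩ := key t
    have hpB : h ^ p ∈ B := by
      rw [← conj_t (φ := φ)]
      refine ⟨h ^ j, ?_⟩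
      rw [map_pow, ← h1, inv_inv]
    have hpA : h ^ p' ∈ A := by
      rw [← conj_t_inv (φ := φ)]
      refine ⟨h ^ j', ?_⟩
      rw [map_pow, ← h1']
    have hinfh : ∀ k : ℤ, h ^ k = 1 → k = 0 := by
      intro k hk
      apply zpowers_inf hN.inf
      rw [hh, conj_zpow, ← map_zpow, hk]; simp
    rw [hB] at hpB
    obtain ⟨i, hi⟩ := Subgroup.mem_zpowers_iff.mp hpB
    obtain ⟨i', hi'⟩ := Subgroup.mem_zpowers_iff.mp (ha0 ⟨_, hpA⟩)
    have hi'' : (a0 : G) ^ i' = h ^ p' := by
      have := congrArg (fun c : A => (c : G)) hi'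
      simpa using this
    have hi0 : i ≠ 0 := by
      rintro rfl
      have := hinfh p (by rw [zpow_natCast, ← hi, zpow_zero])
      omega
    have hi0' : i' ≠ 0 := by
      rintro rfl
      have := hinfh p' (by rw [zpow_natCast, ← hi'', zpow_zero])
      omega
    by_cases hidx : (Subgroup.zpowers h).index = 0
    · right
      refine ⟨h, ⟨⟨{h}, by simp [Subgroup.zpowers_eq_closure]⟩, ?_, hidx, ?_⟩, ?_⟩
      · rw [← not_finite_iff_infinite]
        intro hf
        have h2 : IsOfFinOrder h := by
          rw [← finite_zpowers]; exact Set.toFinite _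
        obtain ⟨k, hk, hk1⟩ := isOfFinOrder_iff_zpow_eq_one.mp h2
        exact hk (hinfh k hk1)
      · -- commensurated
        have h2 : Subgroup.Commensurable.commensurator
            (Subgroup.zpowers (of h : HNNExtension G A B φ)) = ⊤ := by
          have h3 : Subgroup.zpowers (of h : HNNExtension G A B φ) =
              ConjAct.toConjAct x⁻¹ • Subgroup.zpowers z := by
            ext y
            rw [Subgroup.mem_pointwise_smul_iff_inv_smul_mem, Subgroup.mem_zpowers_iff,
              Subgroup.mem_zpowers_iff, ← ConjAct.toConjAct_inv, inv_inv, ConjAct.smul_def,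
              ConjAct.ofConjAct_toConjAct]
            constructor
            · rintro ⟨k, rfl⟩
              exact ⟨k, by rw [hh, conj_zpow]⟩
            · rintro ⟨k, hk⟩
              refine ⟨k, ?_⟩
              rw [← hofh]
              have : (x⁻¹ * z * x) ^ k = x⁻¹ * z ^ k * x := by
                have := conj_zpow (a := x⁻¹) (b := z) (i := k)
                rwa [inv_inv] at this
              rw [this, hk]; group
          rw [h3]
          have h4 : Subgroup.Commensurable (ConjAct.toConjAct x⁻¹ • Subgroup.zpowers z)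
              (Subgroup.zpowers z) := by
            have : x⁻¹ ∈ Subgroup.Commensurable.commensurator (Subgroup.zpowers z) := by
              rw [hN.comm]; trivial
            exact this
          rw [Subgroup.Commensurable.eq h4]
          exact hN.comm
        have h3 : Subgroup.zpowers h = (Subgroup.zpowers (of h : HNNExtension G A B φ)).comap
            (of : G →* HNNExtension G A B φ) := by
          ext y
          rw [Subgroup.mem_comap, Subgroup.mem_zpowers_iff, Subgroup.mem_zpowers_iff]
          constructor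
          · rintro ⟨k, rfl⟩
            exact ⟨k, (map_zpow _ _ _).symm⟩
          · rintro ⟨k, hk⟩
            refine ⟨k, of_injective (φ := φ) ?_⟩
            rw [map_zpow]; exact hk
        rw [h3]
        exact comm_comap _ h2
      · -- the dimension
        have hfin := finite_hom (H := HNNExtension G A B φ)
        have hqz : q z = q (of h : HNNExtension G A B φ) := by
          unfold q
          rw [hh, X_conj]
        rw [hqz]
        let R : X (of h : HNNExtension G A B φ) →ₗ[ℚ] X h :=
          LinearMap.restrict (pull (of : G →* HNNExtension G A B φ)) (by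
            intro c hc
            exact hc)
        have hR : ∀ (c : X (of h : HNNExtension G A B φ)) (g : G),
          (R c).1 (Additive.ofMul g) = c.1 (Additive.ofMul (of g)) := fun c g => rfl
        have hsurj : Function.Surjective R := by
          intro c
          have hc : c.1 (Additive.ofMul h) = 0 := c.2
          have h2 : c.1 (Additive.ofMul (bb φ a0)) = 0 := by
            have h3 := hom_zpow c.1 (bb φ a0) i
            rw [hi, hom_pow, hc, mul_zero] at h3
            rcases mul_eq_zero.mp h3.symm with h4 | h4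
            · exact absurd (by exact_mod_cast h4) hi0
            · exact h4
          have h2' : c.1 (Additive.ofMul (a0 : G)) = 0 := by
            have h3 := hom_zpow c.1 (a0 : G) i'
            rw [hi'', hom_pow, hc, mul_zero] at h3
            rcases mul_eq_zero.mp h3.symm with h4 | h4
            · exact absurd (by exact_mod_cast h4) hi0'
            · exact h4
          let F : HNNExtension G A B φ →* Multiplicative ℚ :=
            lift (AddMonoidHom.toMultiplicativeRight c.1) 1 (by
              intro d
              obtain ⟨k, rfl⟩ := Subgroup.mem_zpowers_iff.mp (ha0 d)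
              rw [one_mul, mul_one, map_zpow]
              push_cast
              show Multiplicative.ofAdd (c.1 (Additive.ofMul ((a0 : G) ^ k))) =
                Multiplicative.ofAdd (c.1 (Additive.ofMul ((bb φ a0) ^ k)))
              rw [hom_zpow, hom_zpow, h2, h2'])
          refine ⟨⟨MonoidHom.toAdditiveLeft F, ?_⟩, ?_⟩
          · rw [mem_X]
            show (F (of h)).toAdd = 0
            simp only [F, lift_of]
            exact hc
          · ext g
            show (F (of g)).toAdd = _
            simp only [F, lift_of]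
        let F : HNNExtension G A B φ →* Multiplicative ℚ :=
          lift 1 (Multiplicative.ofAdd 1) (by intro d; simp)
        have hF : MonoidHom.toAdditiveLeft F ∈ X (of h : HNNExtension G A B φ) := by
          rw [mem_X]
          show (F (of h)).toAdd = 0
          simp [F]
        unfold q
        refine finrank_lt (V := X (of h : HNNExtension G A B φ)) (W := X h) R hsurj
          ⟨MonoidHom.toAdditiveLeft F, hF⟩ ?_ ?_
        · intro h0
          have h4 := congrArg (fun c : X (of h : HNNExtension G A B φ) =>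
            c.1 (Additive.ofMul t)) h0
          have h5 : (F t).toAdd = (0 : ℚ) := h4
          simp [F] at h5
        · ext g
          show (F (of g)).toAdd = 0
          simp [F]
    · left
      intro h0
      apply hidx
      have h2 : Subgroup.zpowers (h ^ p) ≤ B := by
        rw [Subgroup.zpowers_le, hB, ← hi]
        exact Subgroup.zpow_mem_zpowers _ _
      have h3 : (Subgroup.zpowers (h ^ (p : ℤ))).relIndex (Subgroup.zpowers h) ≠ 0 :=
        zpowers_pow_relIndex h (by omega)
      rw [zpow_natCast] at h3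
      have h4 : (Subgroup.zpowers (h ^ p)).index = 0 := by
        rw [← Subgroup.relIndex_mul_index h2, h0, mul_zero]
      have h5 : Subgroup.zpowers (h ^ p) ≤ Subgroup.zpowers h := by
        rw [Subgroup.zpowers_le]; exact Subgroup.npow_mem_zpowers h p
      rw [← Subgroup.relIndex_mul_index h5] at h4
      rcases mul_eq_zero.mp h4 with h6 | h6
      · exact absurd h6 h3
      · exact h6

end Pool.Agent.helper444_cyc
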