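import Mathlib
import Pool.Agent.helper444_cyc.Ell

set_option autoImplicit false

/-! Groups with a commensurated subgroup are not isomorphic to their cyclic HNN extensions. -/

namespace Pool.Agent.helper444_cyc

open HNNExtension Pool.Agent.Helper270.Tree Pool.Agent.Helper270.HNN

open scoped Pointwise

theorem main_aux {G : Type} [Group G] [hG : Group.FG G] {A B : Subgroup G} {φ : A ≃* B} (a0 : A)
    (ha0 : ∀ c : A, c ∈ Subgroup.zpowers a0) (M : Subgroup G) (hM : Nice M)
    (e : HNNExtension G A B φ ≃* G) : False := by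
  have hfg : Group.FG (HNNExtension G A B φ) :=
    Group.fg_of_surjective (f := (e.symm : G →* HNNExtension G A B φ)) e.symm.surjective
  have hB : B.index = 0 := by
    by_contra h
    rw [B_eq (φ := φ) a0 ha0] at h
    exact index_of_vc h hM.inf hM.idx
  have step1 : ∀ (n : ℕ) (N : Subgroup (HNNExtension G A B φ)), Nice N → b1 N = n →
      ∃ z : HNNExtension G A B φ, Nice (Subgroup.zpowers z) := by
    intro n
    induction n using Nat.strong_induction_on with
    | _ n ih =>
      intro N hN hn
      by_cases hell : ∀ n ∈ N, ∃ v : Vert φ, n • v = v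
      · exact exists_cyclic a0 ha0 N hN hell
      · push Not at hell
        obtain ⟨x, hx, hxv⟩ := hell
        rcases caseB a0 ha0 N hN hx hxv with h1 | ⟨h1, h2⟩
        · exact absurd hB h1
        · rw [hn] at h2
          rw [b1_congr (e.symm.subgroupMap _)] at h2
          exact ih _ h2 _ (h1.map e.symm) rfl
  have step2 : ∀ (n : ℕ) (z : HNNExtension G A B φ), Nice (Subgroup.zpowers z) → q z = n →
      False := by
    intro n
    induction n using Nat.strong_induction_on with
    | _ n ih =>
      intro z hz hn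
      rcases caseA a0 ha0 z hz with h1 | ⟨h, h1, h2⟩
      · exact h1 hB
      · have h3 := h1.map e.symm
        rw [MonoidHom.map_zpowers] at h3
        rw [hn, q_congr e.symm] at h2
        exact ih _ h2 _ h3 rfl
  obtain ⟨z, hz⟩ := step1 _ _ (hM.map e.symm) rfl
  exact step2 _ z hz rfl

theorem main {G : Type} [Group G] [Group.FG G] (a b : G)
    (φ : Subgroup.zpowers a ≃* Subgroup.zpowers b) (N : Subgroup G) (hfg : N.FG)
    (hinf : Infinite N) (hidx : N.index = 0)
    (hcomm : Subgroup.Commensurable.commensurator N = ⊤) :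
    IsEmpty (HNNExtension G (Subgroup.zpowers a) (Subgroup.zpowers b) φ ≃* G) := by
  refine ⟨fun e => main_aux ⟨a, Subgroup.mem_zpowers a⟩ ?_ N ⟨hfg, hinf, hidx, hcomm⟩ e⟩
  rintro ⟨c, hc⟩
  obtain ⟨k, rfl⟩ := Subgroup.mem_zpowers_iff.mp hc
  exact Subgroup.mem_zpowers_iff.mpr ⟨k, rfl⟩

end Pool.Agent.helper444_cyc
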