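import Mathlib
import Pool.Agent.helper444_cyc.Asc

set_option autoImplicit false

/-! Vanishing of the first cohomology with coefficients in a coinduced module. -/

namespace Pool.Agent.helper444_cyc

section Field

variable {F0 L : Type} [Field F0] [Field L] [Algebra F0 L] {s : L}

theorem tr_ne_zero (hs : Transcendental F0 s) : s ≠ 0 := by
  rintro rfl
  exact hs isAlgebraic_zero

theorem tr_not_integral (hs : Transcendental F0 s) {j : ℤ} (hj : 0 < j) :
    ¬ IsIntegral F0 (s ^ j) := by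
  intro h
  obtain ⟨n, rfl⟩ := Int.eq_ofNat_of_zero_le hj.le
  have hn : 0 < n := by exact_mod_cast hj
  rw [zpow_natCast] at h
  exact hs (IsIntegral.of_pow hn h).isAlgebraic

theorem tr_zpow (hs : Transcendental F0 s) {j : ℤ} (h : s ^ j = 1) : j = 0 := by
  rcases lt_trichotomy j 0 with hj | hj | hj
  · exfalso
    apply tr_not_integral hs (j := -j) (by omega)
    rw [zpow_neg, h, inv_one]
    exact isIntegral_one
  · exact hj
  · exfalso
    apply tr_not_integral hs hj
    rw [h]
    exact isIntegral_one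

end Field

section Coind

variable {L : Type} [Field L] {H : Type} [Group H] {K : Subgroup H}

/-- The coinduced module. -/
def MM (s : L) (χ : K →* Multiplicative ℤ) : Submodule L (H → L) where
  carrier := {f | ∀ (k : K) (x : H), f (x * k) = s ^ (χ k).toAdd * f x}
  add_mem' := by
    intro f g hf hg k x
    show f _ + g _ = _ * (f _ + g _)
    rw [hf, hg]; ring
  zero_mem' := by intro k x; simp
  smul_mem' := by
    intro r f hf k x
    show r * f _ = _ * (r * f _)
    rw [hf]; ring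

variable {s : L} {χ : K →* Multiplicative ℤ}

theorem mem_MM {f : H → L} : f ∈ MM s χ ↔ ∀ (k : K) (x : H),
    f (x * k) = s ^ (χ k).toAdd * f x := Iff.rfl

/-- The translate of a function. -/
def tr (g : H) (f : H → L) : H → L := fun q => f (g⁻¹ * q)

theorem tr_mem (g : H) {f : H → L} (hf : f ∈ MM s χ) : tr g f ∈ MM s χ := by
  intro k x
  show f (g⁻¹ * (x * k)) = _ * f (g⁻¹ * x)
  rw [← mul_assoc]
  exact hf k _

theorem ker_apply {f : H → L} (hf : f ∈ MM s χ) {n : H} (hn : n ∈ kr χ) (x : H) :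
    f (x * n) = f x := by
  obtain ⟨h1, h2⟩ := mem_kr.mp hn
  have h3 := hf ⟨n, h1⟩ x
  rw [h2, toAdd_one, zpow_zero, one_mul] at h3
  exact h3

/-- A cocycle with values in functions. -/
def IsCoc (C : H → H → L) : Prop := ∀ g h q, C (g * h) q = C g q + C h (g⁻¹ * q)

theorem MM_finite (s : L) (χ : K →* Multiplicative ℤ) (hK : K.index ≠ 0) :
    Module.Finite L (MM s χ) := by
  classical
  have : Finite (H ⧸ K) := Nat.finite_of_card_ne_zero hK
  let R : MM s χ →ₗ[L] ((H ⧸ K) → L) :=
    { toFun := fun f q => f.1 q.out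
      map_add' := fun f g => rfl
      map_smul' := fun r f => rfl }
  apply Module.Finite.of_injective R
  intro f g hfg
  ext x
  have h1 := congrFun hfg (x : H ⧸ K)
  change f.1 _ = g.1 _ at h1
  have h2 : (x : H ⧸ K).out⁻¹ * x ∈ K := by
    rw [← QuotientGroup.eq]; exact QuotientGroup.out_eq' _
  have h3 : x = (x : H ⧸ K).out * ((⟨_, h2⟩ : K) : H) := by simp
  rw [h3, f.2, g.2, h1]

theorem vanish {F0 : Type} [Field F0] [Algebra F0 L] (hs : Transcendental F0 s) (hχ : ∃ k : K, χ k ≠ 1)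
    [Module.Finite F0 (Additive (kr χ) →+ F0)] (C : H → H → L) (hC : IsCoc C)
    (hM : ∀ g, C g ∈ MM s χ) : ∃ F ∈ MM s χ, ∀ g q, C g q = F (g⁻¹ * q) - F q := by
  have hs0 := tr_ne_zero hs
  have hC1 : ∀ q, C 1 q = 0 := by
    intro q
    have := hC 1 1 q
    rw [one_mul, inv_one, one_mul] at this
    linear_combination -this
  -- the homomorphism on the kernel
  let h : Additive (kr χ) →+ L :=
    { toFun := fun n => C (Additive.toMul n : kr χ) 1
      map_zero' := hC1 1
      map_add' := by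
        intro n n'
        show C ((Additive.toMul n : kr χ) * (Additive.toMul n' : kr χ) : H) 1 = _
        rw [hC]
        congr 1
        rw [← ker_apply (hM _) ((kr χ).inv_mem (Additive.toMul n).2) 1, one_mul, mul_one] }
  have hh : ∀ (n : H) (hn : n ∈ kr χ), h (Additive.ofMul ⟨n, hn⟩) = C n 1 := fun n hn => rfl
  -- equivariance
  have heq : ∀ (k : K) (n : H) (hn : n ∈ kr χ),
      C ((k : H) * n * (k : H)⁻¹) 1 = s ^ (χ k⁻¹).toAdd * C n 1 := by
    intro k n hn
    have h1 : C ((k : H) * n * (k : H)⁻¹) 1 = C k 1 + C n (k : H)⁻¹ +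
        C (k : H)⁻¹ (n⁻¹ * (k : H)⁻¹) := by
      rw [hC, hC, mul_inv_rev, mul_one, mul_one]
    have h2 : C n (k : H)⁻¹ = s ^ (χ k⁻¹).toAdd * C n 1 := by
      have := hM n k⁻¹ 1
      rw [one_mul] at this
      exact this
    have h3 : C (k : H)⁻¹ (n⁻¹ * (k : H)⁻¹) = C (k : H)⁻¹ (k : H)⁻¹ := by
      have h4 := kr_normal χ k k.2 n⁻¹ ((kr χ).inv_mem hn)
      have h5 := ker_apply (hM (k : H)⁻¹) h4 (k : H)⁻¹
      rw [← h5]; congr 1; group
    have h4 : C k 1 + C (k : H)⁻¹ (k : H)⁻¹ = 0 := by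
      have := hC k (k : H)⁻¹ 1
      rw [mul_inv_cancel, hC1, mul_one] at this
      exact this.symm
    rw [h1, h2, h3]
    linear_combination h4
  -- the span of the image
  let W : Submodule F0 L := Submodule.span F0 (Set.range h)
  have hWfin : Module.Finite F0 W := by
    rw [← Module.finite_dual_iff F0]
    let R : Module.Dual F0 W →ₗ[F0] (Additive (kr χ) →+ F0) :=
      { toFun := fun l => l.toAddMonoidHom.comp
          (h.codRestrict W.toAddSubgroup (fun n => Submodule.subset_span ⟨n, rfl⟩))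
        map_add' := fun l l' => rfl
        map_smul' := fun r l => rfl }
    apply Module.Finite.of_injective R
    intro l l' hll
    have h1 : ∀ (x : L) (hx : x ∈ W), l ⟨x, hx⟩ = l' ⟨x, hx⟩ := by
      intro x hx
      induction hx using Submodule.span_induction with
      | mem x hx =>
        obtain ⟨n, rfl⟩ := hx
        exact DFunLike.congr_fun hll n
      | zero => exact (map_zero l).trans (map_zero l').symm
      | add x y hx hy h1 h2 =>
        have e : (⟨x + y, W.add_mem hx hy⟩ : W) = ⟨x, hx⟩ + ⟨y, hy⟩ := rfl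
        rw [e, map_add, map_add, h1, h2]
      | smul r x hx h1 =>
        have e : (⟨r • x, W.smul_mem r hx⟩ : W) = r • ⟨x, hx⟩ := rfl
        rw [e, map_smul, map_smul, h1]
    ext x
    exact h1 x.1 x.2
  have hh0 : ∀ (n : H), n ∈ kr χ → C n 1 = 0 := by
    intro n hn
    by_contra hne
    -- an element with positive exponent
    obtain ⟨k, hk⟩ : ∃ k : K, 0 < (χ k⁻¹).toAdd := by
      obtain ⟨k, hk⟩ := hχ
      have h1 : (χ k).toAdd ≠ 0 := fun h0 => hk (Multiplicative.toAdd.injective h0)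
      rcases lt_or_gt_of_ne h1 with h2 | h2
      · exact ⟨k, by rw [map_inv, toAdd_inv]; omega⟩
      · exact ⟨k⁻¹, by rw [inv_inv]; exact h2⟩
    apply tr_not_integral hs hk
    refine isIntegral_of_smul_mem_submodule (M := L) (R := F0) W ?_ ?_ _ ?_
    · intro h0
      apply hne
      have h1 : C n 1 ∈ W := Submodule.subset_span ⟨Additive.ofMul ⟨n, hn⟩, rfl⟩
      rw [h0] at h1
      exact (Submodule.mem_bot F0).mp h1
    · exact Module.Finite.iff_fg.mp hWfin
    · intro x hx
      induction hx using Submodule.span_induction with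
      | mem x hx =>
        obtain ⟨n', rfl⟩ := hx
        apply Submodule.subset_span
        refine ⟨Additive.ofMul ⟨_, kr_normal χ k k.2 _ (Additive.toMul n').2⟩, ?_⟩
        rw [hh, heq k _ (Additive.toMul n').2]
        rfl
      | zero => rw [smul_zero]; exact W.zero_mem
      | add x y _ _ h1 h2 => rw [smul_add]; exact W.add_mem h1 h2
      | smul r x _ h1 => rw [smul_comm]; exact W.smul_mem r h1
  -- the values on `K`
  obtain ⟨k1, hk1⟩ := hχ
  have hw1 : (1 : L) - s ^ (χ k1⁻¹).toAdd ≠ 0 := by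
    intro h0
    have h1 : s ^ (χ k1⁻¹).toAdd = 1 := by linear_combination -h0
    have h2 := tr_zpow hs h1
    rw [map_inv, toAdd_inv, neg_eq_zero] at h2
    exact hk1 (Multiplicative.toAdd.injective h2)
  have hu : ∀ k k' : K, C ((k : H) * k') 1 = C k 1 + s ^ (χ k⁻¹).toAdd * C k' 1 := by
    intro k k'
    rw [hC, mul_one]
    congr 1
    have := hM k' k⁻¹ 1
    rw [one_mul] at this
    exact this
  set v : L := C k1 1 / (1 - s ^ (χ k1⁻¹).toAdd) with hv
  have hval : ∀ k : K, C k 1 = (1 - s ^ (χ k⁻¹).toAdd) * v := by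
    intro k
    have h1 : C ((k : H) * k1) 1 = C ((k1 : H) * k) 1 := by
      have h2 : ((k1 : H) * k)⁻¹ * ((k : H) * k1) ∈ kr χ := by
        refine mem_kr.mpr ⟨K.mul_mem (K.inv_mem (K.mul_mem k1.2 k.2)) (K.mul_mem k.2 k1.2), ?_⟩
        have e : (⟨((k1 : H) * k)⁻¹ * ((k : H) * k1),
            K.mul_mem (K.inv_mem (K.mul_mem k1.2 k.2)) (K.mul_mem k.2 k1.2)⟩ : K) =
          (k1 * k)⁻¹ * (k * k1) := rfl
        rw [e, map_mul, map_inv, map_mul, map_mul, mul_comm (χ k1), inv_mul_cancel]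
      have h3 : (k : H) * k1 = ((k1 : H) * k) * (((k1 : H) * k)⁻¹ * ((k : H) * k1)) := by group
      rw [h3, hC, mul_one]
      have h4 : C (((k1 : H) * k)⁻¹ * ((k : H) * k1)) ((k1 : H) * k)⁻¹ =
          s ^ (χ (k1 * k)⁻¹).toAdd * C (((k1 : H) * k)⁻¹ * ((k : H) * k1)) 1 := by
        have := hM (((k1 : H) * k)⁻¹ * ((k : H) * k1)) (k1 * k)⁻¹ 1
        rw [one_mul] at this
        exact this
      rw [h4, hh0 _ h2]; ring
    rw [hu, hu] at h1
    rw [hv]
    field_simp
    linear_combination h1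
  -- the function
  refine ⟨fun x => C x⁻¹ 1 - v, ?_, ?_⟩
  · intro k x
    show C (x * k)⁻¹ 1 - v = _ * (C x⁻¹ 1 - v)
    rw [mul_inv_rev, hC, inv_inv, mul_one]
    have h1 := hval k⁻¹
    rw [inv_inv] at h1
    have h2 : C x⁻¹ (k : H) = s ^ (χ k).toAdd * C x⁻¹ 1 := by
      have := hM x⁻¹ k 1
      rw [one_mul] at this
      exact this
    have h3 : C ((k⁻¹ : K) : H) 1 = C (k : H)⁻¹ 1 := rfl
    rw [h3] at h1
    rw [h1, h2]; ring
  · intro g q
    show C g q = (C (g⁻¹ * q)⁻¹ 1 - v) - (C q⁻¹ 1 - v)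
    have h1 := hC q⁻¹ g 1
    rw [inv_inv, mul_one] at h1
    have h2 : (g⁻¹ * q)⁻¹ = q⁻¹ * g := by group
    rw [h2, h1]; ring

end Coind

end Pool.Agent.helper444_cyc
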