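import Mathlib
import Pool.Agent.helper444_cyc.Fin1
import Pool.Agent.helper444_cyc.Descent

set_option autoImplicit false

/-! A dimension count for cocycles on HNN extensions. -/

namespace Pool.Agent.helper444_cyc

open HNNExtension Pool.Agent.Helper270.Tree Pool.Agent.Helper270.HNN

section Semi

variable {L : Type} [Field L] {s : L} {H : Type} [Group H] {K : Subgroup H}
  {χ : K →* Multiplicative ℤ}

theorem semis (hK : ∀ x : H, ∃ r : ℕ, (r : L) ≠ 0 ∧ x ^ r ∈ K) {e c : H → L} (he : e ∈ MM s χ)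
    (hc : c ∈ MM s χ) (g : H) (hcg : ∀ q, c (g⁻¹ * q) = c q)
    (hec : ∀ q, e (g⁻¹ * q) - e q = c q) : c = 0 := by
  have h1 : ∀ (r : ℕ) (q : H), c ((g⁻¹) ^ r * q) = c q := by
    intro r
    induction r with
    | zero => intro q; simp
    | succ r ih =>
      intro q
      rw [pow_succ', mul_assoc, hcg, ih]
  have h2 : ∀ (r : ℕ) (q : H), e ((g⁻¹) ^ r * q) - e q = r * c q := by
    intro r
    induction r with
    | zero => intro q; simp
    | succ r ih =>
      intro q
      have h3 := hec ((g⁻¹) ^ r * q)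
      rw [h1] at h3
      have h4 := ih q
      rw [pow_succ', mul_assoc]
      push_cast
      linear_combination h3 + h4
  funext q
  obtain ⟨r, hr0, hrK⟩ := hK (q⁻¹ * g⁻¹ * q)
  have e1 : (q⁻¹ * g⁻¹ * q) ^ r = q⁻¹ * (g⁻¹) ^ r * q := by
    have := conj_pow (a := q⁻¹) (b := g⁻¹) (i := r)
    rwa [inv_inv] at this
  rw [e1] at hrK
  have e2 : (g⁻¹) ^ r * q = q * (q⁻¹ * (g⁻¹) ^ r * q) := by group
  set w : L := s ^ (χ ⟨_, hrK⟩).toAdd with hw
  have h3 : e ((g⁻¹) ^ r * q) = w * e q := by rw [e2]; exact he ⟨_, hrK⟩ q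
  have h4 : c ((g⁻¹) ^ r * q) = w * c q := by rw [e2]; exact hc ⟨_, hrK⟩ q
  have h5 := h2 r q
  rw [h3] at h5
  rw [h1] at h4
  show c q = 0
  by_cases hw1 : w = 1
  · rw [hw1, one_mul, sub_self] at h5
    rcases mul_eq_zero.mp h5.symm with h6 | h6
    · exact absurd h6 hr0
    · exact h6
  · have h6 : (w - 1) * c q = 0 := by linear_combination -h4
    rcases mul_eq_zero.mp h6 with h7 | h7
    · exact absurd (by linear_combination h7) hw1
    · exact h7

end Semi

section Count

theorem count {L V W : Type} [Field L] [AddCommGroup V] [Module L V] [Module.Finite L V]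
    [AddCommGroup W] [Module L W] [Module.Finite L W] (Ψ : (V × W × W × V) →ₗ[L] V)
    (Θ : (V × W) →ₗ[L] (V × W × W × V)) (hle : LinearMap.ker Ψ ≤ LinearMap.range Θ) :
    Module.finrank L W = 0 := by
  have h1 := LinearMap.finrank_range_add_finrank_ker Ψ
  have h2 : Module.finrank L (LinearMap.range Ψ) ≤ Module.finrank L V :=
    Submodule.finrank_le _
  have h3 : Module.finrank L (LinearMap.ker Ψ) ≤ Module.finrank L (LinearMap.range Θ) :=
    Submodule.finrank_mono hle
  have h4 := LinearMap.finrank_range_le Θ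
  rw [Module.finrank_prod, Module.finrank_prod, Module.finrank_prod] at h1
  rw [Module.finrank_prod] at h4
  omega

variable {G : Type} [Group G] {A B : Subgroup G} {φ : A ≃* B}
variable {K : Subgroup (HNNExtension G A B φ)} {χ : K →* Multiplicative ℤ}
variable {L : Type} [Field L] {s : L}

theorem ext_coc (a0 : A) (ha0 : ∀ c : A, c ∈ Subgroup.zpowers a0)
    (D : G → HNNExtension G A B φ → L) (m : HNNExtension G A B φ → L)
    (hD : ∀ g h q, D (g * h) q = D g q + D h ((of g : HNNExtension G A B φ)⁻¹ * q))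
    (hDM : ∀ g, D g ∈ MM s χ) (hmM : m ∈ MM s χ)
    (hm : ∀ q, D (bb φ a0) q + m ((of (bb φ a0) : HNNExtension G A B φ)⁻¹ * q) =
      m q + D a0 ((t : HNNExtension G A B φ)⁻¹ * q)) :
    ∃ C : HNNExtension G A B φ → HNNExtension G A B φ → L, IsCoc C ∧ (∀ g, C g ∈ MM s χ) ∧
      (∀ g, C (of g) = D g) ∧ C t = m := by
  obtain ⟨C, hC, hCG, hCt⟩ := exists_cocycle (φ := φ) (Q := HNNExtension G A B φ)
    (K := Multiplicative L) a0 ha0 (fun g q => Multiplicative.ofAdd (D g q))
    (fun q => Multiplicative.ofAdd (m q)) (fun g h q => hD g h q) (fun q => hm q)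
  let C' : HNNExtension G A B φ → HNNExtension G A B φ → L := fun g q => (C g q).toAdd
  have hC' : IsCoc C' := fun g h q => congrArg Multiplicative.toAdd (hC g h q)
  have h1 : ∀ g, C' (of g) = D g := by
    intro g
    funext q
    show (C (of g) q).toAdd = _
    rw [hCG]; rfl
  have h2 : C' t = m := by
    funext q
    show (C t q).toAdd = _
    rw [hCt]; rfl
  have h3 : ∀ q, C' 1 q = 0 := by
    intro q
    have := hC' 1 1 q
    rw [one_mul, inv_one, one_mul] at this
    linear_combination -this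
  refine ⟨C', hC', ?_, h1, h2⟩
  intro x
  induction x using HNNExtension.induction_on with
  | of g => rw [h1]; exact hDM g
  | t => rw [h2]; exact hmM
  | mul x y hx hy =>
    have : C' (x * y) = C' x + tr x (C' y) := by funext q; exact hC' x y q
    rw [this]
    exact (MM s χ).add_mem hx (tr_mem x hy)
  | inv x hx =>
    have : C' x⁻¹ = - tr x⁻¹ (C' x) := by
      funext q
      have h4 := hC' x⁻¹ x q
      rw [inv_mul_cancel, h3] at h4
      show _ = - C' x (x⁻¹⁻¹ * q)
      linear_combination -h4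
    rw [this]
    exact (MM s χ).neg_mem (tr_mem x⁻¹ hx)

/-- Translation as a linear map. -/
def trL (s : L) (χ : K →* Multiplicative ℤ) (g : HNNExtension G A B φ) :
    MM s χ →ₗ[L] MM s χ where
  toFun f := ⟨tr g f.1, tr_mem g f.2⟩
  map_add' _ _ := rfl
  map_smul' _ _ := rfl

theorem trL_apply (g : HNNExtension G A B φ) (f : MM s χ) (q : HNNExtension G A B φ) :
    (trL s χ g f).1 q = f.1 (g⁻¹ * q) := rfl

/-- The functions invariant under the base group. -/
def MG (s : L) (χ : K →* Multiplicative ℤ) : Submodule L (MM s χ) where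
  carrier := {f | ∀ (g : G) (q : HNNExtension G A B φ), f.1 ((of g)⁻¹ * q) = f.1 q}
  add_mem' := by
    intro f f' hf hf' g q
    show f.1 _ + f'.1 _ = f.1 _ + f'.1 _
    rw [hf, hf']
  zero_mem' := by intro g q; rfl
  smul_mem' := by
    intro r f hf g q
    show r * f.1 _ = r * f.1 _
    rw [hf]

/-- The cocycles on the base group which are used in the dimension count. -/
def DD {F0 : Type} [Field F0] [Algebra F0 L] (u v : Additive G →+ F0) (f : MM s χ) (m1 m2 : MG s χ) (g : G) : MM s χ :=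
  trL s χ (of g) f - f + ((algebraMap F0 L (u (Additive.ofMul g))) • (m1 : MM s χ) +
    (algebraMap F0 L (v (Additive.ofMul g))) • (m2 : MM s χ))

theorem DD_apply {F0 : Type} [Field F0] [Algebra F0 L] (u v : Additive G →+ F0) (f : MM s χ) (m1 m2 : MG s χ) (g : G)
    (q : HNNExtension G A B φ) : (DD u v f m1 m2 g).1 q = f.1 ((of g)⁻¹ * q) - f.1 q +
      (algebraMap F0 L (u (Additive.ofMul g)) * m1.1.1 q +
        algebraMap F0 L (v (Additive.ofMul g)) * m2.1.1 q) := rfl

/-- The obstruction to the extension of a cocycle. -/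
def Psi {F0 : Type} [Field F0] [Algebra F0 L] (a0 : A) (u v : Additive G →+ F0) :
    (MM s χ × MG s χ × MG s χ × MM s χ) →ₗ[L] MM s χ where
  toFun p := DD u v p.1 p.2.1 p.2.2.1 (bb φ a0) + trL s χ (of (bb φ a0)) p.2.2.2 - p.2.2.2 -
    trL s χ t (DD u v p.1 p.2.1 p.2.2.1 a0)
  map_add' := by
    intro p p'
    ext q
    simp only [DD, Prod.fst_add, Prod.snd_add, map_add, Submodule.coe_add, smul_add,
      Submodule.coe_sub, Submodule.coe_smul, Pi.add_apply, Pi.sub_apply, Pi.smul_apply,
      map_sub, smul_eq_mul, trL_apply, map_smul]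
    ring
  map_smul' := by
    intro r p
    ext q
    simp only [DD, Prod.smul_fst, Prod.smul_snd, map_add, Submodule.coe_add,
      Submodule.coe_sub, Submodule.coe_smul, Pi.add_apply, Pi.sub_apply, Pi.smul_apply,
      map_sub, smul_eq_mul, trL_apply, map_smul, RingHom.id_apply]
    ring

/-- The trivial extensions. -/
def Theta (s : L) (χ : K →* Multiplicative ℤ) :
    (MM s χ × MG s χ) →ₗ[L] (MM s χ × MG s χ × MG s χ × MM s χ) where
  toFun p := (p.1, 0, 0, trL s χ t (p.1 + p.2.1) - (p.1 + p.2.1))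
  map_add' := by
    intro p p'
    ext q
    · rfl
    · simp
    · simp
    · simp only [Prod.fst_add, Prod.snd_add, map_add, Submodule.coe_add,
        Submodule.coe_sub, Pi.add_apply, Pi.sub_apply, trL_apply]
      ring
  map_smul' := by
    intro r p
    ext q
    · rfl
    · simp
    · simp
    · simp only [Prod.smul_fst, Prod.smul_snd, map_add, Submodule.coe_add,
        Submodule.coe_sub, Submodule.coe_smul, Pi.add_apply, Pi.sub_apply, Pi.smul_apply,
        smul_eq_mul, trL_apply, map_smul, RingHom.id_apply]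
      ring

theorem ker_Psi {F0 : Type} [Field F0] [Algebra F0 L] (hs : Transcendental F0 s)
    (hK : ∀ x : HNNExtension G A B φ, ∃ r : ℕ, (r : L) ≠ 0 ∧ x ^ r ∈ K)
    (hχ : ∃ k : K, χ k ≠ 1) [Module.Finite F0 (Additive (kr χ) →+ F0)]
    (a0 : A) (ha0 : ∀ c : A, c ∈ Subgroup.zpowers a0) (u v : Additive G →+ F0)
    (huv : ∃ g h : G, u (Additive.ofMul g) * v (Additive.ofMul h) ≠
      u (Additive.ofMul h) * v (Additive.ofMul g))
    (f m : MM s χ) (m1 m2 : MG s χ)
    (hp : DD u v f m1 m2 (bb φ a0) + trL s χ (of (bb φ a0)) m - m -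
      trL s χ t (DD u v f m1 m2 a0) = 0) :
    ∃ e : MG s χ, m1 = 0 ∧ m2 = 0 ∧ m = trL s χ t (f + e.1) - (f + e.1) := by
  have hu' : ∀ g h, algebraMap F0 L (u (Additive.ofMul (g * h))) =
      algebraMap F0 L (u (Additive.ofMul g)) + algebraMap F0 L (u (Additive.ofMul h)) := by
    intro g h
    rw [ofMul_mul, map_add, map_add]
  have hv' : ∀ g h, algebraMap F0 L (v (Additive.ofMul (g * h))) =
      algebraMap F0 L (v (Additive.ofMul g)) + algebraMap F0 L (v (Additive.ofMul h)) := by
    intro g h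
    rw [ofMul_mul, map_add, map_add]
  obtain ⟨C, hC, hCM, hCG, hCt⟩ := ext_coc (s := s) (χ := χ) a0 ha0
    (fun g => (DD u v f m1 m2 g).1) m.1 (by
      intro g h q
      rw [DD_apply, DD_apply, DD_apply, hu', hv', m1.2 g q, m2.2 g q, map_mul, mul_inv_rev,
        mul_assoc]
      ring) (fun g => (DD u v f m1 m2 g).2) m.2 (by
      intro q
      have h1 := congrArg (fun f : MM s χ => f.1 q) hp
      simp only [Submodule.coe_add, Submodule.coe_sub, Pi.add_apply, Pi.sub_apply, trL_apply,
        Submodule.coe_zero, Pi.zero_apply] at h1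
      linear_combination h1)
  obtain ⟨F, hF, hFC⟩ := vanish hs hχ C hC hCM
  have hec : ∀ (g : G) (q : HNNExtension G A B φ), (F ((of g)⁻¹ * q) - f.1 ((of g)⁻¹ * q)) -
      (F q - f.1 q) = algebraMap F0 L (u (Additive.ofMul g)) * m1.1.1 q +
        algebraMap F0 L (v (Additive.ofMul g)) * m2.1.1 q := by
    intro g q
    have h1 := hFC (of g) q
    rw [hCG, DD_apply] at h1
    linear_combination -h1
  have hzero : ∀ (g : G) (q : HNNExtension G A B φ),
      algebraMap F0 L (u (Additive.ofMul g)) * m1.1.1 q +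
        algebraMap F0 L (v (Additive.ofMul g)) * m2.1.1 q = 0 := by
    intro g q
    have h1 := semis hK (e := F - f.1) (c := algebraMap F0 L (u (Additive.ofMul g)) • m1.1.1 +
        algebraMap F0 L (v (Additive.ofMul g)) • m2.1.1)
      ((MM s χ).sub_mem hF f.2)
      ((MM s χ).add_mem ((MM s χ).smul_mem _ m1.1.2) ((MM s χ).smul_mem _ m2.1.2))
      (of g) (by
        intro q
        show algebraMap F0 L (u (Additive.ofMul g)) * m1.1.1 ((of g)⁻¹ * q) +
            algebraMap F0 L (v (Additive.ofMul g)) * m2.1.1 ((of g)⁻¹ * q) =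
          algebraMap F0 L (u (Additive.ofMul g)) * m1.1.1 q +
            algebraMap F0 L (v (Additive.ofMul g)) * m2.1.1 q
        rw [m1.2 g q, m2.2 g q]) (fun q => hec g q)
    exact congrFun h1 q
  obtain ⟨g, h, hgh⟩ := huv
  have hdet : algebraMap F0 L (u (Additive.ofMul g)) * algebraMap F0 L (v (Additive.ofMul h)) -
      algebraMap F0 L (u (Additive.ofMul h)) * algebraMap F0 L (v (Additive.ofMul g)) ≠ 0 := by
    intro h0
    apply hgh
    apply (algebraMap F0 L).injective
    rw [map_mul, map_mul]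
    linear_combination h0
  have hm1 : ∀ q, m1.1.1 q = 0 := by
    intro q
    have e1 := hzero g q
    have e2 := hzero h q
    refine (mul_eq_zero.mp ?_).resolve_left hdet
    linear_combination algebraMap F0 L (v (Additive.ofMul h)) * e1 -
      algebraMap F0 L (v (Additive.ofMul g)) * e2
  have hm2 : ∀ q, m2.1.1 q = 0 := by
    intro q
    have e1 := hzero g q
    have e2 := hzero h q
    refine (mul_eq_zero.mp ?_).resolve_left hdet
    linear_combination algebraMap F0 L (u (Additive.ofMul g)) * e2 -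
      algebraMap F0 L (u (Additive.ofMul h)) * e1
  have heG : (⟨F - f.1, (MM s χ).sub_mem hF f.2⟩ : MM s χ) ∈ MG s χ := by
    intro g q
    have h1 := hec g q
    rw [hm1, hm2] at h1
    show F _ - f.1 _ = F _ - f.1 _
    linear_combination h1
  refine ⟨⟨_, heG⟩, ?_, ?_, ?_⟩
  · ext q
    exact hm1 q
  · ext q
    exact hm2 q
  · ext q
    show m.1 q = (f.1 ((t : HNNExtension G A B φ)⁻¹ * q) + (F ((t : HNNExtension G A B φ)⁻¹ * q) -
      f.1 ((t : HNNExtension G A B φ)⁻¹ * q))) - (f.1 q + (F q - f.1 q))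
    rw [← hCt, hFC]; ring

theorem MG_eq_bot {F0 : Type} [Field F0] [Algebra F0 L] (hs : Transcendental F0 s)
    (hK : ∀ x : HNNExtension G A B φ, ∃ r : ℕ, (r : L) ≠ 0 ∧ x ^ r ∈ K)
    (hχ : ∃ k : K, χ k ≠ 1) [Module.Finite F0 (Additive (kr χ) →+ F0)]
    (a0 : A) (ha0 : ∀ c : A, c ∈ Subgroup.zpowers a0) (u v : Additive G →+ F0)
    (huv : ∃ g h : G, u (Additive.ofMul g) * v (Additive.ofMul h) ≠
      u (Additive.ofMul h) * v (Additive.ofMul g)) (hidx : K.index ≠ 0) : MG s χ = ⊥ := by
  have hfin : Module.Finite L (MM s χ) := MM_finite s χ hidx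
  have hfin2 : Module.Finite L (MG s χ) := inferInstance
  rw [← Submodule.finrank_eq_zero]
  refine count (V := MM s χ) (W := MG s χ) (Psi a0 u v) (Theta s χ) ?_
  rintro ⟨f, m1, m2, m⟩ hp
  rw [LinearMap.mem_ker] at hp
  obtain ⟨e, h1, h2, h3⟩ := ker_Psi hs hK hχ a0 ha0 u v huv f m m1 m2 hp
  refine ⟨(f, e), ?_⟩
  rw [h1, h2, h3]
  rfl

theorem MB_eq_zero {F0 : Type} [Field F0] [Algebra F0 L] (hs : Transcendental F0 s) (hχ : ∃ k : K, χ k ≠ 1)
    [Module.Finite F0 (Additive (kr χ) →+ F0)]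
    (a0 : A) (ha0 : ∀ c : A, c ∈ Subgroup.zpowers a0) (hMG : MG s χ = ⊥)
    {m : HNNExtension G A B φ → L} (hm : m ∈ MM s χ)
    (hmb : ∀ q, m ((of (bb φ a0) : HNNExtension G A B φ)⁻¹ * q) = m q) : m = 0 := by
  obtain ⟨C, hC, hCM, hCG, hCt⟩ := ext_coc (s := s) (χ := χ) a0 ha0 (fun _ _ => 0) m
    (by intro g h q; simp) (fun g => (MM s χ).zero_mem) hm (by
      intro q
      rw [zero_add, add_zero]; exact hmb q)
  obtain ⟨F, hF, hFC⟩ := vanish hs hχ C hC hCM
  have h1 : (⟨F, hF⟩ : MM s χ) ∈ MG s χ := by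
    intro g q
    have := hFC (of g) q
    rw [hCG] at this
    show F _ = F _
    linear_combination -this
  rw [hMG, Submodule.mem_bot] at h1
  have h2 : F = 0 := congrArg Subtype.val h1
  funext q
  rw [← hCt, hFC, h2]; simp

end Count

end Pool.Agent.helper444_cyc
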