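import Mathlib
import Pool.Agent.helper444_cyc.Fin2
import Pool.Agent.helper444_cyc.BetaF

set_option autoImplicit false

/-! The descent for homomorphisms onto the integers with small kernel. -/

namespace Pool.Agent.helper444_cyc

open HNNExtension Pool.Agent.Helper270.Tree Pool.Agent.Helper270.HNN

section General

variable {H H' : Type} [Group H] [Group H'] (F0 : Type) [Field F0]

/-- The dimension of the space of homomorphisms to the field `F0`. -/
noncomputable def b1F (H : Type) [Group H] : ℕ := Module.finrank F0 (Additive H →+ F0)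

/-- Pull-back of homomorphisms. -/
def pullF (f : H →* H') : (Additive H' →+ F0) →ₗ[F0] (Additive H →+ F0) where
  toFun c := c.comp (MonoidHom.toAdditive f)
  map_add' _ _ := rfl
  map_smul' _ _ := rfl

theorem b1F_congr (e : H ≃* H') : b1F F0 H = b1F F0 H' := by
  unfold b1F
  apply LinearEquiv.finrank_eq
  refine LinearEquiv.ofLinearMap (pullF F0 (e.symm : H' →* H)) (pullF F0 (e : H →* H')) ?_ ?_
  · ext c x
    change c (Additive.ofMul (e (e.symm x))) = _
    rw [MulEquiv.apply_symm_apply]; rfl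
  · ext c x
    change c (Additive.ofMul (e.symm (e x))) = _
    rw [MulEquiv.symm_apply_apply]; rfl

/-- A homomorphism from a subgroup of finite index to the integers with small kernel. -/
structure Fd (K : Subgroup H) (χ : K →* Multiplicative ℤ) : Prop where
  idx : K.index ≠ 0
  pow : ∀ x : H, ∃ r : ℕ, (r : F0) ≠ 0 ∧ x ^ r ∈ K
  nt : ∃ k : K, χ k ≠ 1
  fin : Module.Finite F0 (Additive (kr χ) →+ F0)

variable {F0}

theorem finite_congr (e : H ≃* H') [Module.Finite F0 (Additive H →+ F0)] :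
    Module.Finite F0 (Additive H' →+ F0) := by
  apply Module.Finite.of_injective (pullF F0 (e : H →* H'))
  intro c d hcd
  ext x
  have h1 := DFunLike.congr_fun hcd (Additive.ofMul (e.symm x))
  change c (Additive.ofMul (e (e.symm x))) = d (Additive.ofMul (e (e.symm x))) at h1
  rw [MulEquiv.apply_symm_apply] at h1
  exact h1

theorem Fd.map {K : Subgroup H} {χ : K →* Multiplicative ℤ} (h : Fd F0 K χ) (e : H ≃* H') :
    Fd F0 (K.map (e : H →* H')) (χ.comp ((e.subgroupMap K).symm : K.map (e : H →* H') →* K)) ∧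
      b1F F0 (kr (χ.comp ((e.subgroupMap K).symm : K.map (e : H →* H') →* K))) =
        b1F F0 (kr χ) := by
  have hkr : kr (χ.comp ((e.subgroupMap K).symm : K.map (e : H →* H') →* K)) =
      (kr χ).map (e : H →* H') := by
    ext x
    constructor
    · intro hx
      obtain ⟨⟨y, hy, rfl⟩, hx1⟩ := mem_kr.mp hx
      refine ⟨y, mem_kr.mpr ⟨hy, ?_⟩, rfl⟩
      have e1 : (⟨(e : H →* H') y, ⟨y, hy, rfl⟩⟩ : K.map (e : H →* H')) =
        e.subgroupMap K ⟨y, hy⟩ := rfl
      rw [e1] at hx1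
      change χ ((e.subgroupMap K).symm (e.subgroupMap K _)) = 1 at hx1
      rwa [MulEquiv.symm_apply_apply] at hx1
    · rintro ⟨c, hc, rfl⟩
      obtain ⟨hcK, hc1⟩ := mem_kr.mp hc
      refine mem_kr.mpr ⟨⟨c, hcK, rfl⟩, ?_⟩
      have e1 : (⟨(e : H →* H') c, ⟨c, hcK, rfl⟩⟩ : K.map (e : H →* H')) =
        e.subgroupMap K ⟨c, hcK⟩ := rfl
      rw [e1]
      show χ ((e.subgroupMap K).symm (e.subgroupMap K _)) = 1
      rw [MulEquiv.symm_apply_apply]; exact hc1
  have hfin := h.fin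
  refine ⟨⟨?_, ?_, ?_, ?_⟩, ?_⟩
  · rw [Subgroup.index_map_equiv]; exact h.idx
  · intro x
    obtain ⟨r, hr, hrK⟩ := h.pow (e.symm x)
    refine ⟨r, hr, _, hrK, ?_⟩
    simp
  · obtain ⟨k, hk⟩ := h.nt
    refine ⟨e.subgroupMap K k, ?_⟩
    show χ ((e.subgroupMap K).symm (e.subgroupMap K k)) ≠ 1
    rw [MulEquiv.symm_apply_apply]; exact hk
  · rw [hkr]; exact finite_congr (e.subgroupMap (kr χ))
  · rw [hkr]; exact (b1F_congr F0 (e.subgroupMap (kr χ))).symm

theorem b1F_lt [Module.Finite F0 (Additive H →+ F0)] (r : H →* H') (s : H' →* H)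
    (hrs : ∀ x, r (s x) = x) (l : H →* Multiplicative F0) (hl : l ≠ 1) (hls : ∀ x, l (s x) = 1) :
    b1F F0 H' < b1F F0 H := by
  have h1 : Function.Surjective (pullF F0 s) := by
    intro c
    refine ⟨pullF F0 r c, ?_⟩
    ext x
    change c (Additive.ofMul (r (s x))) = _
    rw [hrs]; rfl
  have h2 := LinearMap.finrank_range_add_finrank_ker (pullF F0 s)
  rw [LinearMap.range_eq_top.mpr h1, finrank_top] at h2
  have h3 : 0 < Module.finrank F0 (LinearMap.ker (pullF F0 s)) := by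
    have : Nontrivial (LinearMap.ker (pullF F0 s)) := by
      rw [Submodule.nontrivial_iff_ne_bot, Submodule.ne_bot_iff]
      refine ⟨MonoidHom.toAdditiveLeft l, ?_, ?_⟩
      · rw [LinearMap.mem_ker]
        ext x
        exact congrArg Multiplicative.toAdd (hls x)
      · intro h0
        apply hl
        ext x
        exact DFunLike.congr_fun h0 (Additive.ofMul x)
    exact Module.finrank_pos (R := F0) (M := LinearMap.ker (pullF F0 s))
  unfold b1F
  omega

end General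

variable {G : Type} [Group G] {A B : Subgroup G} {φ : A ≃* B}
variable {K : Subgroup (HNNExtension G A B φ)} {χ : K →* Multiplicative ℤ}

theorem hfree_of_MB {F0 L : Type} [Field F0] [Field L] [Algebra F0 L] {s : L}
    (hs : Transcendental F0 s)
    (a0 : A) (hMB : ∀ m ∈ MM s χ, (∀ q, m ((of (bb φ a0) : HNNExtension G A B φ)⁻¹ * q) = m q) →
      m = 0) (x : HNNExtension G A B φ) (k : ℤ)
    (hk : x * (of (bb φ a0)) ^ k * x⁻¹ ∈ kr χ) : k = 0 := by
  classical
  by_contra hk0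
  set b0 : HNNExtension G A B φ := of (bb φ a0) with hb0
  have hwd : ∀ (i j : ℤ) (κ κ' : K), b0 ^ i * x⁻¹ * κ = b0 ^ j * x⁻¹ * κ' → χ κ = χ κ' := by
    intro i j κ κ' h
    have h1 : ((κ' * κ⁻¹ : K) : HNNExtension G A B φ) = x * b0 ^ (i - j) * x⁻¹ := by
      push_cast
      have h2 : (κ' : HNNExtension G A B φ) = x * (b0 ^ j)⁻¹ * (b0 ^ i * x⁻¹ * κ) := by
        rw [h]; group
      rw [h2, zpow_sub]
      have h3 : (b0 ^ j)⁻¹ * b0 ^ i = b0 ^ i * (b0 ^ j)⁻¹ :=
        ((Commute.refl b0).zpow_zpow i j).inv_right.eq.symm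
      calc x * (b0 ^ j)⁻¹ * (b0 ^ i * x⁻¹ * ↑κ) * (↑κ)⁻¹ = x * ((b0 ^ j)⁻¹ * b0 ^ i) * x⁻¹ := by
            group
        _ = _ := by rw [h3]
    have h4 : ((κ' * κ⁻¹ : K) : HNNExtension G A B φ) ^ k ∈ kr χ := by
      rw [h1]
      have h5 : (x * b0 ^ (i - j) * x⁻¹) ^ k = (x * b0 ^ k * x⁻¹) ^ (i - j) := by
        rw [conj_zpow, conj_zpow, ← zpow_mul, ← zpow_mul, mul_comm]
      rw [h5]
      exact (kr χ).zpow_mem hk _
    obtain ⟨h6, h7⟩ := mem_kr.mp h4
    have h8 : (χ (κ' * κ⁻¹)) ^ k = 1 := by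
      rw [← map_zpow, ← h7]; rfl
    have h9 : χ (κ' * κ⁻¹) = 1 := by
      by_contra hne
      have e1 := congrArg Multiplicative.toAdd h8
      rw [toAdd_zpow, toAdd_one, smul_eq_mul] at e1
      rcases mul_eq_zero.mp e1 with e2 | e2
      · exact hk0 e2
      · exact hne (Multiplicative.toAdd.injective e2)
    rw [map_mul, map_inv, mul_inv_eq_one] at h9
    exact h9.symm
  let m : HNNExtension G A B φ → L := fun y =>
    if h : ∃ p : ℤ × K, y = b0 ^ p.1 * x⁻¹ * p.2 then s ^ (χ h.choose.2).toAdd else 0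
  have hm1 : ∀ (i : ℤ) (κ : K), m (b0 ^ i * x⁻¹ * κ) = s ^ (χ κ).toAdd := by
    intro i κ
    have h : ∃ p : ℤ × K, b0 ^ i * x⁻¹ * κ = b0 ^ p.1 * x⁻¹ * p.2 := ⟨(i, κ), rfl⟩
    have h1 : m (b0 ^ i * x⁻¹ * κ) = s ^ (χ h.choose.2).toAdd := dif_pos h
    rw [h1, ← hwd _ _ _ _ h.choose_spec]
  have hm2 : ∀ y, (¬ ∃ p : ℤ × K, y = b0 ^ p.1 * x⁻¹ * p.2) → m y = 0 := fun y h => dif_neg h
  have hs0 := tr_ne_zero hs
  have hmM : m ∈ MM s χ := by
    intro κ y
    by_cases h : ∃ p : ℤ × K, y = b0 ^ p.1 * x⁻¹ * p.2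
    · obtain ⟨⟨i, κ'⟩, rfl⟩ := h
      have e : b0 ^ i * x⁻¹ * (κ' : HNNExtension G A B φ) * κ = b0 ^ i * x⁻¹ * ((κ' * κ : K) :
          HNNExtension G A B φ) := by push_cast; group
      show m (b0 ^ i * x⁻¹ * (κ' : HNNExtension G A B φ) * κ) = _
      rw [e, hm1, hm1, map_mul, toAdd_mul, zpow_add₀ hs0]; ring
    · rw [hm2 y h, hm2, mul_zero]
      rintro ⟨⟨i, κ'⟩, h1⟩
      apply h
      refine ⟨(i, κ' * κ⁻¹), ?_⟩
      push_cast
      rw [← mul_assoc, ← h1]; group
  have h0 := hMB m hmM (by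
    intro y
    by_cases h : ∃ p : ℤ × K, y = b0 ^ p.1 * x⁻¹ * p.2
    · obtain ⟨⟨i, κ'⟩, rfl⟩ := h
      have e : b0⁻¹ * (b0 ^ i * x⁻¹ * (κ' : HNNExtension G A B φ)) = b0 ^ (i - 1) * x⁻¹ * κ' := by
        rw [sub_eq_neg_add, zpow_add, zpow_neg_one]; group
      show m (b0⁻¹ * (b0 ^ i * x⁻¹ * (κ' : HNNExtension G A B φ))) = _
      rw [e, hm1, hm1]
    · rw [hm2 y h, hm2]
      rintro ⟨⟨i, κ'⟩, h1⟩
      apply h
      refine ⟨(i + 1, κ'), ?_⟩
      rw [add_comm, zpow_add, zpow_one]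
      have : y = b0 * (b0⁻¹ * y) := by group
      rw [this, h1]; group)
  have h1 := hm1 0 1
  rw [h0] at h1
  simp at h1

theorem orbits_of_hfree (hK : K.index ≠ 0) (a0 : A)
    (hfree : ∀ (x : HNNExtension G A B φ) (k : ℤ), x * (of (bb φ a0)) ^ k * x⁻¹ ∈ kr χ → k = 0) :
    ∃ S : Set (HNNExtension G A B φ ⧸ kr χ), S.Finite ∧
      ∀ q : HNNExtension G A B φ ⧸ kr χ, ∃ c : B, ∃ p ∈ S,
        q = (of (c : G) : HNNExtension G A B φ) • p := by
  classical
  set b0 : HNNExtension G A B φ := of (bb φ a0) with hb0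
  have hfinK : Finite (HNNExtension G A B φ ⧸ K) := Nat.finite_of_card_ne_zero hK
  have hr : ∀ i : HNNExtension G A B φ ⧸ K, ∃ r : ℕ, 0 < r ∧ i.out⁻¹ * b0 ^ r * i.out ∈ K := by
    intro i
    obtain ⟨r, hr, -, hrK⟩ := Subgroup.exists_pow_mem_of_index_ne_zero hK (i.out⁻¹ * b0 * i.out)
    have e1 : (i.out⁻¹ * b0 * i.out) ^ r = i.out⁻¹ * b0 ^ r * i.out := by
      have := conj_pow (a := i.out⁻¹) (b := b0) (i := r)
      rwa [inv_inv] at this
    exact ⟨r, hr, by rwa [e1] at hrK⟩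
  choose r hr hrK using hr
  let κ : (HNNExtension G A B φ ⧸ K) → K := fun i => ⟨_, hrK i⟩
  let j : (HNNExtension G A B φ ⧸ K) → ℤ := fun i => (χ (κ i)).toAdd
  have hj : ∀ i, j i ≠ 0 := by
    intro i h0
    have h1 : (κ i : HNNExtension G A B φ) ∈ kr χ :=
      mem_kr.mpr ⟨(κ i).2, Multiplicative.toAdd.injective h0⟩
    have h2 := hfree i.out⁻¹ (r i) (by rw [zpow_natCast, inv_inv]; exact h1)
    have := hr i
    omega
  let kt : ℤ → K := fun n => if h : ∃ k : K, (χ k).toAdd = n then h.choose else 1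
  have hkt : ∀ k : K, χ (kt (χ k).toAdd) = χ k := by
    intro k
    have h : ∃ k' : K, (χ k').toAdd = (χ k).toAdd := ⟨k, rfl⟩
    have h1 : kt (χ k).toAdd = h.choose := dif_pos h
    rw [h1]
    exact Multiplicative.toAdd.injective h.choose_spec
  refine ⟨⋃ i : HNNExtension G A B φ ⧸ K, (fun n : ℤ =>
    ((i.out * (kt n : HNNExtension G A B φ) : HNNExtension G A B φ) :
      HNNExtension G A B φ ⧸ kr χ)) '' (Set.Icc 0 |j i|),
    Set.finite_iUnion (fun i => (Set.finite_Icc _ _).image _), ?_⟩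
  intro q
  obtain ⟨y, rfl⟩ := QuotientGroup.mk_surjective q
  let i : HNNExtension G A B φ ⧸ K := (y : HNNExtension G A B φ ⧸ K)
  have hk0 : i.out⁻¹ * y ∈ K := by
    rw [← QuotientGroup.eq]; exact QuotientGroup.out_eq' _
  let k0 : K := ⟨_, hk0⟩
  let n : ℤ := (χ k0).toAdd
  let l : ℤ := n / j i
  have hn' : (χ ((κ i) ^ (-l) * k0)).toAdd = n % j i := by
    rw [map_mul, map_zpow, toAdd_mul, toAdd_zpow, smul_eq_mul]
    show -l * j i + n = n % j i
    have := Int.emod_add_mul_ediv n (j i)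
    show -(n / j i) * j i + n = n % j i
    linarith
  have hkt' := hkt ((κ i) ^ (-l) * k0)
  rw [hn'] at hkt'
  refine ⟨⟨(bb φ a0) ^ ((r i : ℤ) * l), B.zpow_mem (φ a0).2 _⟩,
    ((i.out * (kt (n % j i) : HNNExtension G A B φ) : HNNExtension G A B φ) :
      HNNExtension G A B φ ⧸ kr χ), ?_, ?_⟩
  · refine Set.mem_iUnion.mpr ⟨i, n % j i, ⟨Int.emod_nonneg _ (hj i),
      (Int.emod_lt_abs _ (hj i)).le⟩, rfl⟩
  · show _ = ((of ((bb φ a0) ^ ((r i : ℤ) * l)) * (i.out * (kt (n % j i) :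
      HNNExtension G A B φ)) : HNNExtension G A B φ) : HNNExtension G A B φ ⧸ kr χ)
    rw [map_zpow, ← hb0, eq_comm, QuotientGroup.eq]
    have e1 : b0 ^ ((r i : ℤ) * l) = i.out * ((κ i : K) : HNNExtension G A B φ) ^ l * i.out⁻¹ := by
      show _ = i.out * (i.out⁻¹ * b0 ^ (r i) * i.out) ^ l * i.out⁻¹
      have h2 : (i.out⁻¹ * b0 ^ (r i) * i.out) ^ l = i.out⁻¹ * (b0 ^ (r i)) ^ l * i.out := by
        have := conj_zpow (a := i.out⁻¹) (b := b0 ^ (r i)) (i := l)
        rwa [inv_inv] at this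
      rw [h2, zpow_mul, zpow_natCast]; group
    have e2 : (b0 ^ ((r i : ℤ) * l) * (i.out * (kt (n % j i) : HNNExtension G A B φ)))⁻¹ * y =
        (((kt (n % j i))⁻¹ * ((κ i) ^ (-l) * k0) : K) : HNNExtension G A B φ) := by
      rw [e1]
      push_cast
      show _ = (kt (n % j i) : HNNExtension G A B φ)⁻¹ *
        (((κ i : K) : HNNExtension G A B φ) ^ (-l) * (i.out⁻¹ * y))
      rw [zpow_neg]; group
    rw [e2]
    refine mem_kr.mpr ⟨Subtype.property _, ?_⟩
    show χ ((kt (n % j i))⁻¹ * ((κ i) ^ (-l) * k0)) = 1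
    rw [map_mul, map_inv, hkt', inv_mul_cancel]

/-- The descent step. -/
theorem Fd.step {F0 : Type} [Field F0] (h : Fd F0 K χ) (a0 : A) (ha0 : ∀ c : A, c ∈ Subgroup.zpowers a0)
    (u v : Additive G →+ F0) (huv : ∃ g h : G, u (Additive.ofMul g) * v (Additive.ofMul h) ≠
      u (Additive.ofMul h) * v (Additive.ofMul g)) :
    ∃ (K' : Subgroup G) (χ' : K' →* Multiplicative ℤ),
      Fd F0 K' χ' ∧ b1F F0 (kr χ') < b1F F0 (kr χ) := by
  classical
  have hfin := h.fin
  set b0 : HNNExtension G A B φ := of (bb φ a0) with hb0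
  have hs : Transcendental F0 (RatFunc.X : RatFunc F0) := RatFunc.transcendental_X
  have hpow : ∀ x : HNNExtension G A B φ, ∃ r : ℕ, (r : RatFunc F0) ≠ 0 ∧ x ^ r ∈ K := by
    intro x
    obtain ⟨r, hr, hrK⟩ := h.pow x
    refine ⟨r, ?_, hrK⟩
    intro h0
    apply hr
    apply (algebraMap F0 (RatFunc F0)).injective
    rw [map_natCast, map_zero]; exact h0
  have hMG := MG_eq_bot (K := K) (χ := χ) hs hpow h.nt a0 ha0 u v huv h.idx
  have hfree := hfree_of_MB (χ := χ) hs a0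
    (fun m hm hmb => MB_eq_zero hs h.nt a0 ha0 hMG hm hmb)
  obtain ⟨S, hSfin, hS⟩ := orbits_of_hfree h.idx a0 hfree
  obtain ⟨l, hl, hls⟩ := exists_homF F0 (kr χ) a0 ha0 S hSfin hS
  obtain ⟨ρ, hρ⟩ := exists_retraction (kr χ) a0 ha0 hfree
  let ι : (kr χ).comap (of : G →* HNNExtension G A B φ) →* kr χ :=
    { toFun := fun g => ⟨of (g : G), g.2⟩
      map_one' := by ext; simp
      map_mul' := by intro x y; ext; simp }
  have hρι : ∀ x, ρ (ι x) = x := fun x => hρ x.1 x.2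
  have hlt : b1F F0 ((kr χ).comap (of : G →* HNNExtension G A B φ)) < b1F F0 (kr χ) :=
    b1F_lt ρ ι hρι l hl (fun x => hls x.1 x.2)
  have hfin' : Module.Finite F0 (Additive ((kr χ).comap (of : G →* HNNExtension G A B φ)) →+ F0) := by
    apply Module.Finite.of_injective (pullF F0 ρ)
    intro c d hcd
    ext x
    have h1 := DFunLike.congr_fun hcd (Additive.ofMul (ι x))
    change c (Additive.ofMul (ρ (ι x))) = d (Additive.ofMul (ρ (ι x))) at h1
    rw [hρι] at h1
    exact h1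
  let K' : Subgroup G := K.comap of
  let χ' : K' →* Multiplicative ℤ := χ.comp
    { toFun := fun g => ⟨of (g : G), g.2⟩
      map_one' := by ext; simp
      map_mul' := by intro x y; ext; simp }
  have hkr' : kr χ' = (kr χ).comap (of : G →* HNNExtension G A B φ) := by
    ext g
    exact mem_kr.trans (mem_kr (χ := χ)).symm
  refine ⟨K', χ', ⟨?_, ?_, ?_, ?_⟩, ?_⟩
  · intro h1
    have h2 : K.relIndex (of : G →* HNNExtension G A B φ).range = 0 := by
      rw [← h1]
      exact (Subgroup.index_comap K of).symm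
    exact h.idx (Subgroup.index_eq_zero_of_relIndex_eq_zero h2)
  · intro g
    obtain ⟨r, hr, hrK⟩ := h.pow (of g)
    refine ⟨r, hr, ?_⟩
    show of _ ∈ K
    rw [map_pow]; exact hrK
  · obtain ⟨r, hr, -, hrK⟩ := Subgroup.exists_pow_mem_of_index_ne_zero h.idx b0
    have hrK' : (bb φ a0) ^ r ∈ K' := by
      show of _ ∈ K
      rw [map_pow]; exact hrK
    refine ⟨⟨_, hrK'⟩, ?_⟩
    intro h1
    have h2 : b0 ^ r ∈ kr χ := by
      refine mem_kr.mpr ⟨hrK, ?_⟩
      rw [← h1]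
      show χ _ = χ _
      congr 1
      ext
      show b0 ^ r = of ((bb φ a0) ^ r)
      rw [map_pow]
    have h3 := hfree 1 r (by rw [one_mul, inv_one, mul_one, zpow_natCast]; exact h2)
    omega
  · rw [hkr']; exact hfin'
  · rw [hkr']; exact hlt

theorem Fd.false {F0 : Type} [Field F0] (a0 : A) (ha0 : ∀ c : A, c ∈ Subgroup.zpowers a0)
    (u v : Additive G →+ F0) (huv : ∃ g h : G, u (Additive.ofMul g) * v (Additive.ofMul h) ≠
      u (Additive.ofMul h) * v (Additive.ofMul g))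
    (e : HNNExtension G A B φ ≃* G) : ∀ (n : ℕ) (K : Subgroup (HNNExtension G A B φ))
      (χ : K →* Multiplicative ℤ), Fd F0 K χ → b1F F0 (kr χ) = n → False := by
  intro n
  induction n using Nat.strong_induction_on with
  | _ n ih =>
    intro K χ h hn
    obtain ⟨K', χ', h1, h2⟩ := h.step a0 ha0 u v huv
    obtain ⟨h3, h4⟩ := h1.map e.symm
    rw [← h4, hn] at h2
    exact ih _ h2 _ _ h3 rfl

theorem det_of_linearIndependent {F0 : Type} [Field F0] {H : Type} [Group H] {u v : Additive H →+ F0}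
    (h : LinearIndependent F0 ![u, v]) : ∃ g h : H, u (Additive.ofMul g) * v (Additive.ofMul h) ≠
      u (Additive.ofMul h) * v (Additive.ofMul g) := by
  by_contra hcon
  push Not at hcon
  rw [LinearIndependent.pair_iff] at h
  have hu : u ≠ 0 := by
    rintro rfl
    have := (h 1 0 (by simp)).1
    exact one_ne_zero this
  obtain ⟨g, hg⟩ : ∃ g : H, u (Additive.ofMul g) ≠ 0 := by
    by_contra h0
    push Not at h0
    exact hu (by ext g; exact h0 g)
  have h1 := (h (-(v (Additive.ofMul g))) (u (Additive.ofMul g)) (by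
    ext x
    show -(v (Additive.ofMul g)) * u (Additive.ofMul x) +
      u (Additive.ofMul g) * v (Additive.ofMul x) = 0
    rw [hcon g x]; ring)).2
  exact hg h1

theorem fin_main {G F0 : Type} [Group G] [Field F0]
    (hG : 2 ≤ Module.rank F0 (Additive G →+ F0))
    (K : Subgroup G) (hK : K.index ≠ 0) (hpow : ∀ x : G, ∃ r : ℕ, (r : F0) ≠ 0 ∧ x ^ r ∈ K)
    (χ : K →* Multiplicative ℤ) (hχ : χ ≠ 1)
    (hfin : Module.Finite F0 (Additive χ.ker →+ F0)) (a b : G)
    (φ : Subgroup.zpowers a ≃* Subgroup.zpowers b) :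
    IsEmpty (HNNExtension G (Subgroup.zpowers a) (Subgroup.zpowers b) φ ≃* G) := by
  refine ⟨fun e => ?_⟩
  obtain ⟨u, v, huv⟩ : ∃ u v : Additive G →+ F0, LinearIndependent F0 ![u, v] := by
    obtain ⟨w, hw⟩ := (Module.le_rank_iff (R := F0) (M := Additive G →+ F0) (n := 2)).mp
      (by exact_mod_cast hG)
    refine ⟨w 0, w 1, ?_⟩
    have h1 : ![w 0, w 1] = w := by
      funext i
      fin_cases i <;> rfl
    rw [h1]; exact hw
  have h1 : Fd F0 K χ := by
    refine ⟨hK, hpow, ?_, ?_⟩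
    · by_contra hcon
      push Not at hcon
      exact hχ (by ext x; simp [hcon x])
    · exact finite_congr (χ.ker.equivMapOfInjective K.subtype K.subtype_injective)
  obtain ⟨h2, -⟩ := h1.map e.symm
  refine Fd.false ⟨a, Subgroup.mem_zpowers a⟩ ?_ u v (det_of_linearIndependent huv) e _ _ _ h2 rfl
  rintro ⟨c, hc⟩
  obtain ⟨k, rfl⟩ := Subgroup.mem_zpowers_iff.mp hc
  exact Subgroup.mem_zpowers_iff.mpr ⟨k, rfl⟩

end Pool.Agent.helper444_cyc
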